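import Pool.Agent.Work.MP_60d5ce_nt.Local

/-!
# Arithmetic of `F[X]` used in the descent
-/

namespace Pool.Agent.ShaFF

open WithZero Polynomial IsDedekindDomain

universe u

section ufd

variable {R : Type*} [CommRing R] [IsDomain R] [UniqueFactorizationMonoid R]

theorem exists_sqfree_mul_sq (m : R) (hm : m ≠ 0) : ∃ a c : R, Squarefree a ∧ m = a * c ^ 2 := by
  induction m using UniqueFactorizationMonoid.induction_on_prime with
  | h₁ => exact absurd rfl hm
  | h₂ x hx => exact ⟨x, 1, hx.squarefree, by ring⟩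
  | h₃ m p hm' hp ih =>
    obtain ⟨a, c, ha, rfl⟩ := ih hm'
    by_cases h : p ∣ a
    · obtain ⟨a', rfl⟩ := h
      exact ⟨a', p * c, ha.of_mul_right, by ring⟩
    · refine ⟨p * a, c, squarefree_mul_iff.2 ⟨?_, hp.squarefree, ha⟩, by ring⟩
      exact (hp.irreducible.isRelPrime_iff_not_dvd).2 h

theorem sqfree_dvd (a m : R) (ha : Squarefree a) (h : ∀ π, Irreducible π → π ∣ a → π ∣ m) :
    a ∣ m := by
  induction a using UniqueFactorizationMonoid.induction_on_prime with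
  | h₁ => exact absurd ha not_squarefree_zero
  | h₂ x hx => exact hx.dvd
  | h₃ a p _ hp ih =>
    obtain ⟨h1, -, h3⟩ := squarefree_mul_iff.1 ha
    exact h1.mul_dvd (h p hp.irreducible (dvd_mul_right _ _))
      (ih h3 fun π hπ hd => h π hπ (hd.mul_left _))

omit [UniqueFactorizationMonoid R] in
theorem dvd_prime_prod {J : Type*} (s : Finset J) (p : J → R) (hp : ∀ j ∈ s, Prime (p j))
    (a : R) (h : a ∣ ∏ j ∈ s, p j) : ∃ A ⊆ s, Associated a (∏ j ∈ A, p j) := by
  classical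
  induction s using Finset.induction_on generalizing a with
  | empty => exact ⟨∅, subset_rfl, by simpa [associated_one_iff_isUnit, isUnit_iff_dvd_one] using h⟩
  | insert i s hi ih =>
    rw [Finset.prod_insert hi] at h
    have hpi := hp i (Finset.mem_insert_self _ _)
    have hp' : ∀ j ∈ s, Prime (p j) := fun j hj => hp j (Finset.mem_insert_of_mem hj)
    rcases hpi.left_dvd_or_dvd_right_of_dvd_mul h with ⟨a', rfl⟩ | h'
    · obtain ⟨A, hA, hA'⟩ := ih hp' a' ((mul_dvd_mul_iff_left hpi.ne_zero).1 h)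
      refine ⟨insert i A, Finset.insert_subset_insert _ hA, ?_⟩
      rw [Finset.prod_insert fun hiA => hi (hA hiA)]
      exact hA'.mul_left _
    · obtain ⟨A, hA, hA'⟩ := ih hp' a h'
      exact ⟨A, hA.trans (Finset.subset_insert _ _), hA'⟩

end ufd

variable {F : Type u} [Field F]

theorem ratFunc_decomp (b : RatFunc F) (hb : b ≠ 0) :
    ∃ (a : F[X]) (k : RatFunc F), Squarefree a ∧ k ≠ 0 ∧ b = algebraMap F[X] _ a * k ^ 2 := by
  have h1 : b.num ≠ 0 := RatFunc.num_ne_zero hb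
  have h2 : b.denom ≠ 0 := b.denom_ne_zero
  obtain ⟨a, c, ha, hac⟩ := exists_sqfree_mul_sq (b.num * b.denom) (mul_ne_zero h1 h2)
  have hc : c ≠ 0 := by
    rintro rfl
    exact mul_ne_zero h1 h2 (by simpa using hac)
  have h3 : algebraMap F[X] (RatFunc F) b.denom ≠ 0 := by simpa using h2
  refine ⟨a, algebraMap F[X] _ c / algebraMap F[X] _ b.denom, ha,
    div_ne_zero (by simpa using hc) h3, ?_⟩
  have h4 := congrArg (algebraMap F[X] (RatFunc F)) hac
  rw [map_mul, map_mul, map_pow] at h4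
  conv_lhs => rw [← b.num_div_denom]
  field_simp
  linear_combination h4

/-- the prime of `F[X]` generated by an irreducible polynomial -/
noncomputable def pl {π : F[X]} (hπ : Irreducible π) : HeightOneSpectrum F[X] :=
  ⟨Ideal.span {π}, (Ideal.span_singleton_prime hπ.ne_zero).2 hπ.prime, by simpa using hπ.ne_zero⟩

/-- the valuation of `F(X)` at an irreducible polynomial -/
noncomputable def nu {π : F[X]} (hπ : Irreducible π) : Valuation (RatFunc F) ℤᵐ⁰ :=
  (pl hπ).valuation (RatFunc F)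

theorem nu_lt_one_iff {π : F[X]} (hπ : Irreducible π) (a : F[X]) :
    nu hπ (algebraMap F[X] _ a) < 1 ↔ π ∣ a := by
  have := (pl hπ).valuation_lt_one_iff_mem (K := RatFunc F) a
  rw [← Ideal.mem_span_singleton]
  exact this

theorem nu_eq_one_iff {π : F[X]} (hπ : Irreducible π) (a : F[X]) :
    nu hπ (algebraMap F[X] _ a) = 1 ↔ ¬ π ∣ a := by
  have := (pl hπ).valuation_eq_one_iff_notMem (K := RatFunc F) (r := a)
  rw [← Ideal.mem_span_singleton]
  exact this

theorem nu_self {π : F[X]} (hπ : Irreducible π) :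
    nu hπ (algebraMap F[X] _ π) = exp (-1 : ℤ) := by
  have h1 := (pl hπ).valuation_of_algebraMap (K := RatFunc F) π
  have h2 := (pl hπ).intValuation_singleton hπ.ne_zero rfl
  exact h1.trans h2

theorem nu_nontrivial {π : F[X]} (hπ : Irreducible π) : (absOf (nu hπ)).IsNontrivial :=
  absOf_nontrivial _ (a := algebraMap F[X] _ π) (by simpa using hπ.ne_zero)
    ((nu_lt_one_iff hπ π).2 dvd_rfl)

theorem even_of_exp_eq_sq {n : ℤ} {x : ℤᵐ⁰} (h : exp n = x ^ 2) : Even n := by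
  have hx : x ≠ 0 := by
    rintro rfl
    simp at h
  rw [← exp_log hx, ← exp_nsmul, exp_inj] at h
  exact ⟨log x, by rw [h]; simp [two_mul]⟩

theorem not_dvd_of_even {π : F[X]} (hπ : Irreducible π) {a : F[X]} (ha : Squarefree a)
    {k k' : RatFunc F} (hk : k ≠ 0)
    (h : nu hπ (algebraMap F[X] _ a * k ^ 2) = nu hπ k' ^ 2) : ¬ π ∣ a := by
  rintro ⟨a', rfl⟩
  have h1 : ¬ π ∣ a' := fun hd => hπ.not_isUnit (ha π (mul_dvd_mul_left π hd))
  rw [map_mul, map_mul, map_mul, nu_self, (nu_eq_one_iff hπ a').2 h1, mul_one, map_pow] at h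
  have hk' : nu hπ k ≠ 0 := by simpa using hk
  have h2 : exp (-1 : ℤ) = (nu hπ k' / nu hπ k) ^ 2 := by
    rw [div_pow, ← h]; field_simp
  have := even_of_exp_eq_sq h2
  simp at this

theorem const_square {π : F[X]} (hπ : Irreducible π) (hodd : Odd π.natDegree) {c : F}
    {k : RatFunc F} (h : VA (nu hπ) (algebraMap F[X] _ (C c)) (k ^ 2)) : IsSquare c := by
  have hc : c ≠ 0 := by
    rintro rfl
    exact h.ne_zero (by simp)
  have h1 : nu hπ (algebraMap F[X] _ (C c)) = 1 :=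
    (nu_eq_one_iff hπ _).2 fun hd => hπ.not_isUnit (isUnit_of_dvd_unit hd (isUnit_C.2 hc.isUnit))
  have h2 : nu hπ k ≤ 1 := by
    have := h.val_eq
    rw [h1, map_pow] at this
    by_contra hlt
    push Not at hlt
    exact absurd this.symm (one_lt_pow₀ hlt two_ne_zero).ne'
  obtain ⟨n, ⟨d, hd⟩, hnd⟩ := (pl hπ).exists_primeCompl_mul_eq_of_integer k h2
  have hd' : ¬ π ∣ d := fun H => hd (Ideal.mem_span_singleton.2 H)
  have h3 : π ∣ C c * d ^ 2 - n ^ 2 := by
    rw [← nu_lt_one_iff hπ]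
    simp only at hnd
    rw [map_sub, map_mul, map_pow, map_pow, ← hnd,
      show algebraMap F[X] (RatFunc F) (C c) * algebraMap F[X] (RatFunc F) d ^ 2 -
        (k * algebraMap F[X] (RatFunc F) d) ^ 2 =
        (algebraMap F[X] (RatFunc F) (C c) - k ^ 2) * algebraMap F[X] (RatFunc F) d ^ 2 by ring,
      map_mul, map_pow, (nu_eq_one_iff hπ d).2 hd', one_pow, mul_one, ← h1]
    exact h
  have : Fact (Irreducible π) := ⟨hπ⟩
  have pb := AdjoinRoot.powerBasis hπ.ne_zero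
  have hfin : Module.finrank F (AdjoinRoot π) = π.natDegree := by
    rw [(AdjoinRoot.powerBasis hπ.ne_zero).finrank, AdjoinRoot.powerBasis_dim]
  have : Module.Finite F (AdjoinRoot π) := pb.finite
  have h4 : algebraMap F (AdjoinRoot π) c * AdjoinRoot.mk π d ^ 2 = AdjoinRoot.mk π n ^ 2 := by
    have := AdjoinRoot.mk_eq_zero.2 h3
    rw [map_sub, map_mul, map_pow, map_pow, sub_eq_zero] at this
    exact this
  have h5 := congrArg (Algebra.norm F) h4
  rw [map_mul, map_pow, map_pow, Algebra.norm_algebraMap, hfin] at h5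
  have h6 : Algebra.norm F (AdjoinRoot.mk π d) ≠ 0 :=
    Algebra.norm_ne_zero_iff.2 fun H => hd' (AdjoinRoot.mk_eq_zero.1 H)
  obtain ⟨m, hm⟩ := hodd
  rw [hm] at h5
  refine ⟨Algebra.norm F (AdjoinRoot.mk π n) / (Algebra.norm F (AdjoinRoot.mk π d) * c ^ m), ?_⟩
  field_simp
  linear_combination h5

theorem assoc_const {a b : F[X]} (h : Associated a b) : ∃ c : F, c ≠ 0 ∧ a = C c * b := by
  obtain ⟨u, rfl⟩ := h.symm
  obtain ⟨c, hc, hu⟩ := Polynomial.isUnit_iff.1 u.isUnit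
  exact ⟨c, hc.ne_zero, by rw [hu, mul_comm]⟩

/-- The Selmer computation for `y^2 = x (x + 1) (x + g^(2m))`. -/
theorem selmer (g : F[X]) (hg : Irreducible g) (hodd : Odd g.natDegree) (m : ℕ) (hm : 0 < m)
    (S : Finset F) (h1S : (1 : F) ∈ S) (hS : ∀ ζ ∈ S, Irreducible (g - C ζ))
    (hsq : ∀ ζ ∈ S, ζ ≠ 0 ∧ IsSquare (-ζ)) (hprod : g ^ (2 * m) - 1 = ∏ ζ ∈ S, (g - C ζ))
    (b1 b2 b3 : RatFunc F) (hb1 : b1 ≠ 0) (hb2 : b2 ≠ 0) (hw : IsSquare (b1 * b2 * b3))
    (H : ∀ v : AbsoluteValue (RatFunc F) ℝ, v.IsNontrivial → ∃ X z1 z2 z3 : RatFunc F,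
      Apx v b1 ((X - 0) * z1 ^ 2) ∧ Apx v b2 ((X - (-1)) * z2 ^ 2) ∧
        Apx v b3 ((X - (-(algebraMap F[X] _ g) ^ (2 * m))) * z3 ^ 2)) :
    ∃ A ⊆ S, IsSquare (b1 * (algebraMap F[X] _ g) ^ A.card) ∧
      IsSquare (b2 * ∏ ζ ∈ A, algebraMap F[X] _ (g - C ζ)) := by
  classical
  obtain ⟨w, hw⟩ := hw
  set ι := algebraMap F[X] (RatFunc F) with hι
  have hg0 : ι g ≠ 0 := by simpa [hι] using hg.ne_zero
  have hdeg : 0 < g.natDegree := hodd.pos
  have hdegS : ∀ ζ : F, (g - C ζ).natDegree = g.natDegree := fun ζ => natDegree_sub_C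
  have H' : ∀ ν : Valuation (RatFunc F) ℤᵐ⁰, (absOf ν).IsNontrivial → ∃ X z1 z2 z3 : RatFunc F,
      VA ν b1 ((X - 0) * z1 ^ 2) ∧ VA ν b2 ((X - (-1)) * z2 ^ 2) ∧
        VA ν b3 ((X - (-(ι g) ^ (2 * m))) * z3 ^ 2) := by
    intro ν hν
    simpa only [apx_iff] using H _ hν
  obtain ⟨a1, k1, ha1, hk1, rfl⟩ := ratFunc_decomp b1 hb1
  obtain ⟨a2, k2, ha2, hk2, rfl⟩ := ratFunc_decomp b2 hb2
  -- support of `b1`
  have d1 : a1 ∣ ∏ _j ∈ ({()} : Finset Unit), g := by
    rw [Finset.prod_singleton]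
    refine sqfree_dvd _ _ ha1 fun π hπ hd => ?_
    by_contra hn
    obtain ⟨X, z1, z2, z3, v1, v2, v3⟩ := H' _ (nu_nontrivial hπ)
    obtain ⟨k, hk⟩ := local_unram v1 v2 v3 hw (by simp)
      (by simp [hι, (nu_eq_one_iff hπ g).2 hn])
    exact not_dvd_of_even hπ ha1 hk1 hk hd
  have d2 : a2 ∣ ∏ ζ ∈ S, (g - C ζ) := by
    refine sqfree_dvd _ _ ha2 fun π hπ hd => ?_
    by_contra hn
    rw [← hprod, ← nu_eq_one_iff hπ] at hn
    obtain ⟨X, z1, z2, z3, v1, v2, v3⟩ := H' _ (nu_nontrivial hπ)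
    obtain ⟨k, hk⟩ := local_unram v2 v1 v3 (w := w) (by rw [← hw]; ring) (by simp)
      (by rw [← hn]; congr 1; rw [map_sub, map_pow, map_one]; ring)
    exact not_dvd_of_even hπ ha2 hk2 hk hd
  obtain ⟨B, -, hB⟩ := dvd_prime_prod _ (fun _ => g) (fun _ _ => hg.prime) a1 d1
  obtain ⟨A, hAS, hA⟩ := dvd_prime_prod _ _ (fun ζ hζ => (hS ζ hζ).prime) a2 d2
  rw [Finset.prod_const] at hB
  obtain ⟨c1, hc1, rfl⟩ := assoc_const hB
  obtain ⟨c2, hc2, rfl⟩ := assoc_const hA
  -- the constant `c1` is a square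
  have s1 : IsSquare c1 := by
    have hπ := hS 1 h1S
    obtain ⟨X, z1, z2, z3, v1, v2, v3⟩ := H' _ (nu_nontrivial hπ)
    obtain ⟨i, hi⟩ := (hsq 1 h1S).2
    have hlt : nu hπ (ι (g ^ (2 * m) - 1)) < 1 :=
      (nu_lt_one_iff hπ _).2 (hprod ▸ Finset.dvd_prod_of_mem _ h1S)
    obtain ⟨k, hk⟩ := local_split v1 v2 v3 hw (s := ι (C i))
      (by
        have : (-1 : RatFunc F) - -ι g ^ (2 * m) = ι (g ^ (2 * m) - 1) := by
          rw [map_sub, map_pow, map_one]; ring
        rw [this]; simpa using hlt)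
      (by rw [← map_pow, ← map_pow, sq i, ← hi]; simp)
    have hg1 : VA (nu hπ) 1 (ι g) := by
      unfold VA
      rw [Valuation.map_sub_swap, Valuation.map_one]
      have := (nu_lt_one_iff hπ _).2 dvd_rfl
      simpa [hι] using this
    have h3 : VA (nu hπ) (ι (C c1) * 1 ^ B.card * k1 ^ 2) (ι (C c1 * g ^ B.card) * k1 ^ 2) := by
      rw [map_mul, map_pow]
      exact ((VA.refl (by simpa [hι] using hc1)).mul (hg1.pow _)).mul_right (pow_ne_zero 2 hk1)
    have h4 := (h3.trans hk).mul_right (c := (k1 ^ 2)⁻¹) (by simp [hk1])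
    refine const_square hπ (by rw [hdegS]; exact hodd) (k := k / k1) ?_
    convert h4 using 1
    · field_simp; simp [hι]
    · field_simp
  -- the constant `c2` is a square
  have s2 : IsSquare c2 := by
    obtain ⟨X, z1, z2, z3, v1, v2, v3⟩ := H' _ (nu_nontrivial hg)
    have hlt : nu hg (ι g) < 1 := (nu_lt_one_iff hg _).2 dvd_rfl
    obtain ⟨k, hk⟩ := local_split v2 v1 v3 (w := w) (by rw [← hw]; ring) (s := 1)
      (by simpa using pow_lt_one₀ zero_le hlt (by omega)) (by simp)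
    choose! s hs using fun ζ hζ => (hsq ζ hζ).2
    have hg1 : ∀ ζ ∈ A, VA (nu hg) (ι (C (s ζ)) ^ 2) (ι (g - C ζ)) := by
      intro ζ hζ
      have h0 := (hsq ζ (hAS hζ)).1
      unfold VA
      rw [← map_pow, ← map_pow, sq, ← hs ζ (hAS hζ), ← map_sub,
        (nu_eq_one_iff hg _).2 (fun hd => hg.not_isUnit
          (isUnit_of_dvd_unit hd (isUnit_C.2 (neg_ne_zero.2 h0).isUnit))), nu_lt_one_iff]
      exact ⟨-1, by rw [C_neg]; ring⟩
    have h2 := VA.prod A _ _ hg1
    have hne : ∏ ζ ∈ A, ι (C (s ζ)) ≠ 0 := by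
      have := h2.ne_zero
      rw [Finset.prod_pow] at this
      exact fun H => this (by rw [H]; simp)
    rw [Finset.prod_pow] at h2
    have h3 : VA (nu hg) (ι (C c2) * (∏ ζ ∈ A, ι (C (s ζ))) ^ 2 * k2 ^ 2)
        (ι (C c2 * ∏ ζ ∈ A, (g - C ζ)) * k2 ^ 2) := by
      rw [map_mul, map_prod]
      exact ((VA.refl (by simpa [hι] using hc2)).mul h2).mul_right (pow_ne_zero 2 hk2)
    have h4 := (h3.trans hk).mul_right (c := (((∏ ζ ∈ A, ι (C (s ζ))) * k2) ^ 2)⁻¹)
      (inv_ne_zero (pow_ne_zero 2 (mul_ne_zero hne hk2)))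
    refine const_square hg hodd (k := k / ((∏ ζ ∈ A, ι (C (s ζ))) * k2)) ?_
    convert h4 using 1
    · field_simp; simp [hι]
    · field_simp
  -- parity at infinity
  have par : Even (B.card + A.card) := by
    have hX : (absOf (RatFunc.inftyValuation F)).IsNontrivial :=
      absOf_nontrivial _ (a := 1 / RatFunc.X) (by simp [RatFunc.X_ne_zero])
        (by rw [RatFunc.inftyValuation.X_inv, ← exp_zero, exp_lt_exp]; norm_num)
    have hv : ∀ p : F[X], p ≠ 0 → RatFunc.inftyValuation F (ι p) = exp (p.natDegree : ℤ) :=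
      fun p hp => RatFunc.inftyValuation.polynomial F hp
    obtain ⟨X, z1, z2, z3, v1, v2, v3⟩ := H' _ hX
    obtain ⟨k, hk⟩ := local_split v3 v1 v2 (w := w) (by rw [← hw]; ring) (s := ι g ^ m)
      (by
        simp only [sub_neg_eq_add, zero_add, map_one, map_pow, hv g hg.ne_zero]
        refine one_lt_pow₀ ?_ (by omega)
        rw [← exp_zero, exp_lt_exp]; exact_mod_cast hdeg) (by ring)
    have e1 := hk.val_eq
    have hP : ∏ ζ ∈ A, (g - C ζ) ≠ 0 :=
      Finset.prod_ne_zero_iff.2 fun ζ hζ => (hS ζ (hAS hζ)).ne_zero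
    have e2 := congrArg (RatFunc.inftyValuation F) hw
    have hk0 : k ≠ 0 := by
      rintro rfl
      exact hk.symm.ne_zero (by simp)
    rw [← hι] at e2
    rw [Valuation.map_mul, Valuation.map_mul, Valuation.map_mul, Valuation.map_mul,
      Valuation.map_mul, e1,
      hv _ (mul_ne_zero (C_ne_zero.2 hc1) (pow_ne_zero _ hg.ne_zero)),
      hv _ (mul_ne_zero (C_ne_zero.2 hc2) hP), natDegree_C_mul hc1, natDegree_C_mul hc2,
      natDegree_pow, natDegree_prod _ _ fun ζ hζ => (hS ζ (hAS hζ)).ne_zero] at e2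
    simp only [hdegS, Finset.sum_const, smul_eq_mul, map_pow] at e2
    have q1 : RatFunc.inftyValuation F k1 ≠ 0 := by simpa using hk1
    have q2 : RatFunc.inftyValuation F k2 ≠ 0 := by simpa using hk2
    have q3 : RatFunc.inftyValuation F k ≠ 0 := by simpa using hk0
    have e3 : exp (((B.card + A.card) * g.natDegree : ℕ) : ℤ) = (RatFunc.inftyValuation F w /
        (RatFunc.inftyValuation F k1 * RatFunc.inftyValuation F k2 *
          RatFunc.inftyValuation F k)) ^ 2 := by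
      rw [div_pow, sq (RatFunc.inftyValuation F w), ← e2, add_mul, Nat.cast_add, exp_add]
      field_simp
    have e4 := even_of_exp_eq_sq e3
    rw [Int.even_coe_nat, Nat.even_mul] at e4
    exact e4.resolve_right (Nat.not_even_iff_odd.2 hodd)
  obtain ⟨r1, rfl⟩ := s1
  obtain ⟨r2, rfl⟩ := s2
  obtain ⟨n, hn⟩ := par
  refine ⟨A, hAS, ⟨ι (C r1) * ι g ^ n * k1, ?_⟩, ⟨ι (C r2) * ι (∏ ζ ∈ A, (g - C ζ)) * k2, ?_⟩⟩
  · rw [← hι, map_mul, map_mul, map_mul, map_pow]
    have : ι g ^ B.card * ι g ^ A.card = ι g ^ n * ι g ^ n := by rw [← pow_add, hn, pow_add]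
    linear_combination (ι (C r1) * ι (C r1) * k1 ^ 2) * this
  · rw [← hι, ← map_prod, map_mul, map_mul, map_mul]
    ring

end Pool.Agent.ShaFF
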