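import Pool.Agent.Work.MP_60d5ce_nt.Legendre

/-!
# The Legendre curve over `F(v)`, `t = g(v)^d`, under quadratic residue conditions
-/

namespace Pool.Agent.ShaFF

open WithZero Polynomial IsDedekindDomain

universe u

variable {F : Type u} [Field F]

theorem sq_mod {π : F[X]} (hπ : Irreducible π) {a : F[X]} (ha : ¬ π ∣ a)
    {k : RatFunc F} (h : VA (nu hπ) (algebraMap F[X] _ a) (k ^ 2)) : ∃ r : F[X], π ∣ a - r ^ 2 := by
  have h1 : nu hπ (algebraMap F[X] _ a) = 1 := (nu_eq_one_iff hπ _).2 ha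
  have h2 : nu hπ k ≤ 1 := by
    have := h.val_eq
    rw [h1, map_pow] at this
    by_contra hlt
    push Not at hlt
    exact absurd this.symm (one_lt_pow₀ hlt two_ne_zero).ne'
  obtain ⟨n, ⟨d, hd⟩, hnd⟩ := (pl hπ).exists_primeCompl_mul_eq_of_integer k h2
  have hd' : ¬ π ∣ d := fun H => hd (Ideal.mem_span_singleton.2 H)
  have h3 : π ∣ a * d ^ 2 - n ^ 2 := by
    rw [← nu_lt_one_iff hπ]
    simp only at hnd
    rw [map_sub, map_mul, map_pow, map_pow, ← hnd,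
      show algebraMap F[X] (RatFunc F) a * algebraMap F[X] (RatFunc F) d ^ 2 -
        (k * algebraMap F[X] (RatFunc F) d) ^ 2 =
        (algebraMap F[X] (RatFunc F) a - k ^ 2) * algebraMap F[X] (RatFunc F) d ^ 2 by ring,
      map_mul, map_pow, (nu_eq_one_iff hπ d).2 hd', one_pow, mul_one, ← h1]
    exact h
  obtain ⟨s, t, hst⟩ := (hπ.coprime_iff_not_dvd).2 hd'
  obtain ⟨q, hq⟩ := h3
  refine ⟨n * t, ⟨a * s * (1 + t * d) + q * t ^ 2, ?_⟩⟩
  have : s * π = 1 - t * d := by linear_combination hst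
  linear_combination t ^ 2 * hq - a * (1 + t * d) * this

theorem va_of_natDegree [DecidableEq (RatFunc F)] {a : F[X]} (ha : a ≠ 0) :
    VA (RatFunc.inftyValuation F) (algebraMap F[X] (RatFunc F) a)
      (algebraMap F[X] (RatFunc F) (C a.leadingCoeff * X ^ a.natDegree)) := by
  unfold VA
  rw [← map_sub]
  have hv : ∀ p : F[X], p ≠ 0 →
      RatFunc.inftyValuation F (algebraMap F[X] (RatFunc F) p) = exp (p.natDegree : ℤ) :=
    fun p hp => RatFunc.inftyValuation.polynomial F hp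
  by_cases h0 : a - C a.leadingCoeff * X ^ a.natDegree = 0
  · rw [h0, map_zero, map_zero, hv a ha]; exact exp_pos
  · rw [hv _ h0, hv a ha, exp_lt_exp, Nat.cast_lt]
    have h1 : a - C a.leadingCoeff * X ^ a.natDegree = a.eraseLead := by
      rw [C_mul_X_pow_eq_monomial]; exact (self_sub_monomial_natDegree_leadingCoeff a)
    rw [h1] at h0 ⊢
    exact (eraseLead_natDegree_lt_or_eraseLead_eq_zero a).resolve_right h0

/-- a polynomial that is a square at infinity has even degree and square leading coefficient -/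
theorem sq_infty [DecidableEq (RatFunc F)] {a : F[X]} (ha : a ≠ 0) {k : RatFunc F}
    (h : VA (RatFunc.inftyValuation F) (algebraMap F[X] (RatFunc F) a) (k ^ 2)) :
    Even a.natDegree ∧ IsSquare a.leadingCoeff := by
  set ι := algebraMap F[X] (RatFunc F) with hι
  have hv : ∀ p : F[X], p ≠ 0 → RatFunc.inftyValuation F (ι p) = exp (p.natDegree : ℤ) :=
    fun p hp => RatFunc.inftyValuation.polynomial F hp
  have hk0 : k ≠ 0 := by
    rintro rfl
    exact h.symm.ne_zero (by simp)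
  have h1 : k.num ≠ 0 := RatFunc.num_ne_zero hk0
  have h2 : k.denom ≠ 0 := k.denom_ne_zero
  have h3 : ι k.denom ≠ 0 := by simpa [hι] using h2
  have h4 : VA (RatFunc.inftyValuation F) (ι (a * k.denom ^ 2)) (ι (k.num ^ 2)) := by
    have := h.mul_right (pow_ne_zero 2 h3)
    rw [map_mul, map_pow, map_pow]
    convert this using 1
    have e := k.num_div_denom
    rw [← hι, div_eq_iff h3] at e
    rw [e]; ring
  have n1 : a * k.denom ^ 2 ≠ 0 := mul_ne_zero ha (pow_ne_zero 2 h2)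
  have n2 : k.num ^ 2 ≠ 0 := pow_ne_zero 2 h1
  have h5 := h4.val_eq
  rw [hv _ n1, hv _ n2, exp_inj, Nat.cast_inj] at h5
  have h6 := ((va_of_natDegree n1).symm.trans h4).trans (va_of_natDegree n2)
  rw [h5] at h6
  have h7 : (a * k.denom ^ 2).leadingCoeff = (k.num ^ 2).leadingCoeff := by
    by_contra hne
    unfold VA at h6
    rw [← map_sub, ← sub_mul, ← C_sub, hv, hv, natDegree_C_mul_X_pow _ _ (sub_ne_zero.2 hne),
      natDegree_C_mul_X_pow _ _ (leadingCoeff_ne_zero.2 n1)] at h6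
    · exact lt_irrefl _ h6
    · exact mul_ne_zero (C_ne_zero.2 (leadingCoeff_ne_zero.2 n1)) (pow_ne_zero _ X_ne_zero)
    · exact mul_ne_zero (C_ne_zero.2 (sub_ne_zero.2 hne)) (pow_ne_zero _ X_ne_zero)
  rw [natDegree_mul ha (pow_ne_zero 2 h2), natDegree_pow, natDegree_pow] at h5
  rw [leadingCoeff_mul, leadingCoeff_pow, leadingCoeff_pow] at h7
  have h8 : k.denom.leadingCoeff ≠ 0 := leadingCoeff_ne_zero.2 h2
  refine ⟨⟨k.num.natDegree - k.denom.natDegree, by omega⟩,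
    ⟨k.num.leadingCoeff / k.denom.leadingCoeff, ?_⟩⟩
  field_simp
  linear_combination h7

/-- The Selmer computation for `y^2 = x (x + 1) (x + g^(2m))` under residue conditions. -/
theorem selmer2 (g : F[X]) (hdeg : 0 < g.natDegree)
    (hinf : Odd g.natDegree ∨ ¬ IsSquare g.leadingCoeff) (m : ℕ) (hm : 0 < m)
    (hi : IsSquare (-1 : F))
    (hU : ∀ a : F[X], Squarefree a → a ∣ g →
      (∀ h : F[X], Irreducible h → h ∣ g ^ (2 * m) - 1 → ∃ r, h ∣ a - r ^ 2) →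
      IsSquare a ∨ IsSquare (a * g))
    (hW : ∀ a : F[X], Squarefree a → a ∣ g ^ (2 * m) - 1 →
      (∀ h : F[X], Irreducible h → h ∣ g → ∃ r, h ∣ a - r ^ 2) →
      ∃ A : Finset F, (∀ ζ ∈ A, ζ ^ (2 * m) = 1) ∧ IsSquare (a * ∏ ζ ∈ A, (g - C ζ)))
    (b1 b2 b3 : RatFunc F) (hb1 : b1 ≠ 0) (hb2 : b2 ≠ 0) (hw : IsSquare (b1 * b2 * b3))
    (H : ∀ v : AbsoluteValue (RatFunc F) ℝ, v.IsNontrivial → ∃ X z1 z2 z3 : RatFunc F,
      Apx v b1 ((X - 0) * z1 ^ 2) ∧ Apx v b2 ((X - (-1)) * z2 ^ 2) ∧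
        Apx v b3 ((X - (-(algebraMap F[X] _ g) ^ (2 * m))) * z3 ^ 2)) :
    ∃ A : Finset F, (∀ ζ ∈ A, ζ ^ (2 * m) = 1) ∧ IsSquare (b1 * (algebraMap F[X] _ g) ^ A.card) ∧
      IsSquare (b2 * ∏ ζ ∈ A, algebraMap F[X] _ (g - C ζ)) := by
  classical
  obtain ⟨w, hw⟩ := hw
  set ι := algebraMap F[X] (RatFunc F) with hι
  have hgne : g ≠ 0 := by rintro rfl; simp at hdeg
  have hg0 : ι g ≠ 0 := by simpa [hι] using hgne
  have hdegS : ∀ ζ : F, (g - C ζ).natDegree = g.natDegree := fun ζ => natDegree_sub_C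
  have hneS : ∀ ζ : F, g - C ζ ≠ 0 := fun ζ H => by
    have := hdegS ζ
    rw [H, natDegree_zero] at this
    omega
  have hlcS : ∀ ζ : F, (g - C ζ).leadingCoeff = g.leadingCoeff := fun ζ =>
    leadingCoeff_sub_of_degree_lt (degree_C_le.trans_lt (natDegree_pos_iff_degree_pos.1 hdeg))
  have H' : ∀ ν : Valuation (RatFunc F) ℤᵐ⁰, (absOf ν).IsNontrivial → ∃ X z1 z2 z3 : RatFunc F,
      VA ν b1 ((X - 0) * z1 ^ 2) ∧ VA ν b2 ((X - (-1)) * z2 ^ 2) ∧
        VA ν b3 ((X - (-(ι g) ^ (2 * m))) * z3 ^ 2) := by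
    intro ν hν
    simpa only [apx_iff] using H _ hν
  obtain ⟨a1, k1, ha1, hk1, rfl⟩ := ratFunc_decomp b1 hb1
  obtain ⟨a2, k2, ha2, hk2, rfl⟩ := ratFunc_decomp b2 hb2
  have hcop : ∀ π : F[X], Irreducible π → π ∣ g → π ∣ g ^ (2 * m) - 1 → False := by
    intro π hπ h1 h2
    refine hπ.not_isUnit (isUnit_of_dvd_one ?_)
    have h3 : π ∣ g ^ (2 * m) := h1.trans (dvd_pow_self g (by omega))
    simpa using h3.sub h2
  -- support of `b1`
  have d1 : a1 ∣ g := by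
    refine sqfree_dvd _ _ ha1 fun π hπ hd => ?_
    by_contra hn
    obtain ⟨X, z1, z2, z3, v1, v2, v3⟩ := H' _ (nu_nontrivial hπ)
    obtain ⟨k, hk⟩ := local_unram v1 v2 v3 hw (by simp)
      (by simp [hι, (nu_eq_one_iff hπ g).2 hn])
    exact not_dvd_of_even hπ ha1 hk1 hk hd
  have d2 : a2 ∣ g ^ (2 * m) - 1 := by
    refine sqfree_dvd _ _ ha2 fun π hπ hd => ?_
    by_contra hn
    rw [← nu_eq_one_iff hπ] at hn
    obtain ⟨X, z1, z2, z3, v1, v2, v3⟩ := H' _ (nu_nontrivial hπ)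
    obtain ⟨k, hk⟩ := local_unram v2 v1 v3 (w := w) (by rw [← hw]; ring) (by simp)
      (by rw [← hn]; congr 1; rw [map_sub, map_pow, map_one]; ring)
    exact not_dvd_of_even hπ ha2 hk2 hk hd
  have s1 : IsSquare a1 ∨ IsSquare (a1 * g) := by
    refine hU a1 ha1 d1 fun π hπ hd => ?_
    obtain ⟨X, z1, z2, z3, v1, v2, v3⟩ := H' _ (nu_nontrivial hπ)
    obtain ⟨i, hi⟩ := hi
    have hlt : nu hπ (ι (g ^ (2 * m) - 1)) < 1 := (nu_lt_one_iff hπ _).2 hd
    obtain ⟨k, hk⟩ := local_split v1 v2 v3 hw (s := ι (C i))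
      (by
        have : (-1 : RatFunc F) - -ι g ^ (2 * m) = ι (g ^ (2 * m) - 1) := by
          rw [map_sub, map_pow, map_one]; ring
        rw [this]; simpa using hlt)
      (by rw [← map_pow, ← map_pow, sq i, ← hi]; simp)
    have h4 := hk.mul_right (c := (k1 ^ 2)⁻¹) (by simp [hk1])
    refine sq_mod hπ (fun h1 => hcop π hπ (h1.trans d1) hd) (k := k / k1) ?_
    convert h4 using 1
    · field_simp
    · field_simp
  obtain ⟨A, hA, s2⟩ : ∃ A : Finset F, (∀ ζ ∈ A, ζ ^ (2 * m) = 1) ∧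
      IsSquare (a2 * ∏ ζ ∈ A, (g - C ζ)) := by
    refine hW a2 ha2 d2 fun π hπ hd => ?_
    obtain ⟨X, z1, z2, z3, v1, v2, v3⟩ := H' _ (nu_nontrivial hπ)
    have hlt : nu hπ (ι g) < 1 := (nu_lt_one_iff hπ _).2 hd
    obtain ⟨k, hk⟩ := local_split v2 v1 v3 (w := w) (by rw [← hw]; ring) (s := 1)
      (by simpa using pow_lt_one₀ zero_le hlt (by omega)) (by simp)
    have h4 := hk.mul_right (c := (k2 ^ 2)⁻¹) (by simp [hk2])
    refine sq_mod hπ (fun h1 => hcop π hπ hd (h1.trans d2)) (k := k / k2) ?_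
    convert h4 using 1
    · field_simp
    · field_simp
  obtain ⟨j, s1⟩ : ∃ j : ℕ, IsSquare (a1 * g ^ j) := by
    rcases s1 with s1 | s1
    · exact ⟨0, by simpa using s1⟩
    · exact ⟨1, by simpa using s1⟩
  have hP : ∏ ζ ∈ A, (g - C ζ) ≠ 0 := Finset.prod_ne_zero_iff.2 fun ζ _ => hneS ζ
  obtain ⟨r1, hr1⟩ := s1
  obtain ⟨r2, hr2⟩ := s2
  have e1 := congrArg ι hr1
  have e2 := congrArg ι hr2
  rw [map_mul, map_mul, map_pow] at e1
  rw [map_mul, map_mul] at e2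
  -- parity at infinity
  have par : Even (j + A.card) := by
    have hX : (absOf (RatFunc.inftyValuation F)).IsNontrivial :=
      absOf_nontrivial _ (a := 1 / RatFunc.X) (by simp [RatFunc.X_ne_zero])
        (by rw [RatFunc.inftyValuation.X_inv, ← exp_zero, exp_lt_exp]; norm_num)
    have hv : ∀ p : F[X], p ≠ 0 → RatFunc.inftyValuation F (ι p) = exp (p.natDegree : ℤ) :=
      fun p hp => RatFunc.inftyValuation.polynomial F hp
    obtain ⟨X, z1, z2, z3, v1, v2, v3⟩ := H' _ hX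
    obtain ⟨k, hk⟩ := local_split v3 v1 v2 (w := w) (by rw [← hw]; ring) (s := ι g ^ m)
      (by
        simp only [sub_neg_eq_add, zero_add, map_one, map_pow, hv g hgne]
        refine one_lt_pow₀ ?_ (by omega)
        rw [← exp_zero, exp_lt_exp]; exact_mod_cast hdeg) (by ring)
    have hb3 := hk.ne_zero
    have hr10 : ι r1 ≠ 0 := by
      intro H0
      rw [H0, mul_zero] at e1
      exact mul_ne_zero (left_ne_zero_of_mul hb1) (pow_ne_zero _ hg0) e1
    have hP' : ι (∏ ζ ∈ A, (g - C ζ)) ≠ 0 :=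
      (map_ne_zero_iff _ (IsFractionRing.injective F[X] (RatFunc F))).2 hP
    have hr20 : ι r2 ≠ 0 := by
      intro H0
      rw [H0, mul_zero] at e2
      exact mul_ne_zero (left_ne_zero_of_mul hb2) hP' e2
    have hw0 : w ≠ 0 := by
      rintro rfl
      exact mul_ne_zero (mul_ne_zero hb1 hb2) hb3 (by simpa using hw)
    have key : ι (g ^ j * ∏ ζ ∈ A, (g - C ζ)) =
        b3 * (ι r1 * ι r2 * k1 * k2 / w) ^ 2 := by
      rw [map_mul, map_pow]
      field_simp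
      rw [← hι] at hw
      linear_combination (-(ι g ^ j * ι (∏ ζ ∈ A, (g - C ζ)))) * hw +
        b3 * k1 ^ 2 * k2 ^ 2 * (ι a2 * ι (∏ ζ ∈ A, (g - C ζ))) * e1 +
        b3 * k1 ^ 2 * k2 ^ 2 * (ι r1 * ι r1) * e2
    have h5 := hk.mul_right (c := (ι r1 * ι r2 * k1 * k2 / w) ^ 2)
      (pow_ne_zero 2 (div_ne_zero (mul_ne_zero (mul_ne_zero (mul_ne_zero hr10 hr20) hk1) hk2) hw0))
    rw [← key, ← mul_pow] at h5
    obtain ⟨q1, q2⟩ := sq_infty (mul_ne_zero (pow_ne_zero _ hgne) hP) h5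
    rw [natDegree_mul (pow_ne_zero _ hgne) hP, natDegree_pow,
      natDegree_prod _ _ fun ζ _ => hneS ζ] at q1
    rw [leadingCoeff_mul, leadingCoeff_pow, leadingCoeff_prod] at q2
    simp only [hdegS, hlcS, Finset.sum_const, Finset.prod_const, smul_eq_mul] at q1 q2
    rw [← add_mul, Nat.even_mul] at q1
    rw [← pow_add] at q2
    by_contra hodd
    rcases hinf with h | h
    · exact (q1.resolve_left hodd).elim fun c hc => by
        obtain ⟨e, he⟩ := h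
        omega
    · obtain ⟨e, he⟩ := Nat.not_even_iff_odd.1 hodd
      obtain ⟨s, hs⟩ := q2
      have hl : g.leadingCoeff ≠ 0 := leadingCoeff_ne_zero.2 hgne
      refine h ⟨s / g.leadingCoeff ^ e, ?_⟩
      rw [he] at hs
      field_simp
      linear_combination hs
  obtain ⟨n, hn⟩ := par
  refine ⟨A, hA, ⟨ι r1 * k1 * ι g ^ n / ι g ^ j, ?_⟩, ⟨ι r2 * k2, ?_⟩⟩
  · rw [← hι]
    have : ι g ^ j * ι g ^ A.card = ι g ^ n * ι g ^ n := by rw [← pow_add, hn, pow_add]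
    field_simp
    linear_combination (ι g ^ A.card * ι g ^ j) * e1 + (ι r1 * ι r1) * this
  · rw [← hι, ← map_prod]
    linear_combination k2 ^ 2 * e2

theorem legendre_sha2 {p : ℕ} [Fact p.Prime] [CharP F p] (hp : p ≠ 2)
    {f : ℕ} (hf : 0 < f) {ζ₀ : F} (hζ₀ : IsPrimitiveRoot ζ₀ (p ^ f + 1))
    (g : F[X]) (hdeg : 0 < g.natDegree)
    (hinf : Odd g.natDegree ∨ ¬ IsSquare g.leadingCoeff)
    (hU : ∀ a : F[X], Squarefree a → a ∣ g →
      (∀ h : F[X], Irreducible h → h ∣ g ^ (p ^ f + 1) - 1 → ∃ r, h ∣ a - r ^ 2) →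
      IsSquare a ∨ IsSquare (a * g))
    (hW : ∀ a : F[X], Squarefree a → a ∣ g ^ (p ^ f + 1) - 1 →
      (∀ h : F[X], Irreducible h → h ∣ g → ∃ r, h ∣ a - r ^ 2) →
      ∃ A : Finset F, (∀ ζ ∈ A, ζ ^ (p ^ f + 1) = 1) ∧ IsSquare (a * ∏ ζ ∈ A, (g - C ζ)))
    (t : RatFunc F) (ht : t = algebraMap F[X] (RatFunc F) g ^ (p ^ f + 1))
    (E : WeierstrassCurve (RatFunc F)) (hE : E = ⟨0, 1 + t, 0, t, 0⟩)
    (Ω : Type u) [Field Ω] [Algebra (RatFunc F) Ω] [IsSepClosure (RatFunc F) Ω] [DecidableEq Ω] :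
    ∀ c : (Ω ≃ₐ[RatFunc F] Ω) → Pts E Ω, InSha E c → ∀ n : ℕ,
      IsCoboundary E (2 ^ n • c) → IsCoboundary E c := by
  subst hE
  classical
  have hpp : p.Prime := Fact.out
  obtain ⟨k, hk⟩ : Odd (p ^ f) := (hpp.odd_of_ne_two hp).pow
  have h3 : 3 ≤ p ^ f := by
    have : 3 ≤ p := by
      have := hpp.two_le
      omega
    exact this.trans (Nat.le_self_pow hf.ne' p)
  obtain ⟨k, rfl⟩ : ∃ j, k = j + 1 := ⟨k - 1, by omega⟩
  have hd : p ^ f + 1 = 2 * (k + 2) := by omega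
  set ι := algebraMap F[X] (RatFunc F) with hι
  have hi : Function.Injective ι := IsFractionRing.injective F[X] (RatFunc F)
  have h2F : (2 : F) ≠ 0 := by
    intro H
    have : (p : ℕ) ∣ 2 := (CharP.cast_eq_zero_iff F p 2).1 (by exact_mod_cast H)
    exact hp ((Nat.prime_dvd_prime_iff_eq hpp Nat.prime_two).1 this)
  have hgu : ¬ IsUnit g := fun H => by
    have := natDegree_eq_zero_of_isUnit H
    omega
  have hgne : g ≠ 0 := by rintro rfl; simp at hdeg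
  have hnd : ∀ (c : F) (q : F[X]), c ≠ 0 → C c + g * q ≠ 0 := by
    intro c q hc H
    refine hgu (isUnit_of_dvd_unit ⟨-q, ?_⟩ (isUnit_C.2 hc.isUnit))
    linear_combination H
  have hg0 : ι g ≠ 0 := by simpa [hι] using hgne
  have hnd' : ∀ (c : F) (q : F[X]), c ≠ 0 → ι (C c) + ι g * ι q ≠ 0 := by
    intro c q hc
    rw [← map_mul, ← map_add]
    exact (map_ne_zero_iff ι hi).2 (hnd c q hc)
  have h2K : (2 : RatFunc F) ≠ 0 := by
    have := hnd' 2 0 h2F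
    simpa [map_ofNat] using this
  have hS : Spl (⟨0, 1 + t, 0, t, 0⟩ : WeierstrassCurve (RatFunc F)).toAffine 0 (-1) (-t) := by
    refine ⟨rfl, rfl, by simp; ring, by simp, by simp, by simp, ?_, ?_, h2K⟩
    · rw [ht]; simpa using hg0
    · intro H
      apply hnd' 1 (-g ^ (p ^ f)) one_ne_zero
      rw [ht] at H
      simp only [map_one, map_neg, map_pow]
      linear_combination -H
  set S := nthRootsFinset (p ^ f + 1) (1 : F) with hSdef
  have hmem : ∀ ζ, ζ ∈ S ↔ ζ ^ (p ^ f + 1) = 1 := fun ζ => mem_nthRootsFinset (by omega) 1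
  have hne : ∀ ζ ∈ S, ζ ≠ 0 := by
    rintro ζ hζ rfl
    simpa using (hmem 0).1 hζ
  have hneg : ∀ ζ ∈ S, (-ζ) ^ (p ^ f + 1) = 1 := fun ζ hζ => by
    rw [Even.neg_pow ⟨k + 2, by omega⟩, (hmem ζ).1 hζ]
  have hsq : ∀ ζ ∈ S, ζ ≠ 0 ∧ IsSquare (-ζ) := fun ζ hζ =>
    ⟨hne ζ hζ, root_isSquare hp hf hζ₀ (hneg ζ hζ)⟩
  have : CharP (RatFunc F) p := inferInstance
  let x : S → RatFunc F := fun ζ => ι (C (-ζ.1)⁻¹) * ι g
  let y : S → RatFunc F := fun ζ => x ζ * (x ζ + 1) ^ (k + 2)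
  have hx0 : ∀ ζ, x ζ ≠ 0 := fun ζ =>
    mul_ne_zero (by simpa [hι] using hne ζ.1 ζ.2) hg0
  have hx1 : ∀ ζ, x ζ + 1 ≠ 0 := fun ζ => by
    have := hnd' 1 (C (-ζ.1)⁻¹) one_ne_zero
    rw [map_one, map_one] at this
    intro H
    apply this
    rw [← H]; ring
  have hxd : ∀ ζ, x ζ ^ (p ^ f + 1) = t := fun ζ => by
    rw [mul_pow, ← map_pow, ← map_pow, inv_pow, hneg ζ.1 ζ.2, ht]; simp
  have hm1 : (-1 : F) ∈ S := (hmem _).2 (by rw [Even.neg_pow ⟨k + 2, by omega⟩, one_pow])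
  have hxm : x ⟨-1, hm1⟩ = ι g := by simp [x]
  apply sha_of_descent
  refine descent hS x y (fun ζ => mul_ne_zero (hx0 ζ) (pow_ne_zero _ (hx1 ζ))) (fun ζ => ?_)
    ⟨-1, hm1⟩ ?_ ?_ ?_ ?_
  · have e1 : (x ζ + 1) ^ (p ^ f) = x ζ ^ (p ^ f) + 1 := by rw [add_pow_char_pow, one_pow]
    have e2 : (x ζ + 1) ^ (2 * (k + 2)) = (x ζ ^ (p ^ f) + 1) * (x ζ + 1) := by
      rw [← hd, pow_succ, e1]
    rw [← hxd ζ]
    simp only [y]
    linear_combination (x ζ) ^ 2 * e2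
  · rw [hxm, ht, hd]
    intro H
    apply mul_ne_zero (pow_ne_zero 2 hg0) (hnd' 1 (-g ^ (2 * k + 1)) one_ne_zero)
    simp only [map_one, map_neg, map_pow]
    linear_combination H
  · rw [hxm, ht, hd]
    intro H
    apply mul_ne_zero hg0 (hnd' 2 (1 + g ^ (2 * k + 2)) h2F)
    simp only [map_one, map_add, map_pow, map_ofNat]
    linear_combination H
  · rw [hxm, ht, hd]
    intro H
    apply mul_ne_zero (pow_ne_zero 2 hg0) (hnd' 1 (g ^ (2 * k + 1) * (2 * g + 1)) one_ne_zero)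
    simp only [map_one, map_add, map_mul, map_pow, map_ofNat]
    linear_combination H
  · intro b1 b2 b3 hb1 hb2 _ hw H
    rw [ht, hd] at H
    rw [hd] at hU hW
    obtain ⟨A, hA, hA1, hA2⟩ := selmer2 g hdeg hinf (k + 2) (by omega)
      (hsq 1 ((hmem 1).2 (one_pow _))).2 hU hW b1 b2 b3 hb1 hb2 hw H
    have hAS : A ⊆ S := fun ζ hζ => (hmem ζ).2 (hd ▸ hA ζ hζ)
    have hsq' : IsSquare (∏ ζ ∈ A, ι (C (-ζ)⁻¹)) :=
      Finset.prod_induction _ _ (fun a b => IsSquare.mul) IsSquare.one fun ζ hζ =>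
        ((hsq ζ (hAS hζ)).2.inv.map C).map ι
    refine ⟨A.subtype (· ∈ S), ?_, ?_⟩
    · have := Finset.prod_subtype_of_mem (fun ζ : F => ι (C (-ζ)⁻¹) * ι g - 0) (s := A)
        (p := (· ∈ S)) (fun ζ hζ => hAS hζ)
      rw [show ∏ j ∈ A.subtype (· ∈ S), (x j - 0) = _ from this]
      simp only [sub_zero]
      rw [Finset.prod_mul_distrib, Finset.prod_const, mul_left_comm]
      exact hsq'.mul hA1
    · have := Finset.prod_subtype_of_mem (fun ζ : F => ι (C (-ζ)⁻¹) * ι g - (-1)) (s := A)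
        (p := (· ∈ S)) (fun ζ hζ => hAS hζ)
      rw [show ∏ j ∈ A.subtype (· ∈ S), (x j - (-1)) = _ from this,
        Finset.prod_congr rfl (g := fun ζ => ι (C (-ζ)⁻¹) * ι (g - C ζ)) (fun ζ hζ => by
          have h0 := hne ζ (hAS hζ)
          have : ι (C (-ζ)⁻¹) * ι (C ζ) = -1 := by
            rw [← map_mul, ← map_mul, inv_neg, neg_mul, inv_mul_cancel₀ h0]; simp
          rw [map_sub, mul_sub, this]),
        Finset.prod_mul_distrib, mul_left_comm]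
      exact hsq'.mul hA2

/-- The residue conditions hold when `g` has odd degree and `g`, `g - ζ` are irreducible. -/
theorem redei_of_irreducible {p : ℕ} [Fact p.Prime] [CharP F p] (hp : p ≠ 2)
    {f : ℕ} (hf : 0 < f) {ζ₀ : F} (hζ₀ : IsPrimitiveRoot ζ₀ (p ^ f + 1))
    (g : F[X]) (hodd : Odd g.natDegree) (hg : Irreducible g)
    (hgζ : ∀ ζ : F, ζ ^ (p ^ f + 1) = 1 → Irreducible (g - C ζ)) :
    (∀ a : F[X], Squarefree a → a ∣ g →
      (∀ h : F[X], Irreducible h → h ∣ g ^ (p ^ f + 1) - 1 → ∃ r, h ∣ a - r ^ 2) →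
      IsSquare a ∨ IsSquare (a * g)) ∧
    (∀ a : F[X], Squarefree a → a ∣ g ^ (p ^ f + 1) - 1 →
      (∀ h : F[X], Irreducible h → h ∣ g → ∃ r, h ∣ a - r ^ 2) →
      ∃ A : Finset F, (∀ ζ ∈ A, ζ ^ (p ^ f + 1) = 1) ∧ IsSquare (a * ∏ ζ ∈ A, (g - C ζ))) := by
  classical
  have hpp : p.Prime := Fact.out
  obtain ⟨k, hk⟩ : Odd (p ^ f) := (hpp.odd_of_ne_two hp).pow
  set ι := algebraMap F[X] (RatFunc F) with hι
  have cs : ∀ {π : F[X]} (_ : Irreducible π) (_ : Odd π.natDegree) {c : F} (_ : c ≠ 0) {r s : F[X]},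
      ¬ π ∣ s → π ∣ C c * s ^ 2 - r ^ 2 → IsSquare c := by
    intro π hπ ho c hc r s hs hd
    have h1 : ι s ≠ 0 := by
      intro H
      apply hs
      rw [(map_eq_zero_iff _ (IsFractionRing.injective F[X] (RatFunc F))).1 H]
      exact dvd_zero _
    refine const_square hπ ho (k := ι r / ι s) ?_
    unfold VA
    have h2 := (nu_lt_one_iff hπ _).2 hd
    rw [(nu_eq_one_iff hπ _).2 (fun hd => hπ.not_isUnit
      (isUnit_of_dvd_unit hd (isUnit_C.2 hc.isUnit))),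
      show ι (C c) - (ι r / ι s) ^ 2 = ι (C c * s ^ 2 - r ^ 2) / ι s ^ 2 by
        rw [map_sub, map_mul, map_pow, map_pow]; field_simp,
      map_div₀, map_pow, (nu_eq_one_iff hπ _).2 hs, one_pow, div_one]
    exact h2
  set S := nthRootsFinset (p ^ f + 1) (1 : F) with hSdef
  have hmem : ∀ ζ, ζ ∈ S ↔ ζ ^ (p ^ f + 1) = 1 := fun ζ => mem_nthRootsFinset (by omega) 1
  have hprod : g ^ (p ^ f + 1) - 1 = ∏ ζ ∈ S, (g - C ζ) := by
    have := congrArg (fun q => q.comp g) (X_pow_sub_one_eq_prod (by omega) hζ₀)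
    simpa [Polynomial.prod_comp, hSdef] using this
  constructor
  · intro a _ hag H
    have hπ := hgζ 1 (one_pow _)
    obtain ⟨r, hr⟩ := H _ hπ (hprod ▸ Finset.dvd_prod_of_mem _ ((hmem 1).2 (one_pow _)))
    have ho : Odd (g - C 1).natDegree := by rw [natDegree_sub_C]; exact hodd
    have h1 : ¬ g - C 1 ∣ 1 := fun H => hπ.not_isUnit (isUnit_of_dvd_one H)
    obtain ⟨B, -, hB⟩ := dvd_prime_prod ({()} : Finset Unit) (fun _ => g) (fun _ _ => hg.prime) a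
      (by simpa using hag)
    rw [Finset.prod_const] at hB
    obtain ⟨c, hc, rfl⟩ := assoc_const hB
    have h2 : g - C 1 ∣ C c * 1 ^ 2 - r ^ 2 := by
      have h3 : g - C 1 ∣ C c * (g ^ B.card - 1 ^ B.card) :=
        Dvd.dvd.mul_left (by simpa using sub_dvd_pow_sub_pow g 1 B.card) _
      have := hr.sub h3
      convert this using 1
      simp; ring
    obtain ⟨s, rfl⟩ := cs hπ ho hc h1 h2
    rcases Nat.even_or_odd B.card with ⟨e, he⟩ | ⟨e, he⟩
    · exact Or.inl ⟨C s * g ^ e, by rw [he, C_mul]; ring⟩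
    · exact Or.inr ⟨C s * g ^ (e + 1), by rw [he, C_mul]; ring⟩
  · intro a _ hag H
    obtain ⟨r, hr⟩ := H _ hg dvd_rfl
    rw [hprod] at hag
    obtain ⟨A, hAS, hA⟩ := dvd_prime_prod _ _ (fun ζ hζ => (hgζ ζ ((hmem ζ).1 hζ)).prime) a hag
    obtain ⟨c, hc, rfl⟩ := assoc_const hA
    have hsq : ∀ ζ ∈ A, ∃ s, s ≠ 0 ∧ -ζ = s * s := by
      intro ζ hζ
      have h1 := (hmem ζ).1 (hAS hζ)
      obtain ⟨s, hs⟩ := root_isSquare hp hf hζ₀ (ζ := -ζ)
        (by rw [Even.neg_pow ⟨k + 1, by omega⟩, h1])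
      refine ⟨s, ?_, hs⟩
      rintro rfl
      rw [mul_zero, neg_eq_zero] at hs
      simp [hs] at h1
    choose! s hs0 hs using hsq
    have h1 : ¬ g ∣ C (∏ ζ ∈ A, s ζ) := fun H => hg.not_isUnit (isUnit_of_dvd_unit H
      (isUnit_C.2 (Finset.prod_ne_zero_iff.2 hs0).isUnit))
    have h2 : g ∣ C c * C (∏ ζ ∈ A, s ζ) ^ 2 - r ^ 2 := by
      have h3 : g ∣ ∏ ζ ∈ A, (g - C ζ) - ∏ ζ ∈ A, C (s ζ) ^ 2 := by
        rw [← Ideal.mem_span_singleton, ← Ideal.Quotient.eq, map_prod, map_prod]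
        refine Finset.prod_congr rfl fun ζ hζ => ?_
        rw [Ideal.Quotient.eq, Ideal.mem_span_singleton, ← map_pow, sq, ← hs ζ hζ]
        simp
      have := hr.sub (h3.mul_left (C c))
      convert this using 1
      rw [map_prod, Finset.prod_pow]; ring
    obtain ⟨e, rfl⟩ := cs hg hodd hc h1 h2
    exact ⟨A, fun ζ hζ => (hmem ζ).1 (hAS hζ), ⟨C e * ∏ ζ ∈ A, (g - C ζ), by rw [C_mul]; ring⟩⟩

end Pool.Agent.ShaFF
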