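import Pool.Agent.Work.MP_60d5ce_nt.Legendre

/-!
# Non-vacuity: polynomials `g` of unbounded odd degree satisfying the hypotheses

If `l` is an odd prime dividing `q - 1` and `(d + 1) * (1 + (q - 1) / l) < q`, then some
`a ∈ F` makes `g = X^(l^n) + a` and all `g - ζ` (`ζ^d = 1`) irreducible for every `n`.
-/

namespace Pool.Agent.ShaFF

open Polynomial

theorem card_pow_image_le {F : Type} [Field F] [Fintype F] [DecidableEq F] {l : ℕ} (hl : 0 < l)
    (hdiv : l ∣ Fintype.card F - 1) :
    (Finset.univ.image fun b : F => b ^ l).card ≤ 1 + (Fintype.card F - 1) / l := by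
  obtain ⟨k, hk⟩ := hdiv
  have hq : 1 < Fintype.card F := Fintype.one_lt_card
  have hk0 : 0 < k := by
    rcases Nat.eq_zero_or_pos k with rfl | h
    · omega
    · exact h
  have hsub : (Finset.univ.image fun b : F => b ^ l) ⊆ insert 0 (nthRootsFinset k (1 : F)) := by
    intro x hx
    obtain ⟨b, -, rfl⟩ := Finset.mem_image.1 hx
    by_cases hb : b = 0
    · simp [hb, hl.ne']
    · refine Finset.mem_insert_of_mem ((mem_nthRootsFinset hk0 1).2 ?_)
      rw [← pow_mul, ← hk]
      exact FiniteField.pow_card_sub_one_eq_one b hb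
  refine (Finset.card_le_card hsub).trans ((Finset.card_insert_le _ _).trans ?_)
  have : (nthRootsFinset k (1 : F)).card ≤ k := by
    rw [nthRootsFinset_def]
    exact (Multiset.toFinset_card_le _).trans (card_nthRoots k 1)
  rw [hk, Nat.mul_div_cancel_left _ hl]
  omega

theorem exists_family {F : Type} [Field F] [Fintype F] {l d : ℕ} (hl : l.Prime) (hl2 : l ≠ 2)
    (hd : 0 < d) (hdiv : l ∣ Fintype.card F - 1)
    (hq : (d + 1) * (1 + (Fintype.card F - 1) / l) < Fintype.card F) :
    ∃ a : F, ∀ n : ℕ, Odd (X ^ l ^ n + C a : F[X]).natDegree ∧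
      (X ^ l ^ n + C a : F[X]).natDegree = l ^ n ∧ Irreducible (X ^ l ^ n + C a : F[X]) ∧
      ∀ ζ : F, ζ ^ d = 1 → Irreducible (X ^ l ^ n + C a - C ζ : F[X]) := by
  classical
  set P := Finset.univ.image fun b : F => b ^ l with hP
  set T := insert 0 (nthRootsFinset d (1 : F)) with hT
  have hTc : T.card ≤ d + 1 := by
    refine (Finset.card_insert_le _ _).trans (Nat.succ_le_succ ?_)
    rw [nthRootsFinset_def]
    exact (Multiset.toFinset_card_le _).trans (card_nthRoots d 1)
  have hPc := card_pow_image_le hl.pos hdiv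
  have hbad : (Finset.image₂ (fun s c : F => s - c) T P).card < (Finset.univ : Finset F).card :=
    (Finset.card_image₂_le _ _ _).trans_lt ((Nat.mul_le_mul hTc hPc).trans_lt hq)
  obtain ⟨a, -, ha⟩ := Finset.exists_mem_notMem_of_card_lt_card hbad
  have key : ∀ s ∈ T, ∀ n, Irreducible (X ^ l ^ n - C (s - a) : F[X]) := by
    intro s hs n
    refine X_pow_sub_C_irreducible_of_prime_pow hl hl2 n fun b hb => ha ?_
    exact Finset.mem_image₂.2 ⟨s, hs, b ^ l, Finset.mem_image_of_mem _ (Finset.mem_univ b),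
      by rw [hb]; ring⟩
  refine ⟨a, fun n => ?_⟩
  have hdeg : (X ^ l ^ n + C a : F[X]).natDegree = l ^ n := natDegree_X_pow_add_C
  refine ⟨by rw [hdeg]; exact (hl.odd_of_ne_two hl2).pow, hdeg, ?_, fun ζ hζ => ?_⟩
  · have := key 0 (Finset.mem_insert_self _ _) n
    simpa using this
  · have := key ζ (Finset.mem_insert_of_mem ((mem_nthRootsFinset hd 1).2 hζ)) n
    rw [C_sub] at this
    convert this using 1
    ring

end Pool.Agent.ShaFF
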