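import Pool.Agent.Work.MP_60d5ce_nt.H9Layer

/-!
The character sums of small weight are divisible by more than `q ^ n`.
-/

namespace Pool.Agent.Work.MP_60d5ce_nt

open Finset Pool.Agent.Lib.Dwork Polynomial Filter Topology

theorem rs_mul {N m D c : ℕ} (hN : N = m * D) (h0 : 0 < N) (h : m ∣ c → c = 0) :
    rs N (c * D) = c % m * D := by
  have hD : 0 < D := Nat.pos_of_mul_pos_left (hN ▸ h0)
  by_cases e : m ∣ c
  · simp [h e, rs_zero]
  · rw [rs_of_not_dvd fun e' => e (Nat.dvd_of_mul_dvd_mul_right hD (hN ▸ e')), hN,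
      Nat.mul_mod_mul_right]

theorem pow_mul_mod {p f m m' : ℕ} (h : p ^ f = m * m' + 1) (r j c : ℕ) :
    p ^ (f * r + j) * c % m = p ^ j * c % m := by
  rw [pow_add, pow_mul, h, mul_assoc, ← Nat.mod_mul_mod, Nat.pow_mod, Nat.mul_add_mod,
    ← Nat.pow_mod, one_pow, Nat.mod_mul_mod, one_mul]

theorem card_eq_mul {q m m' : ℕ} (h : q = m * m' + 1) (n : ℕ) :
    q ^ n = m * (m' * ∑ j ∈ range n, q ^ j) + 1 := by
  have := geom_sum_mul_add (m * m') n
  rw [← h] at this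
  rw [← this]
  ring

variable {F : Type} [Field F] (T : Tower F) {p : ℕ} [hp : Fact p.Prime]

open Classical in
theorem decay {E : ℕ → Type} [∀ n, Field (E n)] [∀ n, Fintype (E n)] [∀ n, CharP (E n) p]
    [∀ n, Algebra F (E n)] {q f m' d' e D₀ k l : ℕ} (hE : ∀ n, Fintype.card (E n) = q ^ (n + 1))
    (hq : q = p ^ f) (hf : f ≠ 0) (hm : q = T.m * m' + 1) (hd : q = T.d * d' + 1) (hc : T.c ≠ 0)
    {ω : ∀ n, E n →*₀ ℂ_[p]} {Ψ : ∀ n, AddChar (E n) ℂ_[p]} (hω : ∀ n, Std p (ω n) (Ψ n))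
    (he : 0 < e) (hD₀ : 0 < D₀) (hg : ∀ i, (T.g i).natDegree ≤ e)
    (hφ : ∀ i, (T.φ i).natDegree ≤ D₀) (ha : ∀ i, ¬ T.m ∣ k * T.a i) (hb : ∀ i, ¬ T.m ∣ k * T.b i)
    (hk : ¬ T.m ∣ k) (hl : T.d ∣ l → l = 0)
    (hA : ∀ j, ∑ i, p ^ j * k * T.a i % T.m + D₀ * ∑ i, p ^ j * k * T.b i % T.m < T.m)
    (hH : ∀ l', ∃ j, D₀ * (T.c * T.d * (T.h.natDegree * (p ^ j * k % T.m) +
      e * (∑ i, p ^ j * k * T.a i % T.m + ∑ i, p ^ j * k * T.b i % T.m)) +
      T.c * T.m * T.κ.natDegree * (p ^ j * l % T.d) +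
      T.m * T.d * T.ν.natDegree * (p ^ j * l' % T.c)) < T.m * T.d * T.c) :
    Tendsto (fun n => (∑ v : Fin (T.N + 3) → E n, ∑ x : E n, if T.Layer p T.N v then
      ω n (T.f (v 0) x) ^ (k * (m' * ∑ j ∈ range (n + 1), q ^ j)) *
      ω n (aeval (v 0) T.κ) ^ (l * (d' * ∑ j ∈ range (n + 1), q ^ j)) else 0) *
      (q : ℂ_[p])⁻¹ ^ (n + 1)) atTop (𝓝 0) := by
  obtain ⟨hp0, hp1⟩ := (hω 0).norm_p
  refine tendsto_zero_iff_norm_tendsto_zero.2 (tendsto_order.2 ⟨fun a h =>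
    .of_forall fun n => h.trans_le (norm_nonneg _), fun a ha0 => ?_⟩)
  obtain ⟨k₀, hk₀⟩ := exists_pow_lt_of_lt_one ha0 hp1
  obtain ⟨c', k', h1⟩ := layer_sp T p ℂ_[p] T.N 0 k₀
  choose J hJ using hH
  set J₀ := (range T.c).sup J + 1
  set R := (T.m * T.d * D₀ * (T.c + T.ν.natDegree) + p) * c' + k'
  filter_upwards [eventually_ge_atTop (J₀ * R)] with n hn
  refine lt_of_le_of_lt ?_ hk₀
  have hs : Fintype.card (E n) = p ^ (f * (n + 1)) := by rw [hE, hq, pow_mul]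
  have e1 := card_eq_mul hm (n + 1)
  have e2 := card_eq_mul hd (n + 1)
  generalize m' * ∑ j ∈ range (n + 1), q ^ j = D at *
  generalize d' * ∑ j ∈ range (n + 1), q ^ j = D' at *
  have e0 : (q : ℂ_[p]) ^ (n + 1) = p ^ (f * (n + 1)) := by rw [hq, pow_mul, Nat.cast_pow]
  rw [← hE, hs] at e1 e2
  rw [inv_pow, e0]
  have hN := pred_pos hs
  have hs0 : f * (n + 1) ≠ 0 := by positivity
  have hR : f * J₀ * R ≤ f * (n + 1) := by
    rw [mul_assoc]
    exact Nat.mul_le_mul_left _ (by omega)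
  generalize f * (n + 1) = s at *
  have e3 : p ^ s - 1 = T.m * D := by omega
  have e4 : p ^ s - 1 = T.d * D' := by omega
  have hD : 0 < D := Nat.pos_of_mul_pos_left (e3 ▸ hN)
  have r1 : ∀ j c, ¬ T.m ∣ c → rs (p ^ s - 1) (p ^ j * (c * D)) = p ^ j * c % T.m * D :=
    fun j c h => by
      rw [← mul_assoc, rs_mul e3 hN fun e => absurd e (not_dvd_pow_mul ⟨D, e3⟩ hs0 h j)]
  have r2 : ∀ j, rs (p ^ s - 1) (p ^ j * (l * D')) = p ^ j * l % T.d * D' := fun j => by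
    rw [← mul_assoc, rs_mul e4 hN fun e => ?_]
    rw [hl (by_contra fun h => not_dvd_pow_mul ⟨D', e4⟩ hs0 h j e), mul_zero]
  have h0 := (ex_vert (hω n) hs hD₀ (T.κ.map (algebraMap F _)) natDegree_map_le (l * D')).mul
    ((Ex.prod univ fun i => ex_lin (hω n) hs he hD₀ ((T.g i).map (algebraMap F _))
      (natDegree_map_le.trans (hg i)) (k * T.a i * D)).mul
    (Ex.prod univ fun i => ex_lin' (hω n) hs he hD₀ ((T.φ i).map (algebraMap F _))
      (natDegree_map_le.trans (hφ i)) (k * T.b i * D)))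
  generalize hA₀ : (0 : ℕ → ℕ) + _ = A at h0
  have hA' : ∀ j < s, A j < p ^ s - 1 := fun j _ => by
    simp only [← hA₀, Pi.add_apply, Finset.sum_apply, zero_add, r1 _ _ (ha _),
      r1 _ _ (hb _), ← mul_sum, ← sum_mul]
    simp only [← mul_assoc]
    rw [e3, ← add_mul]
    exact Nat.mul_lt_mul_of_pos_right (hA j) hD
  have h2 := sp_base (hω n) hs (T.h.map (algebraMap F _)) (T.ν.map (algebraMap F _))
    (M := T.m * T.d) h0 hD₀ natDegree_map_le natDegree_map_le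
    (β := k * D) (mul_ne_zero (fun e => hk (e ▸ dvd_zero _)) hD.ne') hc hA' (fun j => ?_)
    (fun r l' hl' => ⟨J l', ?_, ?_⟩) hR le_rfl
  · have h4 := h0.norm_fibre (hω n) hs hA'
    generalize hψ : ((fun v => _) * _ : E n × E n → ℂ_[p]) = ψ at h2 h4
    simp only [eval_map_algebraMap] at h2
    have h3 := h1 (E n) (ω n) (Ψ n) s (hω n) hs (fun t => ((p : ℂ_[p]) ^ s)⁻¹ *
      ∑ x, ω n (aeval t T.h) ^ (k * D) * ψ (x, t)) (fun t => ?_) (by convert h2; rfl) 0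
        (by simp [wt_zero])
    · refine le_of_eq_of_le (congrArg _ ?_) h3
      rw [sum_mul]
      refine sum_congr rfl fun v _ => ?_
      simp only [Pi.zero_apply, pow_zero, prod_const_one, mul_one]
      split_ifs
      · simp only [← hψ, Tower.f, Pi.mul_apply, Finset.prod_apply, eval_map_algebraMap, map_mul,
          map_prod, map_pow, mul_pow, ← prod_pow, ← pow_mul, mul_comm _⁻¹, mul_left_comm _ k,
          mul_assoc, mul_comm (ω n (aeval (v 0) T.κ) ^ _)]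
      · simp
    · rw [← mul_sum, norm_mul, norm_inv, norm_pow, inv_mul_le_iff₀ (by positivity), mul_one,
        norm_mul]
      exact (mul_le_of_le_one_left (norm_nonneg _) (norm_pow_le _ _ _)).trans (h4 t)
  · have h3 : 0 < p ^ j * k % T.m :=
      Nat.pos_of_ne_zero fun e => not_dvd_pow_mul ⟨D, e3⟩ hs0 hk j (Nat.dvd_of_mod_eq_zero e)
    have h4 : 0 < T.d := Nat.pos_of_mul_pos_right (e4 ▸ hN)
    rw [r1 _ _ hk, e3, mul_assoc]
    exact Nat.mul_le_mul_left _ ((Nat.le_mul_of_pos_left _ h3).trans (Nat.le_mul_of_pos_left _ h4))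
  · have := le_sup (f := J) (mem_range.2 hl')
    exact lt_of_lt_of_le (by omega) (Nat.le_mul_of_pos_left J₀ (Nat.pos_of_ne_zero hf))
  · simp only [Pi.add_apply, Finset.sum_apply, r1 _ _ (ha _), r1 _ _ (hb _), r1 _ _ hk, r2,
      pow_mul_mod (hq ▸ hm), pow_mul_mod (hq ▸ hd), ← sum_mul, mul_assoc f, ← mul_sum]
    have h3 := Nat.mul_le_mul_right (p ^ s - 1) (Nat.succ_le_of_lt (hJ l'))
    simp only [← mul_assoc] at h3 ⊢
    have h4 := congrArg (D₀ * (T.c * T.d * (T.h.natDegree * (p ^ J l' * k % T.m) +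
      e * (∑ i, p ^ J l' * k * T.a i % T.m + ∑ i, p ^ J l' * k * T.b i % T.m))) * ·) e3
    have h5 := congrArg (D₀ * (T.c * T.m * T.κ.natDegree * (p ^ J l' * l % T.d)) * ·) e4
    simp only [Nat.succ_eq_add_one] at *
    linarith

end Pool.Agent.Work.MP_60d5ce_nt
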