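import Mathlib

/-!
Superelliptic curves over towers of function fields and their `L`-series.
-/

namespace Pool.Agent.Work.MP_60d5ce_nt

open Polynomial

/-- The curve `y ^ m = h(t) * ∏ i, (x - g i (t)) ^ a i * ∏ i, (t - φ i (x)) ^ b i` over `F(t)`, and
the extension of `F(t)` obtained by adjoining `s` with `s ^ c = ν`, then `σ 0, …, σ (N - 1)` with
`σ i ^ p - σ i = μ i (t, 1 / h, s, σ 0, …, σ (i - 1))`, and `r` with `r ^ d = κ`. The places above
the zeros of `h * δ` and above infinity are left out of the `L`-series. -/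
structure Tower (F : Type) [Field F] where
  (m n n' c d N : ℕ)
  (a : Fin n → ℕ)
  (g : Fin n → F[X])
  (b : Fin n' → ℕ)
  (φ : Fin n' → F[X])
  (h ν κ δ : F[X])
  (μ : (i : ℕ) → MvPolynomial (Fin (i + 3)) F)

variable {F : Type} [Field F] (T : Tower F) (p : ℕ) {E : Type} [Field E] [Algebra F E]

/-- The points `(t, 1 / h, s, σ 0, …, σ (i - 1))` of the `i`-th layer of the Artin-Schreier
tower. -/
def Tower.Layer : (i : ℕ) → (Fin (i + 3) → E) → Prop
  | 0, v => v 1 * aeval (v 0) T.h = 1 ∧ v 2 ^ T.c = aeval (v 0) T.ν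
  | i + 1, v => Layer i (Fin.init v) ∧
      v (Fin.last _) ^ p - v (Fin.last _) = MvPolynomial.aeval (Fin.init v) (T.μ i)

/-- The right-hand side of the equation of the curve. -/
noncomputable def Tower.f {R : Type} [CommRing R] [Algebra F R] (t x : R) : R :=
  aeval t T.h * ((∏ i, (x - aeval t (T.g i)) ^ T.a i) * ∏ i, (t - aeval x (T.φ i)) ^ T.b i)

/-- The number of affine points `(x, y)` of the fibre above `t`. -/
noncomputable def Tower.fibre (t : E) : ℕ := Nat.card {z : E × E // z.2 ^ T.m = T.f t z.1}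

variable (E) in
/-- The sum of the traces of Frobenius `#E - #fibre` over the points of the base curve. -/
noncomputable def Tower.trace : ℤ :=
  ∑ᶠ P : {P : (Fin (T.N + 3) → E) × E //
      T.Layer p T.N P.1 ∧ P.2 ^ T.d = aeval (P.1 0) T.κ ∧ aeval (P.1 0) T.δ ≠ 0},
    ((Nat.card E : ℤ) - T.fibre (P.1.1 0))

/-- The `L`-series `exp (∑ trace (F_{q ^ n}) X ^ n / n)`, the sum over `n ≥ 1`. -/
noncomputable def Tower.L [Fact p.Prime] [Finite F] [CharP F p] : PowerSeries ℚ :=
  (PowerSeries.exp ℚ).subst (PowerSeries.X * PowerSeries.mk fun n =>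
    (T.trace p (FiniteField.Extension F p (n + 1)) : ℚ) / (n + 1) : PowerSeries ℚ)

end Pool.Agent.Work.MP_60d5ce_nt
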