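import Mathlib

/-!
Pencils of superelliptic curves and their `L`-series.
-/

namespace Pool.Agent.Work.MP_60d5ce_nt

open Polynomial

/-- The curve `y ^ m = h(w) * ∏ i, (x - g i (w)) ^ a i * ∏ i, (w - φ i (x)) ^ b i` with
`x = u * c(w) + G(w)` over `F(u)`. The places above the zeros of `δ (u)` and above infinity are left
out of the `L`-series. -/
structure Pencil (F : Type) [Field F] where
  (m n n' : ℕ)
  (a : Fin n → ℕ)
  (g : Fin n → F[X])
  (b : Fin n' → ℕ)
  (φ : Fin n' → F[X])
  (h c G δ : F[X])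

variable {F : Type} [Field F] (P : Pencil F)

/-- The right-hand side of the equation of the curve. -/
noncomputable def Pencil.Φ {R : Type} [CommRing R] [Algebra F R] (u w : R) : R :=
  aeval w P.h * ((∏ i, (u * aeval w P.c + aeval w P.G - aeval w (P.g i)) ^ P.a i) *
    ∏ i, (w - aeval (u * aeval w P.c + aeval w P.G) (P.φ i)) ^ P.b i)

/-- The sum of the traces of Frobenius `#E - #fibre` over the points of the base. -/
noncomputable def Pencil.trace (E : Type) [Field E] [Algebra F E] : ℤ :=
  ∑ᶠ u : {u : E // aeval u P.δ ≠ 0},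
    ((Nat.card E : ℤ) - Nat.card {z : E × E // z.2 ^ P.m = P.Φ u.1 z.1})

/-- The `L`-series `exp (∑ trace (F_{q ^ n}) X ^ n / n)`, the sum over `n ≥ 1`. -/
noncomputable def Pencil.L (p : ℕ) [Fact p.Prime] [Finite F] [CharP F p] : PowerSeries ℚ :=
  (PowerSeries.exp ℚ).subst (PowerSeries.X * PowerSeries.mk fun n =>
    (P.trace (FiniteField.Extension F p (n + 1)) : ℚ) / (n + 1) : PowerSeries ℚ)

/-- The weight in `x` of the `k`-th power of a character of order `m`. -/
noncomputable def Pencil.A (D k : ℕ) : ℚ :=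
  ∑ i, Int.fract ((k : ℚ) * P.a i / P.m) + D * ∑ i, Int.fract ((k : ℚ) * P.b i / P.m)

/-- The total weight of the `k`-th power of a character of order `m`. -/
noncomputable def Pencil.W (e D k : ℕ) : ℚ :=
  D * (e * (∑ i, Int.fract ((k : ℚ) * P.a i / P.m) + ∑ i, Int.fract ((k : ℚ) * P.b i / P.m)) +
    P.h.natDegree * Int.fract ((k : ℚ) / P.m))

end Pool.Agent.Work.MP_60d5ce_nt
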