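import Pool.Agent.Work.MP_60d5ce_nt.H9Main
import Pool.Agent.Work.MP_60d5ce_nt.H9PDefs

/-!
Degrees of the equation of a pencil.
-/

namespace Pool.Agent.Work.MP_60d5ce_nt

open Finset Polynomial

variable {F : Type} [Field F] (P : Pencil F) {R : Type} [CommRing R] [Algebra F R]

/-- The surface that carries the pencil. -/
noncomputable def Pencil.tower : Tower F :=
  ⟨P.m, P.n, P.n', 1, 1, 0, P.a, P.g, P.b, P.φ, P.h, 1, 1, 1, fun _ => 0⟩

theorem Φ_eq (u w : R) : P.Φ u w = P.tower.f w (u * aeval w P.c + aeval w P.G) := rfl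

theorem Φ_map {S : Type} [CommRing S] [Algebra F S] (ψ : R →ₐ[F] S) (u w : R) :
    ψ (P.Φ u w) = P.Φ (ψ u) (ψ w) := by
  simp only [Φ_eq, f_map, map_add, map_mul, aeval_algHom_apply]

theorem Φ_zero {w : R} (h : aeval w P.c = 0) (u : R) : P.Φ u w = P.Φ 0 w := by
  simp only [Φ_eq, h, mul_zero]

theorem dvd_Φ : P.c.map C ∣ P.Φ (R := F[X][X]) (C X) X - (P.Φ 0 X : F[X]).map C := by
  have e : ∀ a : F[X], a.map C = mapAlgHom (Algebra.ofId F F[X]) a := fun _ => rfl
  have h := Φ_map P (R := F[X][X]) (S := F[X][X] ⧸ Ideal.span {P.c.map C})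
    (Ideal.Quotient.mkₐ F (Ideal.span {P.c.map C}))
  rw [← Ideal.mem_span_singleton, ← Ideal.Quotient.eq, e (P.Φ _ _), Φ_map]
  refine (h _ _).trans (.trans (Φ_zero P ?_ _) (.trans (by simp) (h _ _).symm))
  refine (aeval_algHom_apply _ _ _).trans (Ideal.Quotient.eq_zero_iff_mem.2 ?_)
  rw [aeval_X_left_eq_map]
  exact Ideal.mem_span_singleton_self _

/-- Degree `d` and invertible leading coefficient. -/
def UD (p : R[X]) (d : ℕ) : Prop := IsUnit p.leadingCoeff ∧ p.natDegree = d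

variable [IsDomain R] {p q : R[X]} {d d' : ℕ}

omit [Algebra F R] in
theorem UD.ne_zero (h : UD p d) : p ≠ 0 := leadingCoeff_ne_zero.1 h.1.ne_zero

omit [Algebra F R] in
theorem UD.mul (h : UD p d) (h' : UD q d') : UD (p * q) (d + d') :=
  ⟨leadingCoeff_mul p q ▸ h.1.mul h'.1, by rw [natDegree_mul h.ne_zero h'.ne_zero, h.2, h'.2]⟩

omit [Algebra F R] in
theorem UD.prod {ι : Type*} (s : Finset ι) {p : ι → R[X]} {d a : ι → ℕ} (h : ∀ i, UD (p i) (d i)) :
    UD (∏ i ∈ s, p i ^ a i) (∑ i ∈ s, a i * d i) := by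
  induction s using Finset.cons_induction with
  | empty => exact ⟨by simp, by simp⟩
  | cons i s hi ih =>
    rw [prod_cons, sum_cons]
    exact UD.mul ⟨leadingCoeff_pow (p i) (a i) ▸ (h i).1.pow _, by rw [natDegree_pow, (h i).2]⟩ ih

omit [Algebra F R] [IsDomain R] in
theorem UD.add (h : UD p d) (h' : q.natDegree < d) : UD (q + p) d :=
  ⟨by rw [leadingCoeff_add_of_degree_lt (degree_lt_degree (h.2 ▸ h'))]; exact h.1,
    (natDegree_add_eq_right_of_natDegree_lt (h.2 ▸ h')).trans h.2⟩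

omit [Algebra F R] [IsDomain R] in
theorem UD.neg (h : UD p d) : UD (-p) d :=
  ⟨by rw [leadingCoeff_neg]; exact h.1.neg, (natDegree_neg p).trans h.2⟩

theorem UD.aeval (h : UD p d) (hd : d ≠ 0) {a : F[X]} (ha : a ≠ 0) :
    UD (aeval p a) (a.natDegree * d) := by
  have e : Polynomial.aeval p a = (a.map (algebraMap F R)).comp p := by
    rw [comp_eq_aeval, aeval_map_algebraMap]
  have hi := (algebraMap F R).injective
  rw [e]
  refine ⟨?_, by rw [natDegree_comp, natDegree_map_eq_of_injective hi, h.2]⟩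
  rw [leadingCoeff_comp (h.2 ▸ hd), leadingCoeff_map_of_injective hi]
  exact ((leadingCoeff_ne_zero.2 ha).isUnit.map _).mul (h.1.pow _)

omit [Algebra F R] in
theorem ud_X : UD (X : R[X]) 1 := ⟨by simp, by simp⟩

omit [IsDomain R] in
theorem natDegree_aeval_X (a : F[X]) : (aeval (X : R[X]) a).natDegree ≤ a.natDegree := by
  rw [aeval_X_left_eq_map]
  exact natDegree_map_le

theorem f_deg (T : Tower F) (hφ : ∀ i, 0 < (T.φ i).natDegree) {t : R} (ht : aeval t T.h ≠ 0) :
    (T.f (C t) X).natDegree = ∑ i, T.a i + ∑ i, T.b i * (T.φ i).natDegree := by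
  have e : ∀ a : F[X], aeval (C t : R[X]) a = C (aeval t a) := fun a =>
    aeval_algHom_apply (CAlgHom (R := F)) t a
  have h := (UD.prod univ (a := T.a) fun i => (ud_X.add (q := -C (aeval t (T.g i))) (by simp))).mul
    (UD.prod univ (a := T.b) fun i => ((ud_X.aeval one_ne_zero (a := T.φ i) fun e => by
      simpa [e] using hφ i).neg.add (q := C t) (by simpa using hφ i)))
  simp only [Tower.f, e]
  rw [natDegree_C_mul ht]
  simpa only [neg_add_eq_sub, ← sub_eq_add_neg, mul_one] using h.2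

theorem Φ_deg (hh : P.h ≠ 0) {e : ℕ} (he : 0 < e) (hg : ∀ i, (P.g i).natDegree ≤ e)
    (hφ : ∀ i, 0 < (P.φ i).natDegree) (hG : e < P.G.natDegree) (hc : P.c.natDegree < P.G.natDegree)
    (u : R) : UD (P.Φ (C u) X)
      (P.h.natDegree + P.G.natDegree * (∑ i, P.a i + ∑ i, P.b i * (P.φ i).natDegree)) := by
  have h1 : UD (C u * aeval X P.c + aeval X P.G) P.G.natDegree := by
    refine UD.add (by simpa using ud_X.aeval one_ne_zero (a := P.G) fun e => by simp [e] at hG) ?_
    exact (natDegree_C_mul_le _ _).trans_lt ((natDegree_aeval_X _).trans_lt hc)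
  have h := (ud_X.aeval one_ne_zero hh).mul ((UD.prod univ (a := P.a) fun i =>
    h1.add (q := -aeval X (P.g i)) (by
      rw [natDegree_neg]; exact ((natDegree_aeval_X _).trans (hg i)).trans_lt hG)).mul
    (UD.prod univ (a := P.b) fun i => (h1.aeval (by omega) (a := P.φ i) fun e => by
      simpa [e] using hφ i).neg.add (q := X) (by
        have := Nat.le_mul_of_pos_left P.G.natDegree (hφ i)
        rw [natDegree_X]
        omega)))
  simp only [neg_add_eq_sub, ← sub_eq_add_neg, mul_one, ← mul_assoc, ← sum_mul, ← add_mul] at h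
  rw [mul_comm P.G.natDegree]
  simpa only [Pencil.Φ, mul_assoc] using h

theorem swap_Φ_deg (hh : P.h ≠ 0) (hc : P.c ≠ 0) (hφ : ∀ i, 0 < (P.φ i).natDegree) :
    (Bivariate.swap (P.Φ (R := F[X][X]) (C X) X)).natDegree =
      ∑ i, P.a i + ∑ i, P.b i * (P.φ i).natDegree := by
  have e : ∀ a : F[X], aeval (C X : F[X][X]) a = C a := fun a => by
    simpa using aeval_algHom_apply (CAlgHom (R := F) (A := F[X])) X a
  have h1 := f_map P.tower ((aeval (R := F[X]) (X * C P.c + C P.G : F[X][X])).restrictScalars F)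
    (C X) X
  have h2 := Φ_map P (Bivariate.swap (R := F)).toAlgHom (C X) X
  simp only [AlgEquiv.toAlgHom_apply, Bivariate.swap_X, Bivariate.swap_Y, Φ_eq, e] at h2
  simp only [AlgHom.coe_restrictScalars', aeval_X, aeval_C, algebraMap_eq] at h1
  rw [Φ_eq, h2, ← h1, ← comp_eq_aeval, natDegree_comp, f_deg P.tower hφ (by simpa), mul_comm X,
    natDegree_linear hc, mul_one]
  rfl

end Pool.Agent.Work.MP_60d5ce_nt
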