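import Pool.Agent.Work.MP_60d5ce_nt.Old.TowerNonvanishing

/-!
The hypothesis of `TowerNonvanishing` holds for `m` prime, `p = 1` modulo `m`, small degrees and
all `d` prime to `m`.
-/

namespace Pool.Agent.Work.MP_60d5ce_nt

theorem fract_le {m a b : ℕ} (h : a ≡ b [MOD m]) : Int.fract ((a : ℚ) / m) ≤ b / m := by
  rw [Int.fract_div_natCast_eq_div_natCast_mod, h]
  gcongr
  exact_mod_cast Nat.mod_le _ _

theorem small_weights (p : ℕ) [Fact p.Prime] (F : Type) [Field F] [Finite F] [CharP F p]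
    (T : Tower F) (e D : ℕ) (hm : T.m.Prime) (hp : p ≡ 1 [MOD T.m]) (hd : T.d ∣ Nat.card F - 1)
    (hdm : T.m.Coprime T.d) (hc : T.c = 1) (hδ : T.δ ≠ 0)
    (ha : ∀ i, 0 < T.a i) (hb : ∀ i, 0 < T.b i)
    (hs : 0 < ∑ i, T.a i + ∑ i, T.b i * (T.φ i).natDegree) (he : 0 < e) (hD : 0 < D)
    (hg : ∀ i, (T.g i).natDegree ≤ e) (hφ : ∀ i, 0 < (T.φ i).natDegree ∧ (T.φ i).natDegree ≤ D)
    (H : (D : ℚ) * ((e * (∑ i, T.a i + ∑ i, T.b i : ℕ) + T.h.natDegree) / T.m +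
      T.κ.natDegree / 2) < 1) :
    ∃ A B : Polynomial ℚ, A.eval (Nat.card F : ℚ)⁻¹ ≠ 0 ∧ B.eval (Nat.card F : ℚ)⁻¹ ≠ 0 ∧
      T.L p * (B : PowerSeries ℚ) = (A : PowerSeries ℚ) := by
  have := Fintype.ofFinite F
  obtain ⟨f, -, hf⟩ := FiniteField.card F p
  have hq : 0 < Nat.card F - 1 := Nat.sub_pos_of_lt Finite.one_lt_card
  have hd0 := Nat.pos_of_dvd_of_pos hd hq
  have hm0 : (0 : ℚ) < T.m := Nat.cast_pos.2 hm.pos
  have hD1 : (1 : ℚ) ≤ D := by exact_mod_cast hD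
  have he1 : (1 : ℚ) ≤ e := by exact_mod_cast he
  have h0 : D * (∑ i, T.a i + ∑ i, T.b i) < T.m := by
    have : (D : ℚ) * ((∑ i, T.a i + ∑ i, T.b i : ℕ) / T.m) < 1 := by
      refine lt_of_le_of_lt (mul_le_mul_of_nonneg_left ?_ (by positivity)) H
      refine le_trans ?_ (le_add_of_nonneg_right (by positivity))
      gcongr
      exact (le_mul_of_one_le_left (by positivity) he1).trans (le_add_of_nonneg_right (by positivity))
    rw [← mul_div_assoc, div_lt_one hm0] at this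
    exact_mod_cast this
  have h1 : ∀ n, 0 < n → n ≤ D * (∑ i, T.a i + ∑ i, T.b i) → n.Coprime T.m := fun n h h' =>
    (Nat.coprime_of_lt_prime h.ne' (by omega) hm).symm
  have h2 := Nat.le_mul_of_pos_left (∑ i, T.a i + ∑ i, T.b i) hD
  refine Results.MP_60d5ce_nt.TowerNonvanishing.result p F T e D ?_ hd (by omega) hδ
    (fun i => h1 _ (ha i) ?_) (fun i => h1 _ (hb i) ?_) (h1 _ hs ?_) he hD hg hφ fun k l hk => ?_
  · rw [Nat.card_eq_fintype_card, hf]
    exact (Nat.modEq_iff_dvd' (Nat.one_le_pow _ _ (Fact.out : p.Prime).pos)).1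
      (by simpa using (hp.pow f).symm)
  · have := Finset.single_le_sum (f := T.a) (fun _ _ => Nat.zero_le _) (Finset.mem_univ i)
    omega
  · have := Finset.single_le_sum (f := T.b) (fun _ _ => Nat.zero_le _) (Finset.mem_univ i)
    omega
  · rw [mul_add, mul_comm D (∑ i, T.b i), Finset.sum_mul]
    exact add_le_add (Nat.le_mul_of_pos_left _ hD)
      (Finset.sum_le_sum fun i _ => Nat.mul_le_mul_left _ (hφ i).2)
  obtain ⟨k', -, hk'⟩ := Nat.exists_mul_mod_eq_one_of_coprime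
    ((Nat.Prime.coprime_iff_not_dvd hm).2 hk).symm hm.one_lt
  obtain ⟨s, hs1, hs2⟩ : ∃ s, s.Coprime T.d ∧ 2 * (s * l % T.d) ≤ T.d := by
    by_cases h : 2 * (l % T.d) ≤ T.d
    · exact ⟨1, by simp, by simpa⟩
    refine ⟨T.d - 1, by simp [Nat.coprime_self_sub_left hd0], ?_⟩
    have := Pool.Agent.Lib.Dwork.mod_add_mod (N := T.d) (a := l) (b := (T.d - 1) * l)
      (by rw [add_comm, ← Nat.succ_mul, Nat.succ_eq_add_one, Nat.sub_add_cancel hd0]; simp)
      fun e => h (by simp [Nat.mod_eq_zero_of_dvd e])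
    omega
  obtain ⟨u, hu1, hu2⟩ := Nat.chineseRemainder hdm k' s
  have h3 : ∀ j c, p ^ j * u * k * c ≡ c [MOD T.m] := fun j c => by
    have : k' * k ≡ 1 [MOD T.m] := by
      rw [Nat.ModEq, mul_comm, hk', Nat.mod_eq_of_lt hm.one_lt]
    simpa [mul_assoc] using ((hp.pow j).mul ((hu1.mul_right k).trans this)).mul_right c
  have h4 : ∀ {n} (c : Fin n → ℕ) j, ∑ i, Int.fract ((p : ℚ) ^ j * u * k * c i / T.m) ≤
      (∑ i, c i : ℕ) / T.m := fun c j => by
    rw [Nat.cast_sum, Finset.sum_div]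
    exact Finset.sum_le_sum fun i _ => by exact_mod_cast fract_le (h3 j (c i))
  refine ⟨u, Nat.Coprime.mul_right ?_ ?_, fun j => ?_, fun l' => ⟨0, lt_of_le_of_lt ?_ H⟩⟩
  · exact Nat.coprime_of_mul_modEq_one k (by simpa using h3 0 1)
  · rw [Nat.Coprime, hu2.gcd_eq, hs1]
  · refine (add_le_add ((h4 _ j).trans (le_mul_of_one_le_left (by positivity) hD1))
      (mul_le_mul_of_nonneg_left (h4 _ j) (by positivity))).trans_lt ?_
    rw [← mul_add, ← add_div, ← mul_div_assoc, div_lt_one hm0]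
    exact_mod_cast h0
  · have h5 : Int.fract ((p : ℚ) ^ 0 * u * k / T.m) ≤ 1 / T.m := by
      exact_mod_cast fract_le (mul_one (p ^ 0 * u * k) ▸ h3 0 1)
    have h6 : Int.fract ((p : ℚ) ^ 0 * u * l / T.d) ≤ 1 / 2 := by
      rw [pow_zero, one_mul, ← Nat.cast_mul, Int.fract_div_natCast_eq_div_natCast_mod,
        hu2.mul_right l, div_le_div_iff₀ (by exact_mod_cast hd0) two_pos, one_mul, mul_comm]
      exact_mod_cast hs2
    have h7 : Int.fract ((p : ℚ) ^ 0 * l' / T.c) = 0 := by simp [hc]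
    rw [h7, mul_zero, add_zero, add_div, Nat.cast_add, mul_div_assoc (e : ℚ), add_div,
      div_eq_mul_one_div (T.h.natDegree : ℚ), div_eq_mul_one_div (T.κ.natDegree : ℚ)]
    gcongr
    exacts [h4 _ 0, h4 _ 0]

end Pool.Agent.Work.MP_60d5ce_nt
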