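import Mathlib

/-!
Valuations on the function field of `y ^ m = Φ (u, w)`.
-/

namespace Pool.Agent.Work.MP_60d5ce_nt

open Finset Polynomial

section Orth

variable {A L Γ : Type*} [CommRing A] [Field L] [Algebra A L] [LinearOrderedCommGroupWithZero Γ]
  {v : Valuation L Γ} {t y : L} {m : ℕ} {f : A[X]}

theorem le_map_sum {g : ℕ → L} (h : ∀ i < m, ∀ j < m, g i ≠ 0 → v (g i) = v (g j) → i = j) {j : ℕ}
    (hj : j < m) : v (g j) ≤ v (∑ i ∈ range m, g i) := by
  obtain ⟨i, hi, h1⟩ := exists_max_image (range m) (fun i => v (g i)) ⟨j, mem_range.2 hj⟩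
  refine (h1 j (mem_range.2 hj)).trans ?_
  by_cases h0 : g i = 0
  · simp [h0]
  refine (v.map_sum_eq_of_lt hi fun k hk => ?_).ge
  rw [mem_sdiff, mem_singleton] at hk
  exact (h1 k hk.1).lt_of_ne fun e => hk.2 (h i (mem_range.1 hi) k (mem_range.1 hk.1) h0 e.symm).symm

theorem val_distinct [v.IsTrivialOn A] (ht : 1 < v t) (hy : y ^ m = aeval t f) (hf : f ≠ 0)
    (hm : f.natDegree.Coprime m) {r s : A[X]} {i j : ℕ} (hi : i < m) (hj : j < m)
    (h0 : aeval t r * y ^ i ≠ 0) (h : v (aeval t r * y ^ i) = v (aeval t s * y ^ j)) : i = j := by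
  have hr : r ≠ 0 := fun e => h0 (by simp [e])
  have hs : s ≠ 0 := fun e => h0 (by simpa [e] using h)
  have h1 := congrArg (· ^ m) h
  simp only [map_mul, map_pow, mul_pow, pow_right_comm _ _ m] at h1
  simp only [← map_pow v y, hy, valuation_aeval_eq_valuation_X_pow_natDegree_of_one_lt_valuation_X,
    ht, hr, hs, hf, ne_eq, not_false_eq_true, ← pow_mul, ← pow_add] at h1
  have h2 := congrArg (· % m) (pow_right_injective₀ (zero_lt_one.trans ht) ht.ne' h1)
  simp only [Nat.mul_add_mod_self_right] at h2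
  exact Nat.ModEq.eq_of_lt_of_lt (Nat.ModEq.cancel_left_of_coprime hm.symm h2) hi hj

theorem val_orth [v.IsTrivialOn A] (ht : 1 < v t) (hy : y ^ m = aeval t f) (hf : f ≠ 0)
    (hm : f.natDegree.Coprime m) (r : ℕ → A[X]) {j : ℕ} (hj : j < m) :
    v (aeval t (r j) * y ^ j) ≤ v (∑ i ∈ range m, aeval t (r i) * y ^ i) :=
  le_map_sum (g := fun i => aeval t (r i) * y ^ i)
    (fun _ hi _ hj h0 h => val_distinct ht hy hf hm hi hj h0 h) hj

variable [IsDomain A] [FaithfulSMul A L]

theorem isAlgebraic_of_forall (h : ∀ V : ValuationSubring L, V.valuation.IsTrivialOn A → t ∈ V) :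
    IsAlgebraic A t := by
  let := FractionRing.liftAlgebra A L
  rw [IsFractionRing.isAlgebraic_iff A (FractionRing A), isAlgebraic_iff_isIntegral]
  by_contra h1
  have : IsIntegrallyClosedIn (integralClosure (FractionRing A) L).toSubring L :=
    inferInstanceAs (IsIntegrallyClosedIn (integralClosure (FractionRing A) L) L)
  obtain ⟨V, h2, h3⟩ := Subring.exists_le_valuationSubring_of_isIntegrallyClosedIn
    (R := (integralClosure (FractionRing A) L).toSubring) h1
  have h4 : ∀ a, V.valuation (algebraMap (FractionRing A) L a) ≤ 1 := fun a =>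
    (V.valuation_le_one_iff _).2 (h2 (Subalgebra.algebraMap_mem _ a))
  refine h3 (h V ⟨fun a ha => ?_⟩)
  have h5 := h4 (algebraMap A _ a)⁻¹
  rw [map_inv₀, ← IsScalarTower.algebraMap_apply, map_inv₀, inv_le_one₀ (by simpa [zero_lt_iff])]
    at h5
  exact le_antisymm (IsScalarTower.algebraMap_apply A (FractionRing A) L a ▸ h4 _) h5

theorem exists_val (ht : Transcendental A t) :
    ∃ V : ValuationSubring L, V.valuation.IsTrivialOn A ∧ 1 < V.valuation t := by
  by_contra! h
  exact ht (isAlgebraic_of_forall fun V hV => (V.valuation_le_one_iff _).1 (h V hV))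

theorem indep (ht : Transcendental A t) (hy : y ^ m = aeval t f) (hf : f ≠ 0)
    (hm : f.natDegree.Coprime m) (r : ℕ → A[X]) (h : ∑ i ∈ range m, aeval t (r i) * y ^ i = 0)
    {j : ℕ} (hj : j < m) : r j = 0 := by
  obtain ⟨V, _, hV⟩ := exists_val ht
  have h1 := val_orth hV hy hf hm r hj
  rw [h, map_zero, le_zero_iff, map_eq_zero, mul_eq_zero] at h1
  refine transcendental_iff.1 ht _ (h1.resolve_right fun e => hf (transcendental_iff.1 ht _ ?_))
  rw [← hy, eq_zero_of_pow_eq_zero e, zero_pow (by omega)]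

end Orth

variable {k K : Type*} [Field k] [Field K] [Algebra k K] {u w y : K} {m : ℕ} {Φ : k[X][X]}

theorem map_aevalAeval {R S : Type*} [CommRing R] [CommRing S] [Algebra k R] [Algebra k S]
    (ψ : R →ₐ[k] S) (a b : R) (r : k[X][X]) :
    ψ (aevalAeval a b r) = aevalAeval (ψ a) (ψ b) r :=
  DFunLike.congr_fun (show ψ.comp (aevalAeval a b) = aevalAeval (ψ a) (ψ b) by ext <;> simp) r

theorem aeval_map_aeval {R S : Type*} [CommRing R] [CommRing S] [Algebra k R] [Algebra k S]
    [Algebra R S] [IsScalarTower k R S] (a : R) (b : S) (r : k[X][X]) :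
    aeval b (r.map (aeval a).toRingHom) = aevalAeval (algebraMap R S a) b r := by
  induction r using Polynomial.induction_on' with
  | add p q h1 h2 => simp only [Polynomial.map_add, map_add, h1, h2]
  | monomial n c => simp [← C_mul_X_pow_eq_monomial, aeval_algebraMap_apply]

/-- The fibres of the pencil are irreducible. -/
theorem vert_orth (V : ValuationSubring K) (hy : y ^ m = aevalAeval u w Φ)
    (h1 : IsUnit Φ.leadingCoeff) (h2 : Φ.natDegree.Coprime m)
    (hw : ∀ a : k[X], a ≠ 0 → V.valuation (aeval w a) = 1) (hu : u ∈ V) {π : k[X]} (hπ : π ≠ 0)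
    (hπ' : V.valuation (aeval u π) < 1) (r : ℕ → k[X][X]) {j : ℕ} (hj : j < m) :
    V.valuation (aevalAeval u w (r j) * y ^ j) ≤
      V.valuation (∑ i ∈ range m, aevalAeval u w (r i) * y ^ i) := by
  classical
  have h3 : ∀ a : k, algebraMap k K a ∈ V := fun a => by
    rcases eq_or_ne a 0 with rfl | ha
    · simp
    · exact (V.valuation_le_one_iff _).1 (by simpa using (hw (C a) (C_ne_zero.2 ha)).le)
  let : Algebra k V := ((algebraMap k K).codRestrict V h3).toAlgebra
  have : IsScalarTower k V K := .of_algebraMap_eq fun _ => rfl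
  lift u to V using hu
  lift w to V using (V.valuation_le_one_iff _).1 (by simpa using (hw X X_ne_zero).le)
  have e1 : ∀ r : k[X][X], aevalAeval (u : K) (w : K) r = (aevalAeval u w r : V) := fun r =>
    (map_aevalAeval (IsScalarTower.toAlgHom k V K) u w r).symm
  have e2 : ∀ (x : V) (a : k[X]), aeval (x : K) a = (aeval x a : V) := fun x a =>
    aeval_algHom_apply (IsScalarTower.toAlgHom k V K) x a
  lift y to V using (V.valuation_le_one_iff _).1 ((pow_le_one_iff_of_nonneg zero_le
    (n := m) (by omega)).1 (by rw [← map_pow, hy, e1]; exact V.valuation_le_one _))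
  let ρ := IsScalarTower.toAlgHom k V (IsLocalRing.ResidueField V)
  have e3 : ∀ x : V, ρ x = 0 ↔ V.valuation x < 1 := fun x =>
    (IsLocalRing.residue_eq_zero_iff x).trans (V.valuation_lt_one_iff x)
  have h4 : IsIntegral k (ρ u) := IsAlgebraic.isIntegral ⟨π, hπ, by
    rwa [aeval_algHom_apply, e3, ← e2]⟩
  have h5 : Transcendental k (ρ w) := transcendental_iff.2 fun a ha => by_contra fun h => by
    rw [aeval_algHom_apply, e3, ← e2, hw a h] at ha
    exact ha.false
  let u' : integralClosure k (IsLocalRing.ResidueField V) := ⟨ρ u, h4⟩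
  have e4 : ∀ r : k[X][X], aeval (ρ w) (r.map (aeval u').toRingHom) = ρ (aevalAeval u w r) :=
    fun r => by rw [aeval_map_aeval, map_aevalAeval]; rfl
  obtain ⟨g, hg1, hg2⟩ := extract_gcd (s := range m) r ⟨j, mem_range.2 hj⟩
  have h6 : V.valuation (∑ i ∈ range m, aevalAeval u w (g i) * y ^ i : V) = 1 := by
    refine (V.valuation_lt_one_or_eq_one _).resolve_left fun h => ?_
    rw [← e3, map_sum] at h
    simp only [map_mul, map_pow, ← e4] at h
    have h7 := (h1.map (aeval u').toRingHom).ne_zero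
    have h8 : C (minpoly k (ρ u)) ∣ (range m).gcd g := dvd_gcd fun i hi => by
      have h9 := indep (f := Φ.map (aeval u').toRingHom) h5.integralClosure
        (by rw [e4, ← map_pow]; exact congrArg ρ (Subtype.ext (hy.trans (e1 _))))
        (fun e => h7 (by simpa using congrArg (coeff · Φ.natDegree) e))
        (by rwa [natDegree_map_of_leadingCoeff_ne_zero _ h7]) _ h (mem_range.1 hi)
      refine (C_dvd_iff_dvd_coeff _ _).2 fun n => minpoly.dvd _ _ ?_
      refine (aeval_algHom_apply (integralClosure k _).val u' _).trans ?_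
      simpa using congrArg (coeff · n) h9
    rw [hg2, ← isUnit_iff_dvd_one, isUnit_C] at h8
    exact minpoly.not_isUnit _ _ h8
  rw [sum_congr rfl fun i hi => by rw [hg1 i hi], hg1 j (mem_range.2 hj)]
  simp only [map_mul, mul_assoc, ← mul_sum]
  refine mul_le_mul_right ?_ _
  push_cast [← e1] at h6
  rw [h6, ← map_mul, e1]
  exact V.valuation_le_one (_ * y ^ j)

end Pool.Agent.Work.MP_60d5ce_nt
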