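import Pool.Agent.Work.MP_60d5ce_nt.H9Decay
import Pool.Agent.Work.MP_60d5ce_nt.H9Val

/-!
Traces in one-parameter families of curves `y ^ m = Ψ (s, w)`.
-/

namespace Pool.Agent.Work.MP_60d5ce_nt

open Finset hiding mk
open PowerSeries hiding aeval map_eq_zero
open Pool.Agent.Lib.Dwork Filter Topology FiniteField
open Polynomial (aeval aevalAeval)

variable {F : Type} [Field F] (m : ℕ) (Ψ : Polynomial (Polynomial F)) (δ : Polynomial F)

/-- Points of the base, with one free coordinate. -/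
def Ω₁ (b : Prop) (E : Type) [Field E] [Algebra F E] (v : Fin 2 → E) : Prop :=
  aeval (v 0) δ = 0 ↔ b

/-- Points of the surface. -/
def Ω₂ (b : Prop) (E : Type) [Field E] [Algebra F E] (v : Option (Fin 2) → E) : Prop :=
  (aeval (v (some 0)) δ = 0 ↔ b) ∧ v none ^ m = aevalAeval (v (some 0)) (v (some 1)) Ψ

open Classical in
/-- The trace over the points where `δ` vanishes, or does not vanish. -/
noncomputable def fam (b : Prop) (E : Type) [Field E] [Fintype E] [Algebra F E] : ℤ :=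
  ∑ s : E, if aeval s δ = 0 ↔ b then
    ∑ w : E, (1 - (Nat.card {y : E // y ^ m = aevalAeval s w Ψ} : ℤ)) else 0

theorem sum_fin_two {E R : Type*} [Fintype E] [AddCommMonoid R] (g : (Fin 2 → E) → R) :
    ∑ v, g v = ∑ a, ∑ b, g ![a, b] := by
  rw [← (finTwoArrowEquiv E).symm.sum_comp, Fintype.sum_prod_type]
  rfl

section One

variable (E : Type) [Field E] [Fintype E] [Algebra F E]

theorem fam_eq (b : Prop) :
    fam m Ψ δ b E = Nat.card {v // Ω₁ δ b E v} - Nat.card {v // Ω₂ m Ψ δ b E v} := by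
  classical
  simp only [card_eq_sum, sum_option_fun, sum_fin_two, fam, ← sum_sub_distrib, Ω₁, Ω₂, Option.elim,
    Matrix.cons_val_zero, Matrix.cons_val_one]
  refine sum_congr rfl fun s _ => ?_
  split_ifs with h <;> simp [h]

theorem fam_add : fam m Ψ δ False E + fam m Ψ δ True E =
    ∑ s : E, ∑ w : E, (1 - (Nat.card {y : E // y ^ m = aevalAeval s w Ψ} : ℤ)) := by
  simp only [fam, ← sum_add_distrib]
  refine sum_congr rfl fun s _ => ?_
  by_cases h : aeval s δ = 0 <;> simp [h]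

variable {E} in
theorem sum_fibre (g : E → E) : ∑ w : E, (1 - (Nat.card {y : E // y ^ m = g w} : ℤ)) =
    Fintype.card E - Nat.card {z : E × E // z.2 ^ m = g z.1} := by
  rw [Nat.card_congr (Equiv.subtypeProdEquivSigmaSubtype fun x y => y ^ m = g x), Nat.card_sigma]
  simp

end One

theorem Ω₁_map (b : Prop) (E E' : Type) [Field E] [Algebra F E] [Field E'] [Algebra F E']
    (f : E →ₐ[F] E') (v : _ → E) : Ω₁ δ b E' (f ∘ v) ↔ Ω₁ δ b E v := by
  simp only [Ω₁, Function.comp, Polynomial.aeval_algHom_apply, map_eq_zero]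

theorem Ω₂_map (b : Prop) (E E' : Type) [Field E] [Algebra F E] [Field E'] [Algebra F E']
    (f : E →ₐ[F] E') (v : _ → E) : Ω₂ m Ψ δ b E' (f ∘ v) ↔ Ω₂ m Ψ δ b E v := by
  have hf : Function.Injective f := f.injective
  simp only [Ω₂, Function.comp, Polynomial.aeval_algHom_apply, map_eq_zero, ← map_aevalAeval,
    ← map_pow, hf.eq_iff]

variable {E : ℕ → Type} [∀ n, Field (E n)] [∀ n, Algebra F (E n)] [∀ n, Fintype (E n)]

theorem Ω₁_ind [Fintype F] {K : Type*} [Field K] {ω : ∀ n, E n →*₀ K}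
    (hE : ∀ n, Fintype.card (E n) = Fintype.card F ^ (n + 1)) (b : Prop) :
    Ind F ω fun n v => Ω₁ δ b (E n) v :=
  (Ind.eq hE (aeval (.X 0) δ) 0 fun n v => by simp [aeval_poly]).iff b

theorem Ω₂_ind [Fintype F] {K : Type*} [Field K] {ω : ∀ n, E n →*₀ K}
    (hE : ∀ n, Fintype.card (E n) = Fintype.card F ^ (n + 1)) (b : Prop) :
    Ind F ω fun n v => Ω₂ m Ψ δ b (E n) v :=
  ((Ind.eq hE (aeval (.X (some 0)) δ) 0 fun n v => by simp [aeval_poly]).iff b).and
    (Ind.eq hE (.X none ^ m) (aevalAeval (.X (some 0)) (.X (some 1)) Ψ) fun n v => by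
      rw [map_aevalAeval]; simp)

theorem fam_tendsto {q m' d : ℕ} (hE : ∀ n, Fintype.card (E n) = q ^ (n + 1))
    (hm : q = m * m' + 1) (hδ : δ ≠ 0) (hd : d.Coprime m)
    (h : ∀ n (s : E n), Ψ.map (aeval s).toRingHom = 0 ∨ (Ψ.map (aeval s).toRingHom).natDegree = d) :
    Tendsto (fun n => (fam m Ψ δ True (E n) : ℝ) * (q : ℝ)⁻¹ ^ (n + 1)) atTop (𝓝 0) := by
  classical
  have hq : 1 < q := (Nat.one_lt_pow_iff one_ne_zero).1 ((hE 0) ▸ Fintype.one_lt_card)
  set B : ℝ := (δ.natDegree : ℝ) with hB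
  refine tendsto_zero_iff_abs_tendsto_zero _ |>.2 (tendsto_order.2 ⟨fun a h =>
    .of_forall fun n => h.trans_le (abs_nonneg _), fun a ha0 => ?_⟩)
  obtain ⟨Q, hQ⟩ := curve_count m _ hd (ε := a / (B + 1)) (by positivity)
  filter_upwards [eventually_ge_atTop (m * Q)] with n hn
  have e1 := (hE n).trans (card_eq_mul hm (n + 1))
  generalize m' * ∑ j ∈ range (n + 1), q ^ j = D at *
  have hm0 : m ≠ 0 := fun e => Fintype.one_lt_card.ne' (by simpa [e] using e1)
  have hD : Q ≤ D := by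
    have := Nat.lt_pow_self (n := n + 1) hq
    rw [← hE, e1] at this
    exact Nat.le_of_mul_le_mul_left (by omega) (Nat.pos_of_ne_zero hm0)
  have h1 : ∀ s : E n, |((∑ w : E n, (1 - (Nat.card {y : E n // y ^ m = aevalAeval s w Ψ} : ℤ)) :
      ℤ) : ℝ)| ≤ a / (B + 1) * Fintype.card (E n) := fun s => by
    have e2 : ∀ w, aevalAeval s w Ψ = (Ψ.map (aeval s).toRingHom).eval w := fun w =>
      (aeval_map_aeval s w Ψ).symm
    simp only [e2]
    by_cases h0 : Ψ.map (aeval s).toRingHom = 0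
    · simp only [h0, Polynomial.eval_zero, pow_eq_zero_iff hm0]
      simpa using by positivity
    · rw [sum_fibre, Int.cast_sub, abs_sub_comm]
      exact hQ (E n) D e1 hD _ h0 ((h n s).resolve_left h0)
  have h3 := sum_root_le (Polynomial.map_ne_zero (f := algebraMap F (E n)) hδ)
    (fun s => aeval s δ = 0 ↔ True) fun s hs => by simpa [Polynomial.eval_map_algebraMap] using hs
  rw [Polynomial.natDegree_map] at h3
  have h4 : |(fam m Ψ δ True (E n) : ℝ)| ≤ B * (a / (B + 1) * Fintype.card (E n)) := by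
    refine le_trans ?_ (mul_le_mul_of_nonneg_right (Nat.cast_le.2 h3) (by positivity))
    rw [fam, Int.cast_sum, Nat.cast_sum, sum_mul]
    refine (abs_sum_le_sum_abs _ _).trans (sum_le_sum fun s _ => ?_)
    split_ifs with h
    · simpa only [Nat.cast_one, one_mul] using h1 s
    · simp
  rw [Function.comp, abs_mul, inv_pow, abs_inv, ← Nat.cast_pow, ← hE, Nat.abs_cast,
    mul_inv_lt_iff₀ (by exact_mod_cast Fintype.card_pos)]
  refine h4.trans_lt ?_
  rw [← mul_assoc]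
  refine mul_lt_mul_of_pos_right ?_ (by exact_mod_cast Fintype.card_pos)
  rw [← mul_div_assoc, div_lt_iff₀ (by positivity)]
  linarith

variable {p : ℕ} [hp : Fact p.Prime] (T : Tower F)

theorem decay_plane [∀ n, CharP (E n) p] {q f m' e D₀ k : ℕ}
    (hE : ∀ n, Fintype.card (E n) = q ^ (n + 1)) (hq : q = p ^ f) (hf : f ≠ 0)
    (hm : q = T.m * m' + 1) {ω : ∀ n, E n →*₀ ℂ_[p]} {Ψ : ∀ n, AddChar (E n) ℂ_[p]}
    (hω : ∀ n, Std p (ω n) (Ψ n)) (he : 0 < e) (hD₀ : 0 < D₀) (hg : ∀ i, (T.g i).natDegree ≤ e)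
    (hφ : ∀ i, (T.φ i).natDegree ≤ D₀) (ha : ∀ i, ¬ T.m ∣ k * T.a i) (hb : ∀ i, ¬ T.m ∣ k * T.b i)
    (hk : ¬ T.m ∣ k) (A W : ℕ → ℕ)
    (hA : ∀ j, A j = ∑ i, p ^ j * k * T.a i % T.m + D₀ * ∑ i, p ^ j * k * T.b i % T.m)
    (hW : ∀ j, W j = D₀ * (e * (∑ i, p ^ j * k * T.a i % T.m + ∑ i, p ^ j * k * T.b i % T.m) +
      T.h.natDegree * (p ^ j * k % T.m)))
    (H : #{j ∈ range f | T.m ≤ A j ∧ (e + 1) * T.m ≤ W j} < #{j ∈ range f | W j < T.m}) :
    Tendsto (fun n => (∑ t : E n, ∑ x : E n,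
      ω n (T.f t x) ^ (k * (m' * ∑ j ∈ range (n + 1), q ^ j))) * (q : ℂ_[p])⁻¹ ^ (n + 1))
      atTop (𝓝 0) := by
  obtain ⟨hp0, hp1⟩ := (hω 0).norm_p
  refine tendsto_zero_iff_norm_tendsto_zero.2 (squeeze_zero (fun _ => norm_nonneg _) (fun n => ?_)
    ((tendsto_pow_atTop_nhds_zero_of_lt_one hp0.le hp1).comp (tendsto_add_atTop_nat 1)))
  have hs : Fintype.card (E n) = p ^ ((n + 1) * f) := by rw [hE, hq, pow_mul']
  have e1 := card_eq_mul hm (n + 1)
  generalize m' * ∑ j ∈ range (n + 1), q ^ j = D at *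
  have e0 : (q : ℂ_[p]) ^ (n + 1) = p ^ ((n + 1) * f) := by rw [hq, pow_mul', Nat.cast_pow]
  rw [← hE, hs] at e1
  have hN := pred_pos hs
  have hs0 : (n + 1) * f ≠ 0 := by positivity
  have e3 : p ^ ((n + 1) * f) - 1 = T.m * D := by omega
  have hD : 0 < D := Nat.pos_of_mul_pos_left (e3 ▸ hN)
  have r1 : ∀ j c, ¬ T.m ∣ c → rs (p ^ ((n + 1) * f) - 1) (p ^ j * (c * D)) =
      p ^ j * c % T.m * D := fun j c h => by
    rw [← mul_assoc, rs_mul e3 hN fun e => absurd e (not_dvd_pow_mul ⟨D, e3⟩ hs0 h j)]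
  have h0 := (ex_vert (hω n) hs hD₀ (T.h.map (algebraMap F _)) Polynomial.natDegree_map_le
    (k * D)).mul ((Ex.prod univ fun i => ex_lin (hω n) hs he hD₀ ((T.g i).map (algebraMap F _))
      (Polynomial.natDegree_map_le.trans (hg i)) (k * T.a i * D)).mul
    (Ex.prod univ fun i => ex_lin' (hω n) hs he hD₀ ((T.φ i).map (algebraMap F _))
      (Polynomial.natDegree_map_le.trans (hφ i)) (k * T.b i * D)))
  generalize hA₀ : (0 : ℕ → ℕ) + _ = A' at h0
  generalize hB₀ : (fun j => T.h.natDegree * _) + _ = B' at h0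
  have e4 : ∀ j, A' j = A j * D := fun j => by
    simp only [← hA₀, Pi.add_apply, Finset.sum_apply, zero_add, r1 _ _ (ha _), r1 _ _ (hb _),
      ← mul_sum, ← sum_mul, hA]
    simp only [← mul_assoc, add_mul]
  have e5 : ∀ j, D₀ * B' j = W j * D := fun j => by
    simp only [← hB₀, Pi.add_apply, Finset.sum_apply, r1 _ _ (ha _), r1 _ _ (hb _), r1 _ _ hk,
      ← mul_sum, ← sum_mul, hW]
    simp only [← mul_assoc]
    ring
  have h1 := h0.norm_sum (hω n) hs (fun j => W j < T.m) (fun j => T.m ≤ A j ∧ (e + 1) * T.m ≤ W j)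
    (fun j _ h => ?_) fun j _ h => ?_
  · have e6 : ∀ r j, A (f * r + j) = A j ∧ W (f * r + j) = W j := fun r j => by
      simp only [hA, hW, mul_assoc _ k, pow_mul_mod (hq ▸ hm), and_self]
    simp only [sum_range_mul_block, e6, sum_const, card_range, smul_eq_mul] at h1
    simp only [card_filter] at H
    generalize (∑ j ∈ range f, if W j < T.m then 1 else 0) = γ at *
    generalize (∑ j ∈ range f, if T.m ≤ A j ∧ (e + 1) * T.m ≤ W j then 1 else 0) = ζ at *
    rw [norm_mul, inv_pow, e0, norm_inv, norm_pow, mul_inv_le_iff₀ (by positivity), Function.comp,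
      ← pow_add, sum_comm, ← Fintype.sum_prod_type']
    refine le_of_mul_le_mul_right (le_trans (le_of_eq ?_) (h1.trans ?_))
      (pow_pos hp0 ((n + 1) * ζ))
    · congr 3
      ext v
      simp only [Tower.f, Pi.mul_apply, Finset.prod_apply, Polynomial.eval_map_algebraMap, map_mul,
        map_prod, map_pow, mul_pow, ← prod_pow, ← pow_mul, mul_left_comm _ k, mul_assoc]
    · rw [← pow_add]
      refine pow_le_pow_of_le_one hp0.le hp1.le ?_
      have := Nat.mul_le_mul_left (n + 1) (Nat.succ_le_of_lt H)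
      rw [Nat.mul_succ] at this
      omega
  · rw [e4, e5, e3]
    refine ⟨Nat.mul_lt_mul_of_pos_right (lt_of_le_of_lt ?_ h) hD, Nat.mul_lt_mul_of_pos_right h hD⟩
    rw [hA, hW]
    exact (Nat.add_le_add_right (Nat.le_mul_of_pos_left _ hD₀) _).trans ((mul_add _ _ _).ge.trans
      (Nat.mul_le_mul_left _ ((Nat.le_mul_of_pos_left _ he).trans (Nat.le_add_right _ _))))
  · rw [e4, e5, e3, ← mul_assoc]
    simp only [Nat.mul_lt_mul_right hD]
    omega

end Pool.Agent.Work.MP_60d5ce_nt
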