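import Pool.Agent.Work.MP_60d5ce_nt.H9Val

/-!
A function on `y ^ m = Φ (u, w)` whose divisor lies above the zeros of a polynomial in `w` has its
`m`-th power in the base field.
-/

namespace Pool.Agent.Work.MP_60d5ce_nt

open Finset Polynomial Polynomial.Bivariate

variable {k K : Type*} [Field k] [Field K] [Algebra k K] {u w y : K} {m : ℕ} {Φ : k[X][X]} {ζ : k}

theorem key_pow (hinj : Function.Injective (aevalAeval u w : k[X][X] →ₐ[k] K))
    (hy : y ^ m = aevalAeval u w Φ) (h1 : IsUnit Φ.leadingCoeff) (h2 : Φ.natDegree.Coprime m)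
    (h3 : (swap Φ).natDegree.Coprime m) (hζ : IsPrimitiveRoot ζ m) (hm : m ≠ 0) (σ : K →ₐ[k] K)
    (hu : σ u = u) (hw : σ w = w) (hσ : σ y = algebraMap k K ζ * y)
    (hrep : ∀ z : K, ∃ (r : ℕ → k[X][X]) (s : k[X][X]), s ≠ 0 ∧
      aevalAeval u w s * z = ∑ j ∈ range m, aevalAeval u w (r j) * y ^ j)
    (R : Subring K) (hR : ∀ V : ValuationSubring K,
      (∀ a : k[X], a ≠ 0 → V.valuation (aeval u a) = 1) → w ∈ V → ∀ z ∈ R, z ∈ V)
    (hσR : ∀ z ∈ R, σ z ∈ R) {c : k[X]} (hc : c ≠ 0) {φ : K} (h0 : φ ≠ 0)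
    (hφ : aeval w c * φ ∈ R ∧ aeval w c * φ⁻¹ ∈ R) :
    ∃ r s : k[X][X], s ≠ 0 ∧ aevalAeval u w s * φ ^ m = aevalAeval u w r := by
  let : Algebra k[X] K := (aeval w).toRingHom.toAlgebra
  have e0 : ∀ a : k[X], algebraMap k[X] K a = aeval w a := fun _ => rfl
  have e1 : ∀ r : k[X][X], aevalAeval u w r = aeval u (swap r) := fun r => by
    rw [← aevalAeval_swap w u]
    generalize swap r = q
    induction q using Polynomial.induction_on' with
    | add p q h1 h2 => simp only [map_add, h1, h2]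
    | monomial n c => simp [← C_mul_X_pow_eq_monomial, e0]
  have ht : Transcendental k[X] u := transcendental_iff.2 fun q hq =>
    (map_eq_zero_iff _ swap.injective).1 (hinj (by rwa [e1, swap_swap_apply, map_zero]))
  have : FaithfulSMul k[X] K := (faithfulSMul_iff_algebraMap_injective _ _).2
    ((injective_iff_map_eq_zero _).2 fun a ha =>
      C_eq_zero.1 (transcendental_iff.1 ht _ (by simpa using ha)))
  have hΦ : swap Φ ≠ 0 := (map_ne_zero_iff _ swap.injective).2 (leadingCoeff_ne_zero.1 h1.ne_zero)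
  have hy' := hy.trans (e1 Φ)
  have hs0 : ∀ {s : k[X][X]}, s ≠ 0 → aevalAeval u w s ≠ 0 := (map_ne_zero_iff _ hinj).2
  have hσι : ∀ r : k[X][X], σ (aevalAeval u w r) = aevalAeval u w r := fun r => by
    rw [map_aevalAeval, hu, hw]
  have hind : ∀ r : ℕ → k[X][X], ∑ j ∈ range m, aevalAeval u w (r j) * y ^ j = 0 →
      ∀ j < m, r j = 0 := fun r h j hj => (map_eq_zero_iff _ swap.injective).1
    (indep ht hy' hΦ h3 (fun j => swap (r j)) (by simpa only [e1] using h) hj)
  have hrep' : ∀ {z : K} {r : ℕ → k[X][X]} {s : k[X][X]},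
      aevalAeval u w s * z = ∑ j ∈ range m, aevalAeval u w (r j) * y ^ j →
      aevalAeval u w s * σ z = ∑ j ∈ range m, aevalAeval u w (C (C ζ) ^ j * r j) * y ^ j :=
    fun {z r s} h => by
      rw [← hσι, ← map_mul, h, map_sum]
      refine sum_congr rfl fun j _ => ?_
      simp only [map_mul, map_pow, hσι, hσ, aevalAeval_C, aeval_C]
      ring
  have hval : ∀ V : ValuationSubring K, V.valuation.IsTrivialOn k[X] → ∀ φ : K, φ ≠ 0 →
      aeval w c * φ ∈ R ∧ aeval w c * φ⁻¹ ∈ R → V.valuation (σ φ) = V.valuation φ := by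
    intro V hV φ h0 hφ
    have h4 : (∀ (r : ℕ → k[X][X]) j, j < m → V.valuation (aevalAeval u w (r j) * y ^ j) ≤
        V.valuation (∑ i ∈ range m, aevalAeval u w (r i) * y ^ i)) →
        V.valuation (σ φ) = V.valuation φ := fun h => by
      obtain ⟨r, s, hs, hr⟩ := hrep φ
      refine mul_left_cancel₀ (V.valuation.ne_zero_iff.2 (hs0 hs)) ?_
      have e2 : ∀ j, V.valuation (aevalAeval u w (C (C ζ) ^ j * r j) * y ^ j) =
          V.valuation (aevalAeval u w (r j) * y ^ j) := fun j => by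
        have := hV.eq_one (C ζ) (C_ne_zero.2 (hζ.ne_zero hm))
        rw [e0, aeval_C] at this
        simp only [map_mul, map_pow, aevalAeval_C, aeval_C, this, one_pow, one_mul]
      rw [← map_mul, ← map_mul, hrep' hr, hr]
      exact le_antisymm (V.valuation.map_sum_le fun j hj => (e2 j).trans_le (h r j (mem_range.1 hj)))
        (V.valuation.map_sum_le fun j hj => (e2 j).ge.trans
          (h (fun j => C (C ζ) ^ j * r j) j (mem_range.1 hj)))
    by_cases hu' : u ∈ V
    swap
    · refine h4 fun r j hj => ?_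
      simp only [e1]
      exact val_orth (lt_of_not_ge fun h => hu' ((V.valuation_le_one_iff _).1 h)) hy' hΦ h3 _ hj
    by_cases hπ : ∃ π : k[X], π ≠ 0 ∧ V.valuation (aeval u π) < 1
    · obtain ⟨π, h5, h6⟩ := hπ
      exact h4 fun r j hj => vert_orth V hy h1 h2 hV.eq_one hu' h5 h6 r hj
    have h5 := hR V (fun a ha => le_antisymm ?_ (not_lt.1 fun h => hπ ⟨a, ha, h⟩))
      ((V.valuation_le_one_iff _).1 (by simpa [e0] using (hV.eq_one X X_ne_zero).le))
    · have h6 : ∀ φ : K, φ ≠ 0 → aeval w c * φ ∈ R → aeval w c * φ⁻¹ ∈ R → V.valuation φ = 1 :=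
        fun φ h0 h h' => by
          have h7 := (V.valuation_le_one_iff _).2 (h5 _ h)
          have h8 := (V.valuation_le_one_iff _).2 (h5 _ h')
          rw [map_mul, ← e0, hV.eq_one c hc, one_mul] at h7 h8
          rw [map_inv₀, inv_le_one₀ (by simpa [zero_lt_iff])] at h8
          exact le_antisymm h7 h8
      rw [h6 φ h0 hφ.1 hφ.2, h6 _ ((map_ne_zero σ).2 h0)]
      · simpa [← aeval_algHom_apply, hw] using hσR _ hφ.1
      · simpa [← aeval_algHom_apply, hw] using hσR _ hφ.2
    · rw [aeval_eq_sum_range]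
      refine V.valuation.map_sum_le fun i _ => ?_
      rw [Algebra.smul_def, map_mul, map_pow]
      refine mul_le_one' ?_ (pow_le_one' ((V.valuation_le_one_iff _).2 hu') _)
      simpa [e0] using Valuation.IsTrivialOn.valuation_algebraMap_le_one V.valuation (C (a.coeff i))
  have hfix : ∀ z, σ z = z → ∃ r s : k[X][X], s ≠ 0 ∧ aevalAeval u w s * z = aevalAeval u w r :=
    fun z hz => by
      obtain ⟨r, s, hs, hr⟩ := hrep z
      have h4 := hind (fun j => (C (C ζ) ^ j - 1) * r j) (by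
        simp only [sub_mul, map_sub, sum_sub_distrib, one_mul, ← hrep' hr, ← hr, hz, sub_self])
      refine ⟨r 0, s, hs, hr.trans ?_⟩
      rw [sum_eq_single_of_mem 0 (mem_range.2 (by omega)), pow_zero, mul_one]
      intro j hj hj0
      rw [(mul_eq_zero.1 (h4 j (mem_range.1 hj))).resolve_left, map_zero, zero_mul]
      rw [← C_pow, ← C_pow, sub_eq_zero, ← C_1, ← C_1, C_inj, C_inj]
      exact hζ.pow_ne_one_of_pos_of_lt hj0 (mem_range.1 hj)
  have h0' : σ φ ≠ 0 := (map_ne_zero σ).2 h0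
  have hψ : σ (σ φ / φ) = σ φ / φ := by
    by_contra hd
    rw [← sub_eq_zero] at hd
    obtain ⟨V, hV, hV'⟩ := exists_val ht
    have h4 : V.valuation (σ (σ φ / φ) - σ φ / φ) = 1 := by
      by_contra h
      refine Valuation.transcendental_of_ne_one k[X] _ hd h (isAlgebraic_of_forall fun V hV => ?_)
      rw [map_div₀]
      refine sub_mem ?_ ?_ <;> rw [← V.valuation_le_one_iff, map_div₀, hval V hV, div_self]
      · simpa
      · exact h0'
      · exact ⟨by simpa [← aeval_algHom_apply, hw] using hσR _ hφ.1,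
          by simpa [← aeval_algHom_apply, hw] using hσR _ hφ.2⟩
      · simpa
      exacts [h0, hφ]
    obtain ⟨r, s, hs, hr⟩ := hrep (σ φ / φ)
    have h5 : V.valuation (aevalAeval u w s * y ^ 0) = V.valuation
        (∑ j ∈ range m, aevalAeval u w ((C (C ζ) ^ j - 1) * r j) * y ^ j) := by
      simp only [sub_mul, map_sub, sum_sub_distrib, one_mul, ← hrep' hr, ← hr]
      rw [← mul_sub, pow_zero, mul_one, map_mul, h4, mul_one]
    have h6 : aevalAeval u w s * y ^ 0 ≠ 0 := by simpa using hs0 hs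
    refine h5.not_gt (V.valuation.map_sum_lt (V.valuation.ne_zero_iff.2 h6) fun j hj => ?_)
    rw [mem_range] at hj
    simp only [e1] at h5 h6 ⊢
    refine ((val_orth hV' hy' hΦ h3 (fun j => swap ((C (C ζ) ^ j - 1) * r j)) hj).trans
      h5.ge).lt_of_ne fun e => ?_
    obtain rfl := val_distinct hV' hy' hΦ h3 (by omega) hj h6 e.symm
    exact V.valuation.ne_zero_iff.2 h6 (by simpa using e.symm)
  obtain ⟨a, b, hb, hab⟩ := hfix _ hψ
  obtain ⟨r, s, hs, hr⟩ := hrep φ
  obtain ⟨j, hj, hr0⟩ : ∃ j < m, r j ≠ 0 := by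
    by_contra! h
    rw [sum_eq_zero fun j hj => by rw [h j (mem_range.1 hj), map_zero, zero_mul]] at hr
    exact mul_ne_zero (hs0 hs) h0 hr
  have h4 := hind (fun j => b * (C (C ζ) ^ j * r j) - a * r j) (by
    simp only [sub_mul, map_sub, sum_sub_distrib, map_mul _ b, map_mul _ a, mul_assoc, ← mul_sum,
      ← hrep' hr, ← hr, ← hab]
    field_simp
    ring) j hj
  rw [← mul_assoc, ← sub_mul, mul_eq_zero, or_iff_left hr0, sub_eq_zero] at h4
  rw [← h4, map_mul, mul_right_inj' (hs0 hb), div_eq_iff h0] at hab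
  refine hfix _ ?_
  rw [map_pow, hab, mul_pow, ← map_pow, pow_right_comm, ← C_pow (n := m), ← C_pow (n := m),
    hζ.pow_eq_one]
  simp

end Pool.Agent.Work.MP_60d5ce_nt
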