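import Pool.Agent.Work.MP_60d5ce_nt.H9Tower
import Pool.Agent.Work.MP_60d5ce_nt.H9Defs
import Pool.Agent.Lib.Dwork.Conj

/-!
The layers of the tower: estimates, invariance and counting.
-/

namespace Pool.Agent.Work.MP_60d5ce_nt

open Finset Pool.Agent.Lib.Dwork Polynomial

variable {F : Type} [Field F] (T : Tower F) (p : ℕ)

theorem aeval_poly {E σ : Type*} [CommRing E] [Algebra F E] (u : σ → E) (i : σ) (h : F[X]) :
    MvPolynomial.aeval u (aeval (MvPolynomial.X i : MvPolynomial σ F) h) = aeval (u i) h := by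
  rw [← aeval_algHom_apply, MvPolynomial.aeval_X]

theorem layer_map {E E' : Type} [Field E] [Algebra F E] [Field E'] [Algebra F E'] (f : E →ₐ[F] E')
    (i : ℕ) (v : Fin (i + 3) → E) : T.Layer p i (fun j => f (v j)) ↔ T.Layer p i v := by
  have hf : Function.Injective f := f.injective
  induction i with
  | zero =>
    simp only [Tower.Layer, aeval_algHom_apply, ← map_mul, ← map_pow, hf.eq_iff,
      hf.eq_iff' (map_one f)]
  | succ i ih =>
    refine and_congr (ih _) ?_
    rw [← hf.eq_iff, ← map_pow, ← map_sub, ← AlgHom.comp_apply f,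
      MvPolynomial.comp_aeval]
    rfl

theorem layer_alg [Fintype F] {E : ℕ → Type} [∀ n, Field (E n)] [∀ n, Algebra F (E n)]
    [∀ n, Fintype (E n)] {K : Type*} [Field K] {ω : ∀ n, E n →*₀ K}
    (hE : ∀ n, Fintype.card (E n) = Fintype.card F ^ (n + 1)) {σ : Type} (i : ℕ)
    (ι : Fin (i + 3) → σ) : Ind F ω fun _ u => T.Layer p i fun j => u (ι j) := by
  induction i with
  | zero =>
    exact (Ind.eq hE (.X (ι 1) * aeval (.X (ι 0)) T.h) 1 fun n v => by simp [aeval_poly]).and
      (Ind.eq hE (.X (ι 2) ^ T.c) (aeval (.X (ι 0)) T.ν) fun n v => by simp [aeval_poly])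
  | succ i ih =>
    refine (ih (Fin.init ι)).and (Ind.eq hE (.X (ι (Fin.last _)) ^ p - .X (ι (Fin.last _)))
      (MvPolynomial.rename (Fin.init ι) (T.μ i)) fun n v => ?_)
    simp only [map_sub, map_pow, MvPolynomial.aeval_X, MvPolynomial.aeval_rename]
    rfl

open Classical in
theorem layer_sp [Fact p.Prime] (K : Type) [NormedField K] [IsUltrametricDist K] (i c k : ℕ) :
    ∃ c' k', ∀ (E : Type) [Field E] [Fintype E] [CharP E p] [Algebra F E] (ω : E →*₀ K)
      (Ψ : AddChar E K) (s : ℕ), Std p ω Ψ → Fintype.card E = p ^ s → ∀ W : E → K,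
      (∀ t, ‖W t‖ ≤ 1) → Sp ω p s (fun v => if T.Layer p 0 v then W (v 0) else 0) c' k' →
      Sp ω p s (fun v => if T.Layer p i v then W (v 0) else 0) c k := by
  induction i generalizing c k with
  | zero => exact ⟨c, k, fun _ _ _ _ _ _ _ _ _ _ _ _ h => h⟩
  | succ i ih =>
    obtain ⟨c', k', h⟩ := ih (c + (k + c) * (T.μ i).totalDegree) (k + c)
    refine ⟨c', k', fun E _ _ _ _ ω Ψ s hω hs W hW h0 => ?_⟩
    have := Sp.step hω hs ((T.μ i).map (algebraMap F E)) (sup_mono (MvPolynomial.support_map_subset _ _))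
      (fun v => by split_ifs; exacts [hW _, by simp]) (h E ω Ψ s hω hs W hW h0)
    simp only [Tower.Layer, and_comm (a := T.Layer _ _ _), ite_and, MvPolynomial.aeval_def,
      ← MvPolynomial.eval_map]
    exact this

theorem sum_root_le {E : Type*} [Field E] [Fintype E] {f : E[X]} (hf : f ≠ 0) (P : E → Prop)
    [DecidablePred P] (h : ∀ x, P x → f.eval x = 0) :
    (∑ x, if P x then 1 else 0) ≤ f.natDegree := by
  rw [← card_filter]
  exact card_le_degree_of_subset_roots fun x hx => (mem_roots hf).2 (h x (mem_filter.1 hx).2)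

theorem sum_pow_le {E : Type*} [Field E] [Fintype E] [DecidableEq E] {c : ℕ} (hc : c ≠ 0) (a : E) :
    (∑ x, if x ^ c = a then 1 else 0) ≤ c :=
  (sum_root_le (X_pow_sub_C_ne_zero (Nat.pos_of_ne_zero hc) a) _ fun x h => by simp [h]).trans_eq
    natDegree_X_pow_sub_C

open Classical in
theorem layer_card [hp : Fact p.Prime] (hc : T.c ≠ 0) (hδ : T.δ ≠ 0) {E : Type} [Field E]
    [Fintype E] [Algebra F E] (i : ℕ) :
    (∑ v, if T.Layer (E := E) p i v ∧ aeval (v 0) T.δ = 0 then 1 else 0) ≤
      T.δ.natDegree * T.c * p ^ i := by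
  induction i with
  | zero =>
    rw [← (Fin.consEquiv fun _ => E).sum_comp, Fintype.sum_prod_type]
    simp only [← (finTwoArrowEquiv E).symm.sum_comp, Fintype.sum_prod_type]
    calc _ = ∑ t : E, (if aeval t T.δ = 0 then 1 else 0) * ((∑ z, if z * aeval t T.h = 1 then 1
          else 0) * ∑ r, if r ^ T.c = aeval t T.ν then 1 else 0) := by
          simp only [sum_mul_sum]
          simp only [mul_sum, ite_zero_mul_ite_zero, mul_one]
          exact sum_congr rfl fun _ _ => sum_congr rfl fun _ _ => sum_congr rfl fun _ _ =>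
            if_congr and_comm rfl rfl
      _ ≤ ∑ t : E, (if aeval t T.δ = 0 then 1 else 0) * (1 * T.c) := by
          refine sum_le_sum fun t _ => Nat.mul_le_mul_left _
            (Nat.mul_le_mul ?_ (sum_pow_le hc _))
          rw [← card_filter]
          exact card_le_one.2 fun a ha b hb => (eq_inv_of_mul_eq_one_left (mem_filter.1 ha).2).trans
            (eq_inv_of_mul_eq_one_left (mem_filter.1 hb).2).symm
      _ ≤ _ := by
          rw [← sum_mul, one_mul, pow_zero, mul_one, ← natDegree_map (algebraMap F E)]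
          exact Nat.mul_le_mul_right _ (sum_root_le (Polynomial.map_ne_zero hδ) _ fun x h => by
            rwa [eval_map_algebraMap])
  | succ i ih =>
    rw [← (Fin.snocEquiv fun _ => E).sum_comp, Fintype.sum_prod_type_right, pow_succ, ← mul_assoc]
    refine le_trans ?_ (Nat.mul_le_mul_right p ih)
    rw [sum_mul]
    refine sum_le_sum fun v _ => ?_
    have e : ∀ x : E, (Fin.snoc v x : Fin (i + 3 + 1) → E) (0 : Fin (i + 1 + 3)) = v 0 :=
      fun x => Fin.snoc_castSucc (α := fun _ => E) x v 0
    simp only [Fin.snocEquiv, Equiv.coe_fn_mk, Tower.Layer, Fin.init_snoc, Fin.snoc_last, e]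
    generalize MvPolynomial.aeval v (T.μ i) = b
    split_ifs with h
    · have h1 : (X ^ p - (X + C b) : E[X]).natDegree = p := by
        rw [natDegree_sub_eq_left_of_natDegree_lt, natDegree_X_pow]
        simpa using hp.out.one_lt
      refine (sum_root_le (fun e => hp.out.ne_zero (by rw [← h1, e, natDegree_zero])) _
        fun x hx => ?_).trans_eq (h1.trans (one_mul p).symm)
      simp only [eval_sub, eval_add, eval_pow, eval_X, eval_C]
      linear_combination hx.1.2
    · exact (sum_eq_zero fun x _ => if_neg (by tauto)).trans_le (Nat.zero_le _)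

end Pool.Agent.Work.MP_60d5ce_nt
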