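import Pool.Agent.Work.MP_60d5ce_nt.H9Decay

/-!
The `L`-series of the tower has no zero or pole at `1 / q`.
-/

namespace Pool.Agent.Work.MP_60d5ce_nt

open Finset hiding mk
open PowerSeries hiding aeval map_eq_zero
open Pool.Agent.Lib.Dwork Filter Topology FiniteField
open Polynomial (aeval)

variable {F : Type} [Field F] (T : Tower F) (p : ℕ)

/-- Points of the base curve, with one free coordinate. -/
def Φ₁ (b : Prop) (E : Type) [Field E] [Algebra F E] (u : Option (Option (Fin (T.N + 3))) → E) :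
    Prop :=
  (T.Layer p T.N fun j => u (some (some j))) ∧ u (some none) ^ T.d = aeval (u (some (some 0))) T.κ ∧
    (aeval (u (some (some 0))) T.δ = 0 ↔ b)

/-- Points of the surface. -/
def Φ₂ (b : Prop) (E : Type) [Field E] [Algebra F E]
    (u : Option (Option (Option (Fin (T.N + 3)))) → E) : Prop :=
  Φ₁ T p b E (fun j => u (some j)) ∧ u none ^ T.m = T.f (u (some (some (some 0)))) (u (some none))

open Classical in
/-- The trace over the points where `δ` vanishes, or does not vanish. -/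
noncomputable def tr (b : Prop) (E : Type) [Field E] [Fintype E] [Algebra F E] : ℤ :=
  ∑ v : Fin (T.N + 3) → E, ∑ r : E, if T.Layer p T.N v ∧ r ^ T.d = aeval (v 0) T.κ ∧
    (aeval (v 0) T.δ = 0 ↔ b) then (Fintype.card E : ℤ) - T.fibre (v 0) else 0

section One

variable (E : Type) [Field E] [Fintype E] [Algebra F E]

theorem trace_eq : T.trace p E = tr T p False E := by
  classical
  rw [Tower.trace, finsum_subtype _ fun P : (Fin (T.N + 3) → E) × E =>
    (Nat.card E : ℤ) - T.fibre (P.1 0), Fintype.sum_prod_type, tr, Nat.card_eq_fintype_card]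
  simp only [iff_false]

theorem tr_eq (b : Prop) :
    tr T p b E = Nat.card {u // Φ₁ T p b E u} - Nat.card {u // Φ₂ T p b E u} := by
  classical
  simp only [card_eq_sum, sum_option_fun, tr, ← sum_sub_distrib, Tower.fibre,
    Fintype.sum_prod_type, Φ₂, Φ₁, Option.elim]
  refine sum_congr rfl fun v _ => sum_congr rfl fun r _ => ?_
  split_ifs with h <;> simp [h]

variable {E} in
theorem tr_add {K : Type*} [Field K] {ω : E →*₀ K} (hω : Function.Injective ω) {D D' : ℕ}
    (hD : Fintype.card E = T.m * D + 1) (hD' : Fintype.card E = T.d * D' + 1)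
    [∀ v : Fin (T.N + 3) → E, Decidable (T.Layer p T.N v)] :
    ((tr T p False E + tr T p True E : ℤ) : K) = -∑ k ∈ range (T.m - 1), ∑ l ∈ range T.d,
      ∑ v : Fin (T.N + 3) → E, ∑ x : E, if T.Layer p T.N v then
      ω (T.f (v 0) x) ^ ((k + 1) * D) * ω (aeval (v 0) T.κ) ^ (l * D') else 0 := by
  classical
  have hm : T.m ≠ 0 := fun e => Fintype.one_lt_card.ne' (by simpa [e] using hD)
  simp only [sum_comm (s := range T.d) (t := univ)]
  simp only [sum_comm (s := range (T.m - 1)) (t := univ), tr, ← sum_add_distrib, Int.cast_sum]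
  rw [← sum_neg_distrib]
  refine sum_congr rfl fun v _ => ?_
  by_cases h : T.Layer p T.N v
  swap
  · simp [h]
  have e : ∀ r, (((if T.Layer p T.N v ∧ r ^ T.d = aeval (v 0) T.κ ∧ (aeval (v 0) T.δ = 0 ↔ False)
      then (Fintype.card E : ℤ) - T.fibre (v 0) else 0) +
      if T.Layer p T.N v ∧ r ^ T.d = aeval (v 0) T.κ ∧ (aeval (v 0) T.δ = 0 ↔ True)
      then (Fintype.card E : ℤ) - T.fibre (v 0) else 0 : ℤ) : K) =
      (Fintype.card E - T.fibre (v 0)) * if r ^ T.d = aeval (v 0) T.κ then 1 else 0 := fun r => by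
    by_cases h1 : r ^ T.d = aeval (v 0) T.κ <;> by_cases h2 : aeval (v 0) T.δ = 0 <;>
      simp [h, h1, h2]
  rw [sum_congr rfl fun r _ => by convert e r]
  simp only [← mul_sum, ← card_eq_sum, card_roots_eq_sum hω hD', if_pos h, ← sum_mul]
  rw [← neg_mul, Tower.fibre, Nat.card_congr (Equiv.subtypeProdEquivSigmaSubtype fun x y =>
    y ^ T.m = T.f (v 0) x), Nat.card_sigma, Nat.cast_sum]
  obtain ⟨m, hm⟩ := Nat.exists_eq_succ_of_ne_zero hm
  simp only [card_roots_eq_sum hω hD]
  simp [hm, sum_range_succ', sum_add_distrib]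

end One

theorem f_map {R S : Type} [CommRing R] [Algebra F R] [CommRing S] [Algebra F S] (ψ : R →ₐ[F] S)
    (t x : R) : ψ (T.f t x) = T.f (ψ t) (ψ x) := by
  simp only [Tower.f, map_mul, map_prod, map_pow, map_sub, Polynomial.aeval_algHom_apply]

theorem Φ₁_map (b : Prop) (E E' : Type) [Field E] [Algebra F E] [Field E'] [Algebra F E']
    (f : E →ₐ[F] E') (u : _ → E) : Φ₁ T p b E' (f ∘ u) ↔ Φ₁ T p b E u := by
  have hf : Function.Injective f := f.injective
  simp only [Φ₁, Function.comp, layer_map T p f, Polynomial.aeval_algHom_apply, ← map_pow,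
    hf.eq_iff, map_eq_zero]

theorem Φ₂_map (b : Prop) (E E' : Type) [Field E] [Algebra F E] [Field E'] [Algebra F E']
    (f : E →ₐ[F] E') (u : _ → E) : Φ₂ T p b E' (f ∘ u) ↔ Φ₂ T p b E u := by
  have hf : Function.Injective f := f.injective
  refine and_congr (Φ₁_map T p b E E' f _) ?_
  simp only [Function.comp, ← f_map, ← map_pow, hf.eq_iff]

section Seq

variable [Fintype F] {E : ℕ → Type} [∀ n, Field (E n)] [∀ n, Algebra F (E n)] [∀ n, Fintype (E n)]

theorem Φ₁_ind {K : Type*} [Field K] {ω : ∀ n, E n →*₀ K}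
    (hE : ∀ n, Fintype.card (E n) = Fintype.card F ^ (n + 1)) (b : Prop) {σ : Type} (ι : _ → σ) :
    Ind F ω fun n u => Φ₁ T p b (E n) fun j => u (ι j) :=
  (layer_alg T p hE _ _).and ((Ind.eq hE (.X (ι (some none)) ^ T.d)
    (aeval (.X (ι (some (some 0)))) T.κ) fun n v => by simp [aeval_poly]).and
    ((Ind.eq hE (aeval (.X (ι (some (some 0)))) T.δ) 0 fun n v => by simp [aeval_poly]).iff b))

theorem Φ₂_ind {K : Type*} [Field K] {ω : ∀ n, E n →*₀ K}
    (hE : ∀ n, Fintype.card (E n) = Fintype.card F ^ (n + 1)) (b : Prop) :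
    Ind F ω fun n u => Φ₂ T p b (E n) u :=
  (Φ₁_ind T p hE b some).and (Ind.eq hE (.X none ^ T.m)
    (T.f (.X (some (some (some 0)))) (.X (some none))) fun n v => by simp [f_map])

omit [Fintype F] in
theorem tr_tendsto [Fact p.Prime] {q m' : ℕ} (hE : ∀ n, Fintype.card (E n) = q ^ (n + 1))
    (hm : q = T.m * m' + 1) (hc : T.c ≠ 0) (hd : T.d ≠ 0) (hδ : T.δ ≠ 0)
    (hφ : ∀ i, 0 < (T.φ i).natDegree)
    (hs : (∑ i, T.a i + ∑ i, T.b i * (T.φ i).natDegree).Coprime T.m) :
    Tendsto (fun n => (tr T p True (E n) : ℝ) * (q : ℝ)⁻¹ ^ (n + 1)) atTop (𝓝 0) := by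
  classical
  have hq : 1 < q := (Nat.one_lt_pow_iff one_ne_zero).1 ((hE 0) ▸ Fintype.one_lt_card)
  set B : ℝ := ((T.δ.natDegree * T.c * p ^ T.N * T.d : ℕ) : ℝ) with hB
  refine tendsto_zero_iff_abs_tendsto_zero _ |>.2 (tendsto_order.2 ⟨fun a h =>
    .of_forall fun n => h.trans_le (abs_nonneg _), fun a ha0 => ?_⟩)
  obtain ⟨Q, hQ⟩ := curve_count T.m _ hs (ε := a / (B + 1)) (by positivity)
  filter_upwards [eventually_ge_atTop (T.m * Q)] with n hn
  have e1 := (hE n).trans (card_eq_mul hm (n + 1))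
  generalize m' * ∑ j ∈ range (n + 1), q ^ j = D at *
  have hm0 : T.m ≠ 0 := fun e => Fintype.one_lt_card.ne' (by simpa [e] using e1)
  have hD : Q ≤ D := by
    have := Nat.lt_pow_self (n := n + 1) hq
    rw [← hE, e1] at this
    exact Nat.le_of_mul_le_mul_left (by omega) (Nat.pos_of_ne_zero hm0)
  have h1 : ∀ t : E n, aeval t T.h ≠ 0 → |(Fintype.card (E n) : ℝ) - T.fibre t| ≤
      a / (B + 1) * Fintype.card (E n) := fun t ht => by
    have h2 : (∏ i, (Polynomial.X - Polynomial.C (aeval t (T.g i))) ^ T.a i).Monic :=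
      Polynomial.monic_prod_of_monic _ _ fun i _ => (Polynomial.monic_X_sub_C _).pow _
    have h3 : ∀ i, (Polynomial.C t - (T.φ i).map (algebraMap F _)).natDegree =
        (T.φ i).natDegree := fun i => by
      rw [← Polynomial.natDegree_neg, neg_sub, Polynomial.natDegree_sub_C, Polynomial.natDegree_map]
    have h4 : ∀ i, (Polynomial.C t - (T.φ i).map (algebraMap F _)) ^ T.b i ≠ 0 := fun i =>
      pow_ne_zero _ fun e => (hφ i).ne' (by rw [← h3, e, Polynomial.natDegree_zero])
    have h5 := prod_ne_zero_iff.2 fun i (_ : i ∈ univ) => h4 i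
    have := hQ (E n) D e1 hD (Polynomial.C (aeval t T.h) * (_ * _))
      (mul_ne_zero (Polynomial.C_ne_zero.2 ht) (mul_ne_zero h2.ne_zero h5)) (by
        rw [Polynomial.natDegree_C_mul ht, Polynomial.natDegree_mul h2.ne_zero h5,
          Polynomial.natDegree_prod_of_monic _ _ fun i _ => (Polynomial.monic_X_sub_C _).pow _,
          Polynomial.natDegree_prod _ _ fun i _ => h4 i]
        simp [h3])
    rw [abs_sub_comm]
    simpa [Tower.fibre, Tower.f, Polynomial.eval_prod, Polynomial.eval_map_algebraMap,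
      -Nat.card_eq_fintype_card] using this
  have h2 : ∀ i (v : Fin (i + 3) → E n), T.Layer p i v → aeval (v 0) T.h ≠ 0 := fun i => by
    induction i with
    | zero => exact fun v h => right_ne_zero_of_mul (h.1.trans_ne one_ne_zero)
    | succ i ih => exact fun v h => ih _ h.1
  have h3 : (∑ v : Fin (T.N + 3) → E n, ∑ r : E n, if T.Layer p T.N v ∧ r ^ T.d = aeval (v 0) T.κ ∧
      (aeval (v 0) T.δ = 0 ↔ True) then 1 else 0) ≤ T.δ.natDegree * T.c * p ^ T.N * T.d := by
    refine le_trans ?_ (Nat.mul_le_mul_right _ (layer_card T p hc hδ (E := E n) T.N))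
    rw [sum_mul]
    refine sum_le_sum fun v _ => ?_
    split_ifs with h
    · simpa [h] using sum_pow_le hd (aeval (v 0) T.κ)
    · exact (sum_eq_zero fun x _ => if_neg (by tauto)).trans_le (Nat.zero_le _)
  have h4 : |(tr T p True (E n) : ℝ)| ≤ B * (a / (B + 1) * Fintype.card (E n)) := by
    refine le_trans ?_ (mul_le_mul_of_nonneg_right (Nat.cast_le.2 h3) (by positivity))
    simp only [tr, Int.cast_sum, Nat.cast_sum, sum_mul]
    refine (abs_sum_le_sum_abs _ _).trans (sum_le_sum fun v _ => (abs_sum_le_sum_abs _ _).trans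
      (sum_le_sum fun r _ => ?_))
    split_ifs with h
    · simpa using h1 _ (h2 _ _ h.1)
    · simp
  rw [Function.comp, abs_mul, inv_pow, abs_inv, ← Nat.cast_pow, ← hE, Nat.abs_cast,
    mul_inv_lt_iff₀ (by exact_mod_cast Fintype.card_pos)]
  refine h4.trans_lt ?_
  rw [← mul_assoc]
  refine mul_lt_mul_of_pos_right ?_ (by exact_mod_cast Fintype.card_pos)
  rw [← mul_div_assoc, div_lt_iff₀ (by positivity)]
  linarith

end Seq

theorem main [hp : Fact p.Prime] [Finite F] [CharP F p] (hm : T.m ∣ Nat.card F - 1)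
    (hd : T.d ∣ Nat.card F - 1) (hc : T.c ≠ 0) (hδ : T.δ ≠ 0) (ha : ∀ i, (T.a i).Coprime T.m)
    (hb : ∀ i, (T.b i).Coprime T.m)
    (hs : (∑ i, T.a i + ∑ i, T.b i * (T.φ i).natDegree).Coprime T.m) {e D : ℕ} (he : 0 < e)
    (hD : 0 < D) (hg : ∀ i, (T.g i).natDegree ≤ e)
    (hφ : ∀ i, 0 < (T.φ i).natDegree ∧ (T.φ i).natDegree ≤ D)
    (H : ∀ k l, ¬ T.m ∣ k → ∃ u, u.Coprime (T.m * T.d) ∧
      (∀ j, ∑ i, p ^ j * (u * k) * T.a i % T.m + D * ∑ i, p ^ j * (u * k) * T.b i % T.m < T.m) ∧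
      ∀ l', ∃ j, D * (T.c * T.d * (T.h.natDegree * (p ^ j * (u * k) % T.m) +
        e * (∑ i, p ^ j * (u * k) * T.a i % T.m + ∑ i, p ^ j * (u * k) * T.b i % T.m)) +
        T.c * T.m * T.κ.natDegree * (p ^ j * (u * l) % T.d) +
        T.m * T.d * T.ν.natDegree * (p ^ j * l' % T.c)) < T.m * T.d * T.c) {L : ℚ⟦X⟧}
    (hL : LD (X * mk fun n => (T.trace p (Extension F p (n + 1)) : ℚ)) L) :
    ∃ A B : Polynomial ℚ, A.eval (Nat.card F : ℚ)⁻¹ ≠ 0 ∧ B.eval (Nat.card F : ℚ)⁻¹ ≠ 0 ∧
      L * B = A := by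
  classical
  have := Fintype.ofFinite F
  let E : ℕ → Type := fun n => Extension F p (n + 1)
  have : ∀ n, Fintype (E n) := fun n => Fintype.ofFinite _
  have : ∀ n, CharP (E n) p := fun n => charP_of_injective_algebraMap (algebraMap F _).injective p
  have hE : ∀ n, Fintype.card (E n) = Fintype.card F ^ (n + 1) := fun n => by
    rw [Fintype.card_eq_nat_card, natCard_extension, Fintype.card_eq_nat_card]
  rw [Nat.card_eq_fintype_card] at *
  obtain ⟨f, -, hf⟩ := FiniteField.card F p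
  obtain ⟨ω, Ψ, hω, hM⟩ := exists_alg_data (p := p) F E hE
  have hq1 : 1 < Fintype.card F := Fintype.one_lt_card
  obtain ⟨m', hm⟩ := hm
  obtain ⟨d', hd⟩ := hd
  have hm0 : T.m ≠ 0 := fun e => by simp [e] at hm; omega
  have hd0 : T.d ≠ 0 := fun e => by simp [e] at hd; omega
  replace hm : Fintype.card F = T.m * m' + 1 := by omega
  replace hd : Fintype.card F = T.d * d' + 1 := by omega
  have h1 := fun b => hM _ _ (Φ₁_ind T p (ω := ω) hE b id)
  have h2 := fun b => hM _ _ (Φ₂_ind T p (ω := ω) hE b)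
  simp only [← card_eq_sum, id] at h1 h2
  have h3 : ∀ b, (X * mk fun n => (tr T p b (E n) : ℚ)) =
      (X * mk fun n => (Nat.card {u // Φ₁ T p b (E n) u} : ℚ)) -
      X * mk fun n => (Nat.card {u // Φ₂ T p b (E n) u} : ℚ) := fun b => by
    ext (_ | n) <;> simp [coeff_succ_X_mul, tr_eq, -Nat.card_eq_fintype_card]
  have hE' : ∀ n, Nat.card (E n) = Fintype.card F ^ (n + 1) := fun n => by
    rw [Nat.card_eq_fintype_card, hE]
  have h4 : ∀ b, IsRat (X * mk fun n => (tr T p b (E n) : ℚ)) := fun b => by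
    rw [h3, sub_eq_add_neg]
    exact (isRat_count Fintype.card_pos hE' _ (h1 b).quo).add
      (isRat_count Fintype.card_pos hE' _ (h2 b).quo).neg
  have h5 : Reg (Fintype.card F : ℚ)⁻¹ (X * mk fun n => (tr T p True (E n) : ℚ)) := by
    refine (h4 True).reg_of_map (algebraMap ℚ ℝ) (((h4 True).map _).reg_of_tendsto ?_)
    rw [← tendsto_add_atTop_iff_nat 1]
    simpa [map_X_mk, coeff_succ_X_mul] using tr_tendsto T p hE hm hc hd0 hδ (fun i => (hφ i).1) hs
  have h6 : Reg (Fintype.card F : ℚ)⁻¹ ((X * mk fun n => (tr T p False (E n) : ℚ)) +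
      X * mk fun n => (tr T p True (E n) : ℚ)) := by
    refine ((h4 False).add (h4 True)).reg_of_map (algebraMap ℚ ℂ_[p]) ?_
    let θ : ℕ → ℕ → ∀ n, (Option (Fin (T.N + 3)) → E n) → ℂ_[p] := fun k l n u =>
      if T.Layer p T.N fun j => u (some j) then
      ω n (T.f (u (some 0)) (u none)) ^ (k * (m' * ∑ j ∈ range (n + 1), Fintype.card F ^ j)) *
      ω n (aeval (u (some 0)) T.κ) ^ (l * (d' * ∑ j ∈ range (n + 1), Fintype.card F ^ j)) else 0
    have hθ : ∀ k l, θ k l ∈ Alg F ω _ := fun k l => (layer_alg T p hE _ _).ite (mul_mem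
      (Alg.char (T.f (.X (some 0)) (.X none)) (k * m') fun n v => by simp [f_map, mul_assoc])
      (Alg.char (aeval (.X (some 0)) T.κ) (l * d') fun n v => by simp [aeval_poly, mul_assoc]))
    have e1 : PowerSeries.map (algebraMap ℚ ℂ_[p]) ((X * mk fun n => (tr T p False (E n) : ℚ)) +
        X * mk fun n => (tr T p True (E n) : ℚ)) = -∑ k ∈ range (T.m - 1), ∑ l ∈ range T.d,
        X * mk fun n => ∑ u, θ (k + 1) l n u := by
      ext (_ | n)
      · simp
      simp only [map_add, map_X_mk, coeff_succ_X_mul, coeff_mk, map_neg, map_sum, map_intCast,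
        sum_option_fun, θ, Option.elim]
      rw [← Int.cast_add, tr_add T p (hω n).1.injective ((hE n).trans (card_eq_mul hm _))
        ((hE n).trans (card_eq_mul hd _))]
    rw [e1, eq_ratCast]
    refine Reg.neg (Reg.sum _ fun k hk => Reg.sum _ fun l hl => ?_)
    have hk' : ¬ T.m ∣ k + 1 := Nat.not_dvd_of_pos_of_lt k.succ_pos (by
      have := mem_range.1 hk; omega)
    obtain ⟨u, hu, hA, hH⟩ := H (k + 1) l hk'
    have hu0 : u ≠ 0 := by
      rintro rfl
      exact hk' (by rw [Nat.eq_one_of_mul_eq_one_right ((Nat.coprime_zero_left _).1 hu)]; simp)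
    have hum := Nat.Coprime.coprime_mul_right_right hu
    have hud := Nat.Coprime.coprime_mul_left_right hu
    have e2 : ∀ n v, θ (k + 1) l n v ^ u = θ (u * (k + 1)) (u * l) n v := fun n v => by
      simp only [θ]
      split_ifs
      · simp only [mul_pow, ← pow_mul, mul_comm _ u, mul_assoc]
      · exact zero_pow hu0
    have e3 : ∀ n (z : E n) (a b c : ℕ), Fintype.card (E n) = a * b + 1 →
        ω n z ^ (c * b) = 0 ∨ (ω n z ^ (c * b)) ^ a = 1 := fun n z a b c h => by
      rcases eq_or_ne z 0 with rfl | hz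
      · rcases eq_or_ne (c * b) 0 with e | e <;> simp [e]
      · right
        rw [← pow_mul, mul_assoc, mul_comm c, pow_mul, ← map_pow, mul_comm,
          show a * b = Fintype.card (E n) - 1 by omega, pow_card_sub_one_eq_one z hz, map_one,
          one_pow]
    refine reg_conj_sum Fintype.card_pos hE (mul_ne_zero hm0 hd0) hu hu0 _ (fun n v => ?_)
      (fun j => hM _ _ (pow_mem (hθ _ _) _)) ?_
    · simp only [θ]
      split_ifs
      · rcases e3 n _ _ _ (k + 1) ((hE n).trans (card_eq_mul hm _)) with h | h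
        · exact .inl (mul_eq_zero_of_left h _)
        rcases e3 n _ _ _ l ((hE n).trans (card_eq_mul hd _)) with h' | h'
        · exact .inl (mul_eq_zero_of_right _ h')
        right
        rw [mul_pow, pow_mul, h, mul_comm T.m, pow_mul _ T.d, h', one_pow, one_pow, one_mul]
      · exact .inl rfl
    simp only [e2]
    simpa only [sum_option_fun, θ, Option.elim, Rat.cast_inv, Rat.cast_natCast] using decay T hE hf f.ne_zero hm hd hc hω he hD hg (fun i => (hφ i).2)
      (fun i h => hk' (hum.symm.dvd_of_dvd_mul_left ((ha i).symm.dvd_of_dvd_mul_right h)))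
      (fun i h => hk' (hum.symm.dvd_of_dvd_mul_left ((hb i).symm.dvd_of_dvd_mul_right h)))
      (fun h => hk' (hum.symm.dvd_of_dvd_mul_left h)) (fun h => by
        rw [Nat.eq_zero_of_dvd_of_lt (hud.symm.dvd_of_dvd_mul_left h) (mem_range.1 hl), mul_zero])
      hA hH
  obtain ⟨U, V, hV, hU⟩ := h6.add h5.neg
  simp only [trace_eq] at hL
  obtain ⟨Z₁, hZ₁⟩ := exists_ld (w := X * mk fun n => (Nat.card {u // Φ₁ T p False (E n) u} : ℚ))
    (by simp)
  obtain ⟨Z₂, hZ₂⟩ := exists_ld (w := X * mk fun n => (Nat.card {u // Φ₂ T p False (E n) u} : ℚ))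
    (by simp)
  obtain ⟨P, B, hB, hP⟩ := hZ₁.isRat_sub hZ₂ (h3 False ▸ hL)
    (isRat_zeta F _ (Φ₁_map T p False) hZ₁ (h1 False))
    (isRat_zeta F _ (Φ₂_map T p False) hZ₂ (h2 False))
  exact hL.regular (by positivity) hV (by rwa [add_neg_cancel_right] at hU) hB hP

end Pool.Agent.Work.MP_60d5ce_nt
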