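import Pool.Agent.Work.MP_60d5ce_nt.H9Example
import Pool.Agent.Work.MP_60d5ce_nt.H9PDefs

/-!
The weight hypothesis of `PencilRank` holds for `m` prime, `p = 1` modulo `m` and small degrees.
-/

namespace Pool.Agent.Work.MP_60d5ce_nt

theorem pencil_small {F : Type} [Field F] (P : Pencil F) {p f e D : ℕ} (hf : 0 < f) (hm : P.m.Prime)
    (hp : p ≡ 1 [MOD P.m]) (H : D * (e * (∑ i, P.a i + ∑ i, P.b i) + P.h.natDegree) < P.m) (k : ℕ)
    (hk : ¬ P.m ∣ k) : ∃ u : ℕ, u.Coprime P.m ∧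
      ((Finset.range f).filter fun j =>
        1 ≤ P.A D (p ^ j * u * k) ∧ (e : ℚ) + 1 ≤ P.W e D (p ^ j * u * k)).card <
      ((Finset.range f).filter fun j => P.W e D (p ^ j * u * k) < 1).card := by
  obtain ⟨u, -, hu⟩ := Nat.exists_mul_mod_eq_one_of_coprime
    ((Nat.Prime.coprime_iff_not_dvd hm).2 hk).symm hm.one_lt
  have h1 : u * k ≡ 1 [MOD P.m] := by rw [Nat.ModEq, mul_comm, hu, Nat.mod_eq_of_lt hm.one_lt]
  have h3 : ∀ j c, p ^ j * u * k * c ≡ c [MOD P.m] := fun j c => by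
    simpa [mul_assoc] using ((hp.pow j).mul h1).mul_right c
  have h4 : ∀ {n} (c : Fin n → ℕ) j, ∑ i, Int.fract (((p ^ j * u * k : ℕ) : ℚ) * c i / P.m) ≤
      (∑ i, c i : ℕ) / P.m := fun c j => by
    rw [Nat.cast_sum, Finset.sum_div]
    exact Finset.sum_le_sum fun i _ => by exact_mod_cast fract_le (h3 j (c i))
  have h5 : ∀ j, P.W e D (p ^ j * u * k) < 1 := fun j => by
    have h6 := fract_le (mul_one (p ^ j * u * k) ▸ h3 j 1)
    refine lt_of_le_of_lt (mul_le_mul_of_nonneg_left (add_le_add (mul_le_mul_of_nonneg_left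
      (add_le_add (h4 _ j) (h4 _ j)) (by positivity)) (mul_le_mul_of_nonneg_left h6
        (by positivity))) (by positivity)) ?_
    simp only [← add_div, ← mul_div_assoc]
    rw [div_lt_one (Nat.cast_pos.2 hm.pos)]
    exact_mod_cast (mul_one P.h.natDegree).symm ▸ H
  refine ⟨u, Nat.coprime_of_mul_modEq_one k h1, ?_⟩
  rw [Finset.filter_true_of_mem fun j _ => h5 j, Finset.filter_false_of_mem fun j _ h =>
    (h5 j).not_ge ((le_add_of_nonneg_left (by positivity)).trans h.2)]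
  simpa

end Pool.Agent.Work.MP_60d5ce_nt
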