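import Pool.Agent.Lib.Dwork.Reg

/-!
Zeta functions of finite schemes.
-/

namespace Pool.Agent.Work.MP_60d5ce_nt

open Finset hiding mk
open PowerSeries Pool.Agent.Lib.Dwork FiniteField

theorem reg_period {q : ℚ} (hq : q ≠ 0) {r : ℕ} (hr : r ≠ 0) :
    Reg q⁻¹ (X * mk fun n => q ^ (n + 1) * ((if r ∣ n + 1 then r else 0 : ℕ) - 1)) := by
  have h1 : (1 - (C q * X) ^ r) * (X * mk fun n => q ^ (n + 1) * (if r ∣ n + 1 then r else 0 : ℕ)) =
      C (r : ℚ) * (C q * X) ^ r := by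
    ext (_ | n)
    · simp [hr]
    simp only [sub_mul, one_mul, mul_pow, ← map_pow, mul_assoc, map_sub, coeff_C_mul,
      coeff_X_pow_mul', coeff_succ_X_mul, coeff_mk, coeff_X_pow]
    rcases lt_trichotomy (n + 1) r with h | rfl | h
    · simp [h.ne, h.not_ge, Nat.not_dvd_of_pos_of_lt n.succ_pos h]
    · simp [mul_comm]
    · obtain ⟨k, rfl⟩ : ∃ k, n = k + r := ⟨n - r, by omega⟩
      rw [if_pos h.le, if_neg h.ne', show k + r + 1 - r = k + 1 by omega, coeff_succ_X_mul, coeff_mk,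
        add_right_comm]
      simp only [Nat.dvd_add_self_right]
      ring
  have h2 : (1 - C q * X) * (X * mk fun n => q ^ (n + 1)) = C q * X := by
    convert geom_mul q using 2
    ext (_ | n) <;> simp [coeff_succ_X_mul]
  have h3 := mul_neg_geom_sum (C q * X : ℚ⟦X⟧) r
  have h4 : (C q⁻¹ : ℚ⟦X⟧) * C q = 1 := by rw [← map_mul, inv_mul_cancel₀ hq, map_one]
  refine (reg_iff_dvd (a := 1) (V := ∑ i ∈ range r, (.C q * .X) ^ i)
    (P := -.C q⁻¹ * (.C (r : ℚ) * (.C q * .X) ^ r - .C q * .X * ∑ i ∈ range r, (.C q * .X) ^ i))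
    (by simp [Polynomial.eval_finsetSum, hq, hr]) ?_).2 ?_
  · have e : (X * mk fun n => q ^ (n + 1) * ((if r ∣ n + 1 then r else 0 : ℕ) - 1)) =
        (X * mk fun n => q ^ (n + 1) * (if r ∣ n + 1 then r else 0 : ℕ)) -
          X * mk fun n => q ^ (n + 1) := by
      ext (_ | n) <;> simp [coeff_succ_X_mul, mul_sub]
    simp only [e, ← Polynomial.coeToPowerSeries.ringHom_apply, map_mul, map_sub, map_pow, map_sum,
      map_neg]
    simp only [Polynomial.coeToPowerSeries.ringHom_apply, Polynomial.coe_C, Polynomial.coe_X]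
    generalize (X * mk fun n => q ^ (n + 1) * (if r ∣ n + 1 then r else 0 : ℕ) : ℚ⟦X⟧) = a at *
    generalize (X * mk fun n => q ^ (n + 1) : ℚ⟦X⟧) = b at *
    generalize ∑ i ∈ range r, (C q * X : ℚ⟦X⟧) ^ i = S at *
    linear_combination (-C q⁻¹) * h1 + C q⁻¹ * S * h2 - C q⁻¹ * a * h3 - X * S * (a - b) * h4
  · rw [pow_one, Polynomial.dvd_iff_isRoot]
    simp [Polynomial.eval_finsetSum, hq]

variable {k B : Type} [Field k] [CommRing B] [Algebra k B] [Algebra.FiniteType k B]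
  (Q : Ideal B → Prop)

theorem card_hom [Fintype {M : Ideal B // M.IsMaximal ∧ Q M}] (E : Type) [Field E] [Algebra k E]
    [Finite E] : Nat.card {ψ : B →ₐ[k] E // Q (RingHom.ker ψ)} =
      ∑ M : {M : Ideal B // M.IsMaximal ∧ Q M}, if Module.finrank k (B ⧸ M.1) ∣ Module.finrank k E
        then Module.finrank k (B ⧸ M.1) else 0 := by
  have h1 : ∀ (M : {M : Ideal B // M.IsMaximal ∧ Q M}) (ψ : (B ⧸ M.1) →ₐ[k] E),
      RingHom.ker (ψ.comp (Ideal.Quotient.mkₐ k M.1)) = M.1 := fun M ψ =>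
    (M.2.1.eq_of_le (RingHom.ker_ne_top _) fun z hz => by
      simp [RingHom.mem_ker, Ideal.Quotient.eq_zero_iff_mem.2 hz]).symm
  have h2 : ∀ M : {M : Ideal B // M.IsMaximal ∧ Q M}, Finite ((B ⧸ M.1) →ₐ[k] E) := fun M => by
    have := M.2.1
    let := Ideal.Quotient.field M.1
    have := finite_of_finite_type_of_isJacobsonRing k (B ⧸ M.1)
    infer_instance
  rw [← Nat.card_congr (Equiv.ofBijective (fun x : Σ M : {M : Ideal B // M.IsMaximal ∧ Q M},
    (B ⧸ M.1) →ₐ[k] E => (⟨x.2.comp (Ideal.Quotient.mkₐ k x.1.1), (h1 _ _).symm ▸ x.1.2.2⟩ :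
      {ψ : B →ₐ[k] E // Q (RingHom.ker ψ)})) ⟨?_, fun ⟨ψ, hψ⟩ => ?_⟩), Nat.card_sigma]
  · refine sum_congr rfl fun M _ => ?_
    have := M.2.1
    let := Ideal.Quotient.field M.1
    split_ifs with h
    · exact natCard_algHom_of_finrank_dvd h
    · rw [← nonempty_algHom_iff_finrank_dvd, not_nonempty_iff] at h
      exact Nat.card_of_isEmpty
  · rintro ⟨M, ψ⟩ ⟨N, φ⟩ h
    replace h := congrArg Subtype.val h
    obtain rfl : M = N := Subtype.ext ((h1 M ψ).symm.trans ((congrArg _ h).trans (h1 N φ)))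
    exact congrArg _ (Ideal.Quotient.algHom_ext k h)
  · have := RingHom.ker_isPrime ψ
    have := Finite.of_injective _ (Ideal.kerLiftAlg_injective ψ)
    exact ⟨⟨⟨_, Ideal.Quotient.maximal_of_isField _ (Finite.isField_of_domain _), hψ⟩,
      Ideal.kerLiftAlg ψ⟩, Subtype.ext (AlgHom.ext fun z => Ideal.kerLiftAlg_mk ψ z)⟩

theorem reg_hom [Finite k] (p : ℕ) [Fact p.Prime] [CharP k p]
    [Finite {M : Ideal B // M.IsMaximal ∧ Q M}] {q : ℚ} (hq : q ≠ 0) :
    Reg q⁻¹ (X * mk fun n => q ^ (n + 1) *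
      (Nat.card {ψ : B →ₐ[k] Extension k p (n + 1) // Q (RingHom.ker ψ)} -
        Nat.card {M : Ideal B // M.IsMaximal ∧ Q M})) := by
  have := Fintype.ofFinite {M : Ideal B // M.IsMaximal ∧ Q M}
  convert Reg.sum univ fun (M : {M : Ideal B // M.IsMaximal ∧ Q M}) _ =>
    reg_period hq (r := Module.finrank k (B ⧸ M.1)) (by
      have := M.2.1
      let := Ideal.Quotient.field M.1
      have := finite_of_finite_type_of_isJacobsonRing k (B ⧸ M.1)
      exact Module.finrank_pos.ne')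
  ext (_ | n)
  · simp
  simp only [coeff_succ_X_mul, coeff_mk, map_sum, card_hom, finrank_extension, ← mul_sum,
    sum_sub_distrib, Nat.cast_sum]
  simp

end Pool.Agent.Work.MP_60d5ce_nt
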