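import Pool.Agent.Work.MP_60d5ce_nt.H9Deg
import Pool.Agent.Work.MP_60d5ce_nt.H9Fam
import Pool.Agent.Work.MP_60d5ce_nt.H9Zero

/-!
The order of vanishing of the `L`-series of a pencil.
-/

namespace Pool.Agent.Work.MP_60d5ce_nt

open Finset hiding mk
open PowerSeries hiding aeval map_eq_zero
open Pool.Agent.Lib.Dwork Filter Topology FiniteField
open Polynomial (aeval aevalAeval)

variable {F : Type} [Field F] (P : Pencil F)

theorem LD.pow {R : Type*} [CommRing R] {w Z : R⟦X⟧} (h : LD w Z) (n : ℕ) :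
    LD ((n : R⟦X⟧) * w) (Z ^ n) := by
  induction n with
  | zero => simpa using LD.one
  | succ n ih => simpa only [Nat.cast_succ, add_mul, one_mul, pow_succ] using ih.mul h

section One

variable (E : Type) [Field E] [Fintype E] [Algebra F E]

omit [Fintype E] in
theorem aevalAeval_Φ (u w : E) :
    aevalAeval u w (P.Φ (R := Polynomial (Polynomial F)) (.C .X) .X) = P.Φ u w := by
  rw [Φ_map]; simp

omit [Fintype E] in
theorem aevalAeval_f (T : Tower F) (u w : E) :
    aevalAeval u w (T.f (R := Polynomial (Polynomial F)) (.C .X) .X) = T.f u w := by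
  rw [f_map]; simp

theorem ptrace_eq : P.trace E = fam P.m (P.Φ (.C .X) .X) P.δ False E := by
  classical
  rw [Pencil.trace, finsum_subtype _ fun u : E =>
    (Nat.card E : ℤ) - Nat.card {z : E × E // z.2 ^ P.m = P.Φ u z.1}, fam]
  simp only [iff_false, aevalAeval_Φ, sum_fibre, Nat.card_eq_fintype_card (α := E)]

theorem fam_pencil : fam P.m (P.Φ (.C .X) .X) P.δ False E + fam P.m (P.Φ (.C .X) .X) P.δ True E =
    fam P.m (P.tower.f (.C .X) .X) P.c False E + Fintype.card E *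
      (Nat.card {ψ : Polynomial F →ₐ[F] E // P.c ∈ RingHom.ker ψ} -
      Nat.card {ψ : Polynomial (Polynomial F) →ₐ[F] E // .C P.c ∈ RingHom.ker ψ ∧
        .X ^ P.m - .C (P.Φ 0 .X) ∈ RingHom.ker ψ}) := by
  classical
  rw [← Nat.card_congr ((Polynomial.aevalEquiv F E).subtypeEquiv
    (p := fun w => aeval w P.c = 0) fun w => Iff.rfl),
    ← Nat.card_congr ((Polynomial.aevalAevalEquiv F E).subtypeEquiv
    (p := fun z => aeval z.1 P.c = 0 ∧ z.2 ^ P.m = P.Φ 0 z.1) fun z => by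
      simp [RingHom.mem_ker, sub_eq_zero, Φ_map]), fam_add, sum_comm, fam]
  simp only [card_eq_sum, Fintype.sum_prod_type, ← sum_sub_distrib, mul_sum, ← sum_add_distrib,
    aevalAeval_Φ, aevalAeval_f]
  refine sum_congr rfl fun w _ => ?_
  by_cases h : aeval w P.c = 0
  · simp [h, Φ_zero P h, mul_sub]
  · simp only [h, if_true, if_false, false_and, sum_const_zero, sub_self, mul_zero, add_zero]
    exact ((Equiv.mulRight₀ _ h).trans (Equiv.addRight (aeval w P.G))).sum_comp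
      fun x => (1 : ℤ) - ∑ y, if y ^ P.m = P.tower.f w x then 1 else 0

end One

theorem pencil_main (p : ℕ) [hp : Fact p.Prime] [Finite F] [CharP F p] {f e D : ℕ}
    (hf : Nat.card F = p ^ f) (hm : P.m ∣ Nat.card F - 1) (hh : P.h ≠ 0) (hc : P.c ≠ 0)
    (hδ : P.δ ≠ 0) (ha : ∀ i, (P.a i).Coprime P.m) (hb : ∀ i, (P.b i).Coprime P.m)
    (hs : (∑ i, P.a i + ∑ i, P.b i * (P.φ i).natDegree).Coprime P.m)
    (hs' : (P.h.natDegree +
      P.G.natDegree * (∑ i, P.a i + ∑ i, P.b i * (P.φ i).natDegree)).Coprime P.m)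
    (he : 0 < e) (hD : 0 < D) (hg : ∀ i, (P.g i).natDegree ≤ e)
    (hφ : ∀ i, 0 < (P.φ i).natDegree ∧ (P.φ i).natDegree ≤ D) (hG : e < P.G.natDegree)
    (hcG : P.c.natDegree < P.G.natDegree) (A W : ℕ → ℕ)
    (hA : ∀ k, A k = ∑ i, k * P.a i % P.m + D * ∑ i, k * P.b i % P.m)
    (hW : ∀ k, W k = D * (e * (∑ i, k * P.a i % P.m + ∑ i, k * P.b i % P.m) +
      P.h.natDegree * (k % P.m)))
    (H : ∀ k, ¬ P.m ∣ k → ∃ u, u.Coprime P.m ∧
      #{j ∈ range f | P.m ≤ A (p ^ j * (u * k)) ∧ (e + 1) * P.m ≤ W (p ^ j * (u * k))} <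
      #{j ∈ range f | W (p ^ j * (u * k)) < P.m})
    [Finite {M : Ideal (Polynomial F) // M.IsMaximal ∧ P.c ∈ M}]
    [Finite {M : Ideal (Polynomial (Polynomial F)) // M.IsMaximal ∧ .C P.c ∈ M ∧
      .X ^ P.m - .C (P.Φ 0 .X) ∈ M}] {ρ : ℕ}
    (hρ : ρ + Nat.card {M : Ideal (Polynomial F) // M.IsMaximal ∧ P.c ∈ M} =
      Nat.card {M : Ideal (Polynomial (Polynomial F)) // M.IsMaximal ∧ .C P.c ∈ M ∧
        .X ^ P.m - .C (P.Φ 0 .X) ∈ M}) {L : ℚ⟦X⟧}
    (hL : LD (X * mk fun n => (P.trace (Extension F p (n + 1)) : ℚ)) L) :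
    ∃ A B : Polynomial ℚ, A.eval (Nat.card F : ℚ)⁻¹ ≠ 0 ∧ B.eval (Nat.card F : ℚ)⁻¹ ≠ 0 ∧
      L * (B : ℚ⟦X⟧) = (1 - C (Nat.card F : ℚ) * X) ^ ρ * (A : ℚ⟦X⟧) := by
  classical
  have := Fintype.ofFinite F
  let E : ℕ → Type := fun n => Extension F p (n + 1)
  have : ∀ n, Fintype (E n) := fun n => Fintype.ofFinite _
  have : ∀ n, CharP (E n) p := fun n => charP_of_injective_algebraMap (algebraMap F _).injective p
  have hE : ∀ n, Fintype.card (E n) = Fintype.card F ^ (n + 1) := fun n => by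
    rw [Fintype.card_eq_nat_card, natCard_extension, Fintype.card_eq_nat_card]
  rw [Nat.card_eq_fintype_card (α := F)] at *
  obtain ⟨ω, Ψ, hω, hM⟩ := exists_alg_data (p := p) F E hE
  have hq1 : 1 < Fintype.card F := Fintype.one_lt_card
  have hq0 : (Fintype.card F : ℚ) ≠ 0 := by positivity
  obtain ⟨m', hm⟩ := hm
  have hm0 : P.m ≠ 0 := fun e => by simp [e] at hm; omega
  replace hm : Fintype.card F = P.m * m' + 1 := by omega
  have h1 := fun δ b => hM _ _ (Ω₁_ind δ (ω := ω) hE b)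
  have h2 := fun Φ δ b => hM _ _ (Ω₂_ind P.m Φ δ (ω := ω) hE b)
  simp only [← card_eq_sum] at h1 h2
  have h3 : ∀ Φ (δ : Polynomial F) b, (X * mk fun n => (fam P.m Φ δ b (E n) : ℚ)) =
      (X * mk fun n => (Nat.card {u // Ω₁ δ b (E n) u} : ℚ)) -
      X * mk fun n => (Nat.card {u // Ω₂ P.m Φ δ b (E n) u} : ℚ) := fun Φ δ b => by
    ext (_ | n) <;> simp [coeff_succ_X_mul, fam_eq, -Nat.card_eq_fintype_card]
  have hE' : ∀ n, Nat.card (E n) = Fintype.card F ^ (n + 1) := fun n => by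
    rw [Nat.card_eq_fintype_card, hE]
  have h4 : ∀ Φ (δ : Polynomial F) b, IsRat (X * mk fun n => (fam P.m Φ δ b (E n) : ℚ)) :=
    fun Φ δ b => by
      rw [h3, sub_eq_add_neg]
      exact (isRat_count Fintype.card_pos hE' _ (h1 δ b).quo).add
        (isRat_count Fintype.card_pos hE' _ (h2 Φ δ b).quo).neg
  have h5 : ∀ (Φ : Polynomial (Polynomial F)) (δ : Polynomial F) (d : ℕ), δ ≠ 0 → d.Coprime P.m →
      (∀ n (s : E n), Φ.map (aeval s).toRingHom = 0 ∨ (Φ.map (aeval s).toRingHom).natDegree = d) →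
      Reg (Fintype.card F : ℚ)⁻¹ (X * mk fun n => (fam P.m Φ δ True (E n) : ℚ)) :=
    fun Φ δ d hδ hd h => by
      refine (h4 _ _ True).reg_of_map (algebraMap ℚ ℝ) (((h4 _ _ True).map _).reg_of_tendsto ?_)
      rw [← tendsto_add_atTop_iff_nat 1]
      simpa [map_X_mk, coeff_succ_X_mul] using fam_tendsto P.m Φ δ hE hm hδ hd h
  have h6 := h5 (P.Φ (.C .X) .X) _ _ hδ hs' fun n s => .inr (by
    refine .trans (congrArg _ ((Φ_map P (Polynomial.mapAlgHom (aeval s)) _ _).trans ?_))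
      (Φ_deg P hh he hg (fun i => (hφ i).1) hG hcG s).2
    simp)
  have h7 := h5 (P.tower.f (.C .X) .X) _ _ hc hs fun n s => by
    have e1 : (P.tower.f (.C .X) .X : Polynomial (Polynomial F)).map (aeval s).toRingHom =
        P.tower.f (.C s) .X := (f_map P.tower (Polynomial.mapAlgHom (aeval s)) _ _).trans (by simp)
    rw [e1]
    by_cases h : aeval s P.tower.h = 0
    · left
      rw [Tower.f, show aeval (Polynomial.C s) P.tower.h = .C (aeval s P.tower.h) from
        Polynomial.aeval_algHom_apply (Polynomial.CAlgHom (R := F)) _ _, h, map_zero, zero_mul]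
    · exact .inr (f_deg P.tower (fun i => (hφ i).1) h)
  have h8 : Reg (Fintype.card F : ℚ)⁻¹
      ((X * mk fun n => (fam P.m (P.tower.f (.C .X) .X) P.c False (E n) : ℚ)) +
      X * mk fun n => (fam P.m (P.tower.f (.C .X) .X) P.c True (E n) : ℚ)) := by
    refine ((h4 _ _ False).add (h4 _ _ True)).reg_of_map (algebraMap ℚ ℂ_[p]) ?_
    let θ : ℕ → ∀ n, (Fin 2 → E n) → ℂ_[p] := fun k n u =>
      ω n (P.tower.f (u 0) (u 1)) ^ (k * (m' * ∑ j ∈ range (n + 1), Fintype.card F ^ j))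
    have hθ : ∀ k, θ k ∈ Alg F ω _ := fun k =>
      Alg.char (P.tower.f (.X 0) (.X 1)) (k * m') fun n v => by simp [θ, f_map, mul_assoc]
    have e1 : PowerSeries.map (algebraMap ℚ ℂ_[p])
        ((X * mk fun n => (fam P.m (P.tower.f (.C .X) .X) P.c False (E n) : ℚ)) +
        X * mk fun n => (fam P.m (P.tower.f (.C .X) .X) P.c True (E n) : ℚ)) =
        -∑ k ∈ range (P.m - 1), X * mk fun n => ∑ u, θ (k + 1) n u := by
      ext (_ | n)
      · simp
      simp only [map_add, map_X_mk, coeff_succ_X_mul, coeff_mk, map_neg, map_sum, map_intCast,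
        sum_fin_two, θ, Matrix.cons_val_zero, Matrix.cons_val_one]
      rw [← Int.cast_add, fam_add]
      obtain ⟨m, hm'⟩ := Nat.exists_eq_succ_of_ne_zero hm0
      simp only [Int.cast_sum, Int.cast_sub, Int.cast_natCast, aevalAeval_f,
        card_roots_eq_sum (hω n).1.injective ((hE n).trans (card_eq_mul hm _))]
      simp only [sum_comm (s := range (P.m - 1)) (t := univ), ← sum_neg_distrib]
      simp [hm', sum_range_succ']
    rw [e1, eq_ratCast]
    refine Reg.neg (Reg.sum _ fun k hk => ?_)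
    have hk' : ¬ P.m ∣ k + 1 := Nat.not_dvd_of_pos_of_lt k.succ_pos (by
      have := mem_range.1 hk; omega)
    obtain ⟨u, hu, hH⟩ := H (k + 1) hk'
    have hu0 : u ≠ 0 := by
      rintro rfl
      exact hk' (by rw [(Nat.coprime_zero_left _).1 hu]; simp)
    have e2 : ∀ n v, θ (k + 1) n v ^ u = θ (u * (k + 1)) n v := fun n v => by
      simp only [θ, ← pow_mul, mul_comm _ u, mul_assoc]
    refine reg_conj_sum Fintype.card_pos hE hm0 hu hu0 _ (fun n v => ?_)
      (fun j => hM _ _ (pow_mem (hθ _) _)) ?_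
    · simp only [θ]
      have h := (hE n).trans (card_eq_mul hm (n + 1))
      generalize m' * ∑ j ∈ range (n + 1), Fintype.card F ^ j = b at h ⊢
      generalize P.tower.f (v 0) (v 1) = z
      rcases eq_or_ne z 0 with rfl | hz
      · rcases eq_or_ne ((k + 1) * b) 0 with e | e <;> simp [e]
      · right
        rw [← pow_mul, mul_assoc, mul_comm (k + 1), pow_mul, ← map_pow, mul_comm,
          show P.m * b = Fintype.card (E n) - 1 by omega, pow_card_sub_one_eq_one z hz, map_one,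
          one_pow]
    simp only [e2]
    simpa only [sum_fin_two, θ, Matrix.cons_val_zero, Matrix.cons_val_one, Rat.cast_inv,
      Rat.cast_natCast] using decay_plane P.tower hE hf (by rintro rfl; simp at hH) hm hω he hD hg
      (fun i => (hφ i).2)
      (fun i h => hk' (hu.symm.dvd_of_dvd_mul_left ((ha i).symm.dvd_of_dvd_mul_right h)))
      (fun i h => hk' (hu.symm.dvd_of_dvd_mul_left ((hb i).symm.dvd_of_dvd_mul_right h)))
      (fun h => hk' (hu.symm.dvd_of_dvd_mul_left h)) _ _ (fun j => hA _) (fun j => hW _) hH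
  obtain ⟨U, V, hV, hU⟩ := (((h8.add h7.neg).add h6.neg).add
    (reg_hom (k := F) (fun M => P.c ∈ M) p hq0)).add
    (reg_hom (k := F) (fun M : Ideal (Polynomial (Polynomial F)) => .C P.c ∈ M ∧
      .X ^ P.m - .C (P.Φ 0 .X) ∈ M) p hq0).neg
  simp only [ptrace_eq] at hL
  obtain ⟨Z₁, hZ₁⟩ := exists_ld (w := X * mk fun n => (Nat.card {u // Ω₁ P.δ False (E n) u} : ℚ))
    (by simp)
  obtain ⟨Z₂, hZ₂⟩ := exists_ld (w := X * mk fun n =>
    (Nat.card {u // Ω₂ P.m (P.Φ (.C .X) .X) P.δ False (E n) u} : ℚ)) (by simp)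
  obtain ⟨Q, B, hB, hP⟩ := hZ₁.isRat_sub hZ₂ (h3 _ _ False ▸ hL)
    (isRat_zeta F _ (Ω₁_map P.δ False) hZ₁ (h1 _ False))
    (isRat_zeta F _ (Ω₂_map P.m _ P.δ False) hZ₂ (h2 _ _ False))
  generalize hw : (_ + -(X * PowerSeries.mk _) : ℚ⟦X⟧) = w at hU
  obtain ⟨L', hL'⟩ := exists_ld (w := w) (by simp [← hw])
  have h9 : L = (1 - C (Fintype.card F : ℚ) * X) ^ ρ * L' := by
    refine hL.unique ?_
    convert (LD.pow (ld_geom (Fintype.card F : ℚ)) ρ).mul hL'
    ext (_ | n)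
    · simp [← hw]
    have h10 := congrArg (Int.cast (R := ℚ)) (fam_pencil P (E n))
    rw [← hw, ← map_natCast (C (R := ℚ))]
    simp only [map_add, map_neg, coeff_succ_X_mul, coeff_mk, coeff_C_mul, ← hρ, n.succ_ne_zero,
      if_false]
    push_cast [hE] at h10 ⊢
    linear_combination h10
  have h10 : ((1 - .C (Fintype.card F : ℚ) * .X : Polynomial ℚ) : ℚ⟦X⟧) =
      1 - C (Fintype.card F : ℚ) * X := by
    rw [Polynomial.coe_sub, Polynomial.coe_mul, Polynomial.coe_C, Polynomial.coe_X,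
      Polynomial.coe_one]
  obtain ⟨A', B', h11, h12, h13⟩ := hL'.regular (inv_ne_zero hq0) hV hU
    (B := B * (1 - .C (Fintype.card F : ℚ) * .X) ^ ρ) (A := Q) (mul_ne_zero hB (pow_ne_zero _
      fun e => by simpa using congrArg (Polynomial.eval 0) e)) (by
      rw [Polynomial.coe_mul, Polynomial.coe_pow, h10, mul_assoc, ← h9, hP])
  exact ⟨A', B', h11, h12, by rw [h9, mul_assoc, h13]⟩

end Pool.Agent.Work.MP_60d5ce_nt
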