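import Pool.Agent.Lib.Dwork.Ax

/-!
An estimate of Ax type for sums over the plane of products of characters of `x - g t`, `t - g x`
and `h t`.
-/

namespace Pool.Agent.Work.MP_60d5ce_nt

open Finset Pool.Agent.Lib.Dwork

variable {E : Type*} [Field E] [Fintype E] {K : Type*} [NormedField K] [IsUltrametricDist K]

/-- Monomials in the Teichmuller lifts whose coefficient is small when the exponents are large. -/
def Tm (ω : E →*₀ K) (p s e D : ℕ) (A B : ℕ → ℕ) : Set (E × E → K) :=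
  {φ | ∃ (c : K) (U W : ℕ) (u w a : ℕ → ℕ), ‖c‖ ≤ ‖(p : K)‖ ^ ∑ j ∈ range s, a j ∧
    (∀ j, (u j ≡ p ^ j * U [MOD p ^ s - 1] ∧ (U ≠ 0 → u j ≠ 0)) ∧
      (w j ≡ p ^ j * W [MOD p ^ s - 1] ∧ (W ≠ 0 → w j ≠ 0)) ∧
      (a j = 0 → u j ≤ A j ∧ e * u j + w j ≤ D * B j ∧ u j + D * w j ≤ D * B j) ∧
      (a j = 1 → e * u j + w j ≤ D * B j + e * (p ^ s - 1) ∨
        u j + D * w j ≤ D * B j + D * (p ^ s - 1) ∨ u j ≤ A j)) ∧
    φ = fun v => c * (ω v.1 ^ U * ω v.2 ^ W)}

/-- Sums of such monomials. -/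
def Ex (ω : E →*₀ K) (p s e D : ℕ) (A B : ℕ → ℕ) (φ : E × E → K) : Prop :=
  φ ∈ AddSubmonoid.closure (Tm ω p s e D A B)

variable {p : ℕ} {ω : E →*₀ K} {Ψ : AddChar E K} {s e D : ℕ} {A B A' B' : ℕ → ℕ}
  {φ φ' : E × E → K}

omit [Fintype E] [IsUltrametricDist K] in
theorem Ex.mul (h : Ex ω p s e D A B φ) (h' : Ex ω p s e D A' B' φ') :
    Ex ω p s e D (A + A') (B + B') (φ * φ') := by
  have h0 := AddSubmonoid.mul_mem_mul h h'
  rw [AddSubmonoid.closure_mul_closure] at h0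
  refine AddSubmonoid.closure_mono ?_ h0
  rintro _ ⟨_, ⟨c, U, W, u, w, a, h1, h2, rfl⟩, _, ⟨c', U', W', u', w', a', h1', h2', rfl⟩, rfl⟩
  refine ⟨c * c', U + U', W + W', u + u', w + w', a + a', ?_, fun j => ?_, ?_⟩
  · rw [norm_mul]
    refine (mul_le_mul h1 h1' (norm_nonneg _) (by positivity)).trans_eq ?_
    rw [← pow_add, ← sum_add_distrib]
    rfl
  · obtain ⟨⟨e1, e2⟩, ⟨e3, e4⟩, e5, e6⟩ := h2 j
    obtain ⟨⟨f1, f2⟩, ⟨f3, f4⟩, f5, f6⟩ := h2' j
    simp only [Pi.add_apply, mul_add] at *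
    exact ⟨⟨e1.add f1, by omega⟩, ⟨e3.add f3, by omega⟩, by omega, by omega⟩
  · ext v
    simp only [Pi.mul_apply]
    ring

omit [Fintype E] [IsUltrametricDist K] in
theorem Ex.prod {ι : Type*} (t : Finset ι) {A B : ι → ℕ → ℕ} {φ : ι → E × E → K}
    (h : ∀ i, Ex ω p s e D (A i) (B i) (φ i)) :
    Ex ω p s e D (∑ i ∈ t, A i) (∑ i ∈ t, B i) (∏ i ∈ t, φ i) := by
  classical
  induction t using Finset.induction_on with
  | empty =>
    exact AddSubmonoid.subset_closure ⟨1, 0, 0, 0, 0, 0, by simp, by simp [Nat.ModEq],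
      by ext; simp⟩
  | insert i t hi ih =>
    rw [sum_insert hi, sum_insert hi, prod_insert hi]
    exact (h i).mul ih

variable [hp : Fact p.Prime] [CharP E p]

theorem ex_base (h : Std p ω Ψ) (hs : Fintype.card E = p ^ s) {U : Type} [Fintype U] (z : U → E)
    (dx dt : U → ℕ) (δ H : ℕ) (h1 : ∀ u, dx u ≤ δ) (h2 : ∀ u, e * dx u + dt u ≤ D * H)
    (h3 : ∀ u, dx u + D * dt u ≤ D * H) (h4 : (∀ u, e * dx u + dt u ≤ e) ∧ e ≤ D * H ∨
      (∀ u, dx u + D * dt u ≤ D) ∧ D ≤ D * H ∨ δ = 0) (α : ℕ) :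
    Ex ω p s e D (fun j => δ * rs (p ^ s - 1) (p ^ j * α)) (fun j => H * rs (p ^ s - 1) (p ^ j * α))
      fun v => ω (∑ u, z u * (v.1 ^ dx u * v.2 ^ dt u)) ^ α := by
  classical
  have hN := pred_pos hs
  have hp0 := h.norm_p.1
  obtain ⟨ϱ, h0, hϱ⟩ : ∃ ϱ : ℝ, 0 < ϱ ∧ ϱ ^ (p ^ s - 1) = ‖(p : K)‖ :=
    ⟨‖(p : K)‖ ^ ((p ^ s - 1 : ℕ) : ℝ)⁻¹, by positivity, Real.rpow_inv_natCast_pow hp0.le hN.ne'⟩
  obtain ⟨c, hc1, hc2, hc3⟩ := h.multinomial hs hϱ h0 U α
  simp only [hc3]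
  rw [← Finset.sum_fn]
  refine sum_mem fun k _ => ?_
  by_cases hk : c k = 0
  · simp only [hk, zero_mul]
    exact zero_mem _
  obtain ⟨e1, e2⟩ := hc1 k hk
  have e3 : ∀ j, ∃ n, ∑ u, rs (p ^ s - 1) (p ^ j * k u) =
      rs (p ^ s - 1) (p ^ j * α) + n * (p ^ s - 1) := fun j => by
    have e4 : ∑ u, rs (p ^ s - 1) (p ^ j * k u) ≡ p ^ j * α [MOD p ^ s - 1] := by
      refine (Nat.ModEq.sum fun u _ => rs_modEq _ _).trans ?_
      rw [← mul_sum]
      exact e1.mul_left _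
    have e5 := rs_le_of e4 fun h3 h4 => e2 (right_ne_zero_of_mul h3) (sum_eq_zero fun u _ =>
      by_contra fun h5 => rs_ne_zero (mul_ne_zero (left_ne_zero_of_mul h3) h5)
        (sum_eq_zero_iff.1 h4 u (mem_univ _)))
    obtain ⟨n, hn⟩ := (Nat.modEq_iff_dvd' e5).1 ((rs_modEq _ _).trans e4.symm)
    exact ⟨n, by rw [mul_comm n, ← hn]; omega⟩
  choose n hn using e3
  have e4 : ∀ (d : U → ℕ) (j : ℕ), ∑ u, rs (p ^ s - 1) (p ^ j * k u) * d u ≡
      p ^ j * ∑ u, k u * d u [MOD p ^ s - 1] ∧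
      (∑ u, k u * d u ≠ 0 → ∑ u, rs (p ^ s - 1) (p ^ j * k u) * d u ≠ 0) := fun d j => by
    refine ⟨?_, fun h3 h4 => h3 (sum_eq_zero fun u _ => by_contra fun h5 => ?_)⟩
    · simp only [mul_sum, ← mul_assoc]
      exact Nat.ModEq.sum fun u _ => (rs_modEq _ _).mul_right _
    · exact mul_ne_zero (rs_ne_zero (mul_ne_zero (pow_ne_zero _ hp.out.ne_zero)
        (left_ne_zero_of_mul h5))) (right_ne_zero_of_mul h5) (sum_eq_zero_iff.1 h4 u (mem_univ _))
  have e5 : ∀ (j a b H : ℕ), (∀ u, a * dx u + b * dt u ≤ H) →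
      a * ∑ u, rs (p ^ s - 1) (p ^ j * k u) * dx u + b * ∑ u, rs (p ^ s - 1) (p ^ j * k u) * dt u ≤
      H * rs (p ^ s - 1) (p ^ j * α) + H * (n j * (p ^ s - 1)) := fun j a b H h => by
    rw [← mul_add, ← hn, mul_sum, mul_sum, mul_sum, ← sum_add_distrib]
    exact sum_le_sum fun u _ => by
      rw [mul_left_comm, mul_left_comm b, ← mul_add, mul_comm H]
      exact Nat.mul_le_mul_left _ (h u)
  refine AddSubmonoid.subset_closure ⟨c k * ∏ u, ω (z u) ^ (k u).1, ∑ u, k u * dx u,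
    ∑ u, k u * dt u, _, _, n, ?_, fun j => ⟨e4 dx j, e4 dt j, fun e => ?_, fun e => ?_⟩, ?_⟩
  · have e5 := hc2 k
    simp only [wt] at e5
    rw [sum_comm] at e5
    simp only [hn, sum_add_distrib, ← sum_mul] at e5
    rw [pow_add, mul_comm, mul_le_mul_iff_right₀ (pow_pos h0 _), mul_comm, pow_mul, hϱ] at e5
    rw [norm_mul, norm_prod]
    refine (mul_le_of_le_one_right (norm_nonneg _) (prod_le_one (fun _ _ => norm_nonneg _)
      fun u _ => ?_)).trans e5
    rw [← map_pow]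
    exact norm_teich_le _ _
  · exact ⟨by simpa [e] using e5 j 1 0 δ (by simpa using h1),
      by simpa [e, ← mul_assoc] using e5 j _ 1 _ (by simpa using h2),
      by simpa [e, ← mul_assoc] using e5 j 1 _ _ (by simpa using h3)⟩
  · rcases h4 with ⟨h4, h5⟩ | ⟨h4, h5⟩ | rfl
    · have := e5 j _ 1 _ (by simpa using h4)
      have := Nat.mul_le_mul_right (rs (p ^ s - 1) (p ^ j * α)) h5
      simp only [e, one_mul, mul_assoc] at *
      omega
    · have := e5 j 1 _ _ (by simpa using h4)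
      have := Nat.mul_le_mul_right (rs (p ^ s - 1) (p ^ j * α)) h5
      simp only [e, one_mul, mul_assoc] at *
      omega
    · exact .inr (.inr (by simpa using e5 j 1 0 0 (by simpa using h1)))
  · ext v
    simp only [map_mul, map_pow, mul_pow, ← pow_mul, prod_mul_distrib, prod_pow_eq_pow_sum,
      mul_comm (dx _), mul_comm (dt _), mul_assoc]

theorem ex_vert (h : Std p ω Ψ) (hs : Fintype.card E = p ^ s) (hD : 0 < D) (g : Polynomial E)
    {H : ℕ} (hg : g.natDegree ≤ H) (α : ℕ) :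
    Ex ω p s e D 0 (fun j => H * rs (p ^ s - 1) (p ^ j * α)) fun v => ω (g.eval v.2) ^ α := by
  have := ex_base (e := e) (D := D) h hs (fun i : Fin (H + 1) => g.coeff i) 0 (·.1) 0 H
    (by simp) (fun u => by simpa using u.is_le.trans (Nat.le_mul_of_pos_left H hD))
    (fun u => by simpa using Nat.mul_le_mul_left D u.is_le) (.inr (.inr rfl)) α
  simp only [zero_mul, Pi.zero_apply, pow_zero, one_mul] at this
  simp only [Polynomial.eval_eq_sum_range' (Nat.lt_succ_of_le hg), sum_range]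
  exact this

theorem ex_lin (h : Std p ω Ψ) (hs : Fintype.card E = p ^ s) (he : 0 < e) (hD : 0 < D)
    (g : Polynomial E) (hg : g.natDegree ≤ e) (α : ℕ) :
    Ex ω p s e D (fun j => rs (p ^ s - 1) (p ^ j * α)) (fun j => e * rs (p ^ s - 1) (p ^ j * α))
      fun v => ω (v.1 - g.eval v.2) ^ α := by
  have h1 := Nat.le_mul_of_pos_left e hD
  have := ex_base (e := e) (D := D) h hs (fun i : Option (Fin (e + 1)) => i.elim 1 (-g.coeff ·))
    (·.elim 1 0) (·.elim 0 (·.1)) 1 e (by rintro (_ | _) <;> simp)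
    (by rintro (_ | u); simpa; simpa using u.is_le.trans h1)
    (by rintro (_ | u); simpa using Nat.succ_le_of_lt (he.trans_le h1); simpa using Nat.mul_le_mul_left D u.is_le)
    (.inl ⟨by rintro (_ | u); simp; simpa using u.is_le, h1⟩) α
  simp only [Polynomial.eval_eq_sum_range' (Nat.lt_succ_of_le hg), sum_range]
  simpa [sub_eq_add_neg] using this

theorem ex_lin' (h : Std p ω Ψ) (hs : Fintype.card E = p ^ s) (he : 0 < e) (hD : 0 < D)
    (g : Polynomial E) (hg : g.natDegree ≤ D) (α : ℕ) :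
    Ex ω p s e D (fun j => D * rs (p ^ s - 1) (p ^ j * α)) (fun j => e * rs (p ^ s - 1) (p ^ j * α))
      fun v => ω (v.2 - g.eval v.1) ^ α := by
  have h1 := Nat.le_mul_of_pos_right D he
  have := ex_base (e := e) (D := D) h hs (fun i : Option (Fin (D + 1)) => i.elim 1 (-g.coeff ·))
    (·.elim 0 (·.1)) (·.elim 1 0) D e (by rintro (_ | u); simp; simpa using u.is_le)
    (by
      rintro (_ | u)
      · simpa using Nat.succ_le_of_lt (hD.trans_le h1)
      · simpa [mul_comm] using Nat.mul_le_mul_left e u.is_le)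
    (by rintro (_ | u); simpa; simpa using u.is_le.trans h1)
    (.inr (.inl ⟨by rintro (_ | u); simp; simpa using u.is_le, h1⟩)) α
  simp only [Polynomial.eval_eq_sum_range' (Nat.lt_succ_of_le hg), sum_range]
  simpa [sub_eq_add_neg] using this

omit hp [CharP E p] in
theorem norm_sum_pow (h : Std p ω Ψ) (hs : Fintype.card E = p ^ s) (U : ℕ) :
    ‖∑ x, ω x ^ U‖ ≤ if p ^ s - 1 ∣ U then ‖(p : K)‖ ^ (s * if U = 0 then 1 else 0) else 0 := by
  classical
  rcases eq_or_ne U 0 with rfl | hU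
  · simp [hs]
  rw [← sum_subset (filter_subset (· ≠ 0) _) fun x _ hx => by simp at hx; simp [hx, hU],
    sum_teich_pow h.1.injective, hs, if_neg hU]
  split_ifs
  · simpa using IsUltrametricDist.norm_natCast_le_one K _
  · simp

omit hp in
theorem le_of_modEq {N u U j : ℕ} (h : u ≡ p ^ j * U [MOD N] ∧ (U ≠ 0 → u ≠ 0)) (hd : N ∣ U)
    (hU : U ≠ 0) : N ≤ u :=
  Nat.le_of_dvd (Nat.pos_of_ne_zero (h.2 hU)) ((h.1.dvd_iff dvd_rfl).2 (hd.mul_left _))

omit [CharP E p] in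
theorem Ex.norm_fibre (h : Std p ω Ψ) (hs : Fintype.card E = p ^ s) (hφ : Ex ω p s e D A B φ)
    (hA : ∀ j < s, A j < p ^ s - 1) (t : E) : ‖∑ x, φ (x, t)‖ ≤ ‖(p : K)‖ ^ s := by
  induction hφ using AddSubmonoid.closure_induction with
  | zero => simp
  | add φ φ' _ _ h1 h2 =>
    simp only [Pi.add_apply, sum_add_distrib]
    exact (IsUltrametricDist.norm_add_le_max _ _).trans (max_le h1 h2)
  | mem φ hφ =>
    obtain ⟨c, U, W, u, w, a, h1, h2, rfl⟩ := hφ
    simp only [← mul_sum, ← sum_mul, norm_mul]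
    have h3 := norm_sum_pow h hs U
    have h4 : ‖ω t ^ W‖ ≤ 1 := by
      rw [← map_pow]
      exact norm_teich_le _ _
    refine (mul_le_mul h1 (mul_le_mul h3 h4 (norm_nonneg _) (by positivity)) (by positivity)
      (by positivity)).trans ?_
    split_ifs with hd hU
    · simpa using mul_le_of_le_one_left (by positivity) (pow_le_one₀ (norm_nonneg _) h.norm_p.2.le)
    · simp only [mul_zero, pow_zero, mul_one]
      refine pow_le_pow_of_le_one (norm_nonneg _) h.norm_p.2.le ?_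
      nth_rw 1 [← card_range s, card_eq_sum_ones]
      refine sum_le_sum fun j hj => ?_
      have := le_of_modEq (h2 j).1 hd hU
      have := (h2 j).2.2.1
      have := hA j (mem_range.1 hj)
      omega
    · simp

omit [CharP E p] in
theorem Ex.norm_sum (h : Std p ω Ψ) (hs : Fintype.card E = p ^ s) (hφ : Ex ω p s e D A B φ)
    (G Z : ℕ → Prop) [DecidablePred G] [DecidablePred Z]
    (hG : ∀ j < s, G j → A j < p ^ s - 1 ∧ D * B j < p ^ s - 1)
    (hZ : ∀ j < s, ¬ Z j → A j < p ^ s - 1 ∨ D * B j < (e + 1) * (p ^ s - 1)) :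
    ‖∑ v, φ v‖ * ‖(p : K)‖ ^ (∑ j ∈ range s, if Z j then 1 else 0) ≤
      ‖(p : K)‖ ^ (s + ∑ j ∈ range s, if G j then 1 else 0) := by
  induction hφ using AddSubmonoid.closure_induction with
  | zero => simp
  | add φ φ' _ _ h1 h2 =>
    simp only [Pi.add_apply, sum_add_distrib]
    refine (mul_le_mul_of_nonneg_right (IsUltrametricDist.norm_add_le_max _ _)
      (by positivity)).trans ?_
    rw [max_mul_of_nonneg _ _ (by positivity)]
    exact max_le h1 h2
  | mem φ hφ =>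
    obtain ⟨c, U, W, u, w, a, h1, h2, rfl⟩ := hφ
    simp only [Fintype.sum_prod_type, ← mul_sum, ← sum_mul, norm_mul]
    refine (mul_le_mul_of_nonneg_right (mul_le_mul h1 (mul_le_mul (norm_sum_pow h hs U)
      (norm_sum_pow h hs W) (norm_nonneg _) (by positivity)) (by positivity)
      (by positivity)) (by positivity)).trans ?_
    by_cases hd : p ^ s - 1 ∣ U
    swap
    · simp [hd]
    by_cases hd' : p ^ s - 1 ∣ W
    swap
    · simp [hd']
    rw [if_pos hd, if_pos hd', ← pow_add, ← pow_add, ← pow_add]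
    refine pow_le_pow_of_le_one (norm_nonneg _) h.norm_p.2.le ?_
    have e0 : ∀ n, s * n = ∑ _ ∈ range s, n := fun n => by simp
    nth_rw 1 [← mul_one s]
    simp only [e0, ← sum_add_distrib]
    refine sum_le_sum fun j hj => ?_
    have h3 := le_of_modEq (h2 j).1 hd
    have h4 := le_of_modEq (h2 j).2.1 hd'
    obtain ⟨h5, h6⟩ := (h2 j).2.2
    have h7 : (if G j then 1 else 0) = 0 ∨ (if G j then 1 else 0) = 1 ∧ A j < p ^ s - 1 ∧
        D * B j < p ^ s - 1 := by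
      split_ifs with h
      exacts [.inr ⟨rfl, hG j (mem_range.1 hj) h⟩, .inl rfl]
    have h8 : (if Z j then 1 else 0) = 1 ∨ A j < p ^ s - 1 ∨ D * B j < (e + 1) * (p ^ s - 1) := by
      split_ifs with h
      exacts [.inl rfl, .inr (hZ j (mem_range.1 hj) h)]
    generalize (if G j then 1 else 0) = γ at *
    generalize (if Z j then 1 else 0) = ζ at *
    generalize p ^ s - 1 = N at *
    have h9 := fun h => Nat.mul_le_mul_left e (h3 h)
    have h10 := fun h => Nat.mul_le_mul_left D (h4 h)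
    rw [add_mul, one_mul] at h8
    split_ifs <;> omega

end Pool.Agent.Work.MP_60d5ce_nt
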