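import Pool.Agent.Work.MP_60d5ce_nt.H9Key

/-!
The constant points of `y ^ m = Φ (u, w)` above the zeros of `c (w)` give independent ideal classes.
-/

namespace Pool.Agent.Work.MP_60d5ce_nt

open Finset Polynomial Polynomial.Bivariate nonZeroDivisors

section Classes

variable {R A ι : Type} [CommRing R] [IsDedekindDomain R] [CommRing A] [IsDomain A]
  [IsPrincipalIdealRing A] [Algebra A R] [FaithfulSMul A R] {c : R} {m : ℕ}

theorem ideal_rel (key : ∀ x y : R, x ≠ 0 → y ≠ 0 → x ∣ c * y → y ∣ c * x →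
      ∃ r s : A, s ≠ 0 ∧ algebraMap A R s * y ^ m = algebraMap A R r * x ^ m) {I J : Ideal R}
    (hI : c ∈ I) (hJ : c ∈ J) {x y : R} (hx : x ≠ 0) (hy : y ≠ 0)
    (h : Ideal.span {x} * I = Ideal.span {y} * J) : ∃ r t : A, IsCoprime r t ∧
      Ideal.span {algebraMap A R t} * I ^ m = Ideal.span {algebraMap A R r} * J ^ m := by
  classical
  have h1 := Ideal.mul_mem_mul (Ideal.mem_span_singleton_self x) hI
  have h2 := Ideal.mul_mem_mul (Ideal.mem_span_singleton_self y) hJ
  rw [h, mul_comm x] at h1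
  rw [← h, mul_comm y] at h2
  obtain ⟨r, t, ht, e⟩ := key x y hx hy (Ideal.mem_span_singleton.1 (Ideal.mul_le_left h2))
    (Ideal.mem_span_singleton.1 (Ideal.mul_le_left h1))
  let := IsBezout.toGCDDomain A
  obtain ⟨r', t', h3, h4, hrt⟩ := _root_.extract_gcd r t
  generalize GCDMonoid.gcd r t = g at h3 h4
  subst h3 h4
  rw [map_mul, map_mul, mul_assoc, mul_assoc, mul_right_inj'
    ((map_ne_zero_iff _ (FaithfulSMul.algebraMap_injective A R)).2 (left_ne_zero_of_mul ht))] at e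
  refine ⟨r', t', (gcd_isUnit_iff r' t').1 hrt,
    mul_left_cancel₀ (pow_ne_zero m (Ideal.span_singleton_eq_bot.not.2 hx)) ?_⟩
  rw [mul_left_comm, ← mul_pow, h, mul_pow, ← mul_assoc, ← mul_assoc, Ideal.span_singleton_pow,
    Ideal.span_singleton_pow, Ideal.span_singleton_mul_span_singleton,
    Ideal.span_singleton_mul_span_singleton, e, mul_comm (x ^ m)]

theorem indep_classes (hc : c ≠ 0)
    (key : ∀ (N : ℕ) (x y : R), x ≠ 0 → y ≠ 0 → x ∣ c ^ N * y → y ∣ c ^ N * x →
      ∃ r s : A, s ≠ 0 ∧ algebraMap A R s * y ^ m = algebraMap A R r * x ^ m)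
    (P : ι → Ideal R) (hP : ∀ i, (P i).IsPrime ∧ c ∈ P i) (hm : m ≠ 0) (hi : Function.Injective P)
    (ρ : ι → ι) (hρ : ∀ i r, algebraMap A R r ∈ P i → algebraMap A R r ∈ P (ρ i))
    (hρ' : ∀ i, ρ (ρ i) = ρ i) :
    Cardinal.mk {i // ρ i ≠ i} ≤ Module.rank ℤ (Additive (ClassGroup R)) := by
  classical
  have h0 : ∀ i, P i ≠ ⊥ := fun i e => hc (by simpa [e] using (hP i).2)
  obtain ⟨Q, hQ⟩ : ∃ Q : {i // ρ i ≠ i} → (Ideal R)⁰, ∀ i, (Q i : Ideal R) = P i :=
    ⟨fun i => ⟨P i, mem_nonZeroDivisors_of_ne_zero (h0 i)⟩, fun _ => rfl⟩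
  have h1 : ∀ (s : Finset {i // ρ i ≠ i}) (n : {i // ρ i ≠ i} → ℕ) (j : ι),
      (∏ i ∈ s, P i ^ n i) ^ m ≤ P j → ∃ i ∈ s, n i ≠ 0 ∧ i.1 = j := fun s n j h => by
    have := (hP j).1
    obtain ⟨i, h1, h2⟩ := this.prod_le.1 (Ideal.IsPrime.le_of_pow_le h)
    have h3 : n i ≠ 0 := fun e => this.ne_top (by simpa [e] using h2)
    exact ⟨i, h1, h3, hi (((hP i).1.isMaximal (h0 i)).eq_of_le this.ne_top
      (Ideal.IsPrime.le_of_pow_le h2))⟩
  have h3 : ∀ (s : Finset {i // ρ i ≠ i}) (n : {i // ρ i ≠ i} → ℕ) N, ∑ i ∈ s, n i ≤ N →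
      c ^ N ∈ ∏ i ∈ s, P i ^ n i := fun s n N hN => by
    rw [← Nat.sub_add_cancel hN, pow_add, ← prod_pow_eq_pow_sum]
    exact Ideal.mul_mem_left _ _ (Ideal.prod_mem_prod fun i _ => Ideal.pow_mem_pow (hP i).2 _)
  have h2 : ∀ (s : Finset {i // ρ i ≠ i}) (n n' : {i // ρ i ≠ i} → ℕ),
      ClassGroup.mk0 (∏ i ∈ s, Q i ^ n i) = ClassGroup.mk0 (∏ i ∈ s, Q i ^ n' i) →
      ∀ i ∈ s, n' i = 0 → n i = 0 := fun s n n' h i his hn => by
    obtain ⟨x, y, hx, hy, h⟩ := ClassGroup.mk0_eq_mk0_iff.1 h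
    simp only [Submonoid.coe_finsetProd, SubmonoidClass.coe_pow, hQ] at h
    obtain ⟨r, t, ⟨a, b, hab⟩, e⟩ := ideal_rel (key _) (h3 s n _ (Nat.le_add_right _ _))
      (h3 s n' _ (Nat.le_add_left _ _)) hx hy h
    by_contra hn'
    have h8 : (∏ i ∈ s, P i ^ n i) ^ m ≤ P i := (Ideal.pow_le_self hm).trans
      ((Ideal.le_of_dvd (dvd_prod_of_mem _ his)).trans (Ideal.pow_le_self hn'))
    have h9 := ((hP i).1.mul_le.1 (e.ge.trans (Ideal.mul_le_right.trans h8))).resolve_right
      fun h => by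
        obtain ⟨j, -, h1, h2⟩ := h1 _ _ _ h
        exact h1 (by rwa [Subtype.ext h2])
    have h10 := hρ _ _ ((Ideal.span_singleton_le_iff_mem _).1 h9)
    have h11 := ((hP (ρ i)).1.mul_le.1 (e.le.trans (Ideal.mul_le_left.trans
      ((Ideal.span_singleton_le_iff_mem _).2 h10)))).resolve_right fun h => by
        obtain ⟨j, -, -, h2⟩ := h1 _ _ _ h
        exact j.2 (by rw [h2, hρ'])
    refine (hP (ρ i)).1.ne_top ((Ideal.eq_top_iff_one _).2 ?_)
    rw [← map_one (algebraMap A R), ← hab, map_add, map_mul, map_mul]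
    exact add_mem (Ideal.mul_mem_left _ _ h10)
      (Ideal.mul_mem_left _ _ ((Ideal.span_singleton_le_iff_mem _).1 h11))
  refine LinearIndependent.cardinal_le_rank (v := fun i => Additive.ofMul (ClassGroup.mk0 (Q i)))
    (linearIndependent_iff'.2 fun s g h i his => ?_)
  have h4 : ClassGroup.mk0 (∏ i ∈ s, Q i ^ (g i).toNat) =
      ClassGroup.mk0 (∏ i ∈ s, Q i ^ (-g i).toNat) := by
    apply Additive.ofMul.injective
    simp only [map_prod, map_pow, ofMul_prod, ofMul_pow]
    rw [← sub_eq_zero, ← sum_sub_distrib, ← h]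
    refine sum_congr rfl fun i _ => ?_
    rw [← natCast_zsmul, ← natCast_zsmul, ← sub_smul, Int.toNat_sub_toNat_neg]
  have h5 := h2 s _ _ h4 i his
  have h6 := h2 s _ _ h4.symm i his
  omega

end Classes

variable {k F K : Type} [Field k] [Field F] [Algebra k[X] F] [IsFractionRing k[X] F] [Field K]
  [Algebra F[X] K] [Algebra (RatFunc F) K] [IsScalarTower F[X] (RatFunc F) K] {y : K} {m : ℕ}
  {Φ : k[X][X]} {ζ : k}

theorem exists_denom (p : F[X]) : ∃ (d : k[X]) (r : k[X][X]), d ≠ 0 ∧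
    r.map (algebraMap k[X] F) = C (algebraMap k[X] F d) * p := by
  obtain ⟨d, h1, h2⟩ := IsLocalization.integerNormalization_spec k[X]⁰ p
  exact ⟨d, _, nonZeroDivisors.ne_zero h1, by rw [h2, ← algebraMap_smul F, smul_eq_C_mul]⟩

theorem minpoly_eq (hy : y ^ m = algebraMap F[X] K (Φ.map (algebraMap k[X] F)))
    (h1 : IsUnit Φ.leadingCoeff) (h2 : Φ.natDegree.Coprime m) (hm : m ≠ 0) :
    minpoly (RatFunc F) y =
      (X ^ m - C (Φ.map (algebraMap k[X] F))).map (algebraMap F[X] (RatFunc F)) := by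
  let : Algebra F K := ((algebraMap F[X] K).comp C).toAlgebra
  have e : ∀ r : F[X], aeval (algebraMap F[X] K X) r = algebraMap F[X] K r := fun r =>
    (Polynomial.hom_eval₂ r C (algebraMap F[X] K) X).symm.trans (by rw [eval₂_C_X])
  have hinj := FunctionField.algebraMap_injective F K
  have h3 := (h1.map (algebraMap k[X] F)).ne_zero
  refine (minpoly.unique _ _ ((monic_X_pow_sub_C _ hm).map _)
    (by rw [aeval_map_algebraMap]; simp [hy]) fun q hq hq' => ?_).symm
  rw [(monic_X_pow_sub_C _ hm).degree_map, degree_X_pow_sub_C (by omega),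
    degree_eq_natDegree hq.ne_zero, Nat.cast_le]
  by_contra! h
  have h4 := IsLocalization.integerNormalization_aeval_eq_zero F[X]⁰ q hq'
  have h5 : (IsLocalization.integerNormalization F[X]⁰ q).natDegree < m := by
    refine lt_of_le_of_lt (natDegree_le_iff_coeff_eq_zero.2 fun n hn => ?_) h
    exact notMem_support_iff.1 fun h' => notMem_support_iff.2 (coeff_eq_zero_of_natDegree_lt hn)
      (IsLocalization.integerNormalization_support _ _ h')
  refine hq.ne_zero (IsFractionRing.integerNormalization_eq_zero_iff (A := F[X]).1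
    (Polynomial.ext fun n => ?_))
  rcases lt_or_ge n m with hn | hn
  · rw [aeval_eq_sum_range' h5] at h4
    refine indep (t := algebraMap F[X] K X) (transcendental_iff.2 fun r hr => hinj (by
      rw [← e, hr, map_zero])) (hy.trans (e _).symm) (fun e => h3 ?_) ?_ _ ?_ hn
    · simpa using congrArg (coeff · Φ.natDegree) e
    · rwa [natDegree_map_of_leadingCoeff_ne_zero _ h3]
    · simpa only [e, Algebra.smul_def] using h4
  · exact coeff_eq_zero_of_natDegree_lt (h5.trans_le hn)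

theorem key_ring (hy : y ^ m = algebraMap F[X] K (Φ.map (algebraMap k[X] F)))
    (hK : Algebra.adjoin (RatFunc F) {y} = ⊤) (h1 : IsUnit Φ.leadingCoeff)
    (h2 : Φ.natDegree.Coprime m) (h3 : (swap Φ).natDegree.Coprime m) (hζ : IsPrimitiveRoot ζ m)
    (hm : m ≠ 0) {c : k[X]} (hc : c ≠ 0) {φ : K} (h0 : φ ≠ 0)
    (hφ : IsIntegral F[X] (algebraMap F[X] K ((c.map C).map (algebraMap k[X] F)) * φ) ∧
      IsIntegral F[X] (algebraMap F[X] K ((c.map C).map (algebraMap k[X] F)) * φ⁻¹)) :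
    ∃ r s : F[X], s ≠ 0 ∧ algebraMap F[X] K s * φ ^ m = algebraMap F[X] K r := by
  let : Algebra k K := ((algebraMap F[X] K).comp (C.comp ((algebraMap k[X] F).comp C))).toAlgebra
  set u := algebraMap F[X] K (C (algebraMap k[X] F X))
  set w := algebraMap F[X] K X
  have e : ∀ r : k[X][X], aevalAeval u w r = algebraMap F[X] K (r.map (algebraMap k[X] F)) :=
    fun r => DFunLike.congr_fun (show (aevalAeval u w).toRingHom =
      (algebraMap F[X] K).comp (mapRingHom (algebraMap k[X] F)) by ext <;> simp <;> rfl) r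
  have hinj := FunctionField.algebraMap_injective F K
  have hinj' := map_injective _ (IsFractionRing.injective k[X] F)
  have hmin := minpoly_eq hy h1 h2 hm
  have hint : IsIntegral (RatFunc F) y := minpoly.ne_zero_iff.1 (by
    rw [hmin]; exact ((monic_X_pow_sub_C _ hm).map _).ne_zero)
  let pb := PowerBasis.ofAdjoinEqTop hint hK
  have hroot : aeval (algebraMap k K ζ * y) (minpoly (RatFunc F) pb.gen) = 0 := by
    rw [PowerBasis.ofAdjoinEqTop_gen, hmin, aeval_map_algebraMap, map_sub, map_pow, aeval_X,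
      aeval_C, mul_pow, ← map_pow, hζ.pow_eq_one, map_one, one_mul, hy, sub_self]
  obtain ⟨σ, hσ⟩ : ∃ σ : K →ₐ[F[X]] K, σ y = algebraMap k K ζ * y :=
    ⟨(pb.lift _ hroot).restrictScalars F[X], pb.lift_gen _ hroot⟩
  have e' : ∀ a : k[X], aeval w a = algebraMap F[X] K ((a.map C).map (algebraMap k[X] F)) :=
    fun a => by rw [← e, ← swap_C, aevalAeval_swap, aevalAeval_C]
  have hK₀ : ∀ a : RatFunc F, ∃ r s : k[X][X], s ≠ 0 ∧
      aevalAeval u w s * algebraMap _ K a = aevalAeval u w r := fun a => by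
    obtain ⟨p, q, hq, rfl⟩ := IsFractionRing.div_surjective F[X] a
    obtain ⟨d, r, hd, hr⟩ := exists_denom (k := k) p
    obtain ⟨d', s, hd', hs⟩ := exists_denom (k := k) q
    have hq' := nonZeroDivisors.ne_zero hq
    refine ⟨C d' * r, C d * s, mul_ne_zero (C_ne_zero.2 hd) fun h => ?_, ?_⟩
    · simp [h, hd', hq'] at hs
    · have := (map_ne_zero_iff _ hinj).2 hq'
      simp only [e, Polynomial.map_mul, hr, hs, map_mul, map_C, map_div₀,
        ← IsScalarTower.algebraMap_apply]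
      field_simp
  have h := key_pow (u := u) (w := w) (fun a b h => hinj' (hinj (by rwa [← e, ← e])))
    (hy.trans (e _).symm) h1 h2 h3 hζ hm { σ.toRingHom with commutes' := fun a => σ.commutes _ }
    (σ.commutes _) (σ.commutes _) hσ (fun z => ?_)
    (integralClosure F[X] K).toSubring (fun V hu hw z hz => ?_) (fun z hz => IsIntegral.map σ hz) hc
    h0 (by rwa [e'])
  · obtain ⟨r, s, hs, h⟩ := h
    exact ⟨_, _, fun e => hs (hinj' (e.trans (Polynomial.map_zero _).symm)), e r ▸ e s ▸ h⟩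
  · obtain ⟨f, hf, rfl⟩ := pb.exists_eq_aeval z
    rw [PowerBasis.ofAdjoinEqTop_dim, hmin, (monic_X_pow_sub_C _ hm).natDegree_map,
      natDegree_X_pow_sub_C] at hf
    rw [aeval_eq_sum_range' hf]
    refine sum_induction _ (fun z => ∃ (r : ℕ → k[X][X]) (s : k[X][X]), s ≠ 0 ∧
      aevalAeval u w s * z = ∑ j ∈ range m, aevalAeval u w (r j) * y ^ j) ?_
      ⟨0, 1, one_ne_zero, by simp⟩ fun j hj => ?_
    · rintro a b ⟨r, s, hs, h⟩ ⟨r', s', hs', h'⟩
      refine ⟨fun j => s' * r j + s * r' j, s * s', mul_ne_zero hs hs', ?_⟩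
      simp only [map_add, map_mul, add_mul, mul_assoc, sum_add_distrib, ← mul_sum, ← h, ← h']
      ring
    · obtain ⟨r, s, hs, h⟩ := hK₀ (f.coeff j)
      refine ⟨Pi.single j r, s, hs, ?_⟩
      rw [sum_eq_single_of_mem j hj fun i _ hi => by simp [hi], Algebra.smul_def, ← mul_assoc, h,
        Pi.single_eq_same, PowerBasis.ofAdjoinEqTop_gen]
  · have h4 : ∀ p : F[X], algebraMap F[X] K p ∈ V := fun p => by
      induction p using Polynomial.induction_on' with
      | add p q h1 h2 => exact map_add (algebraMap F[X] K) p q ▸ add_mem h1 h2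
      | monomial n a =>
        rw [← C_mul_X_pow_eq_monomial, map_mul, map_pow]
        refine mul_mem ?_ (pow_mem hw _)
        obtain ⟨d, r, hd, hr⟩ := IsFractionRing.div_surjective k[X] a
        have h5 : ∀ b : k[X], aeval u b = algebraMap F[X] K (C (algebraMap k[X] F b)) := fun b => by
          rw [← aevalAeval_C u w, e, map_C]
        have h6 := nonZeroDivisors.ne_zero hd
        have h7 : aeval u r * algebraMap F[X] K (C a) = aeval u d := by
          rw [h5, h5, ← map_mul, ← map_mul, ← hr, mul_div_cancel₀ _ (by simpa)]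
        rw [← V.valuation_le_one_iff, ← one_mul (V.valuation _), ← hu r h6, ← map_mul, h7]
        rcases eq_or_ne d 0 with rfl | h8
        · simp
        · rw [hu d h8, hu r h6]
    let : Algebra F[X] V := ((algebraMap F[X] K).codRestrict V h4).toAlgebra
    have : IsScalarTower F[X] V K := .of_algebraMap_eq fun _ => rfl
    obtain ⟨v, rfl⟩ := IsIntegrallyClosed.isIntegral_iff.1 (IsIntegral.tower_top (A := V) hz)
    exact v.2

theorem exists_prime (hy : y ^ m = algebraMap F[X] K (Φ.map (algebraMap k[X] F)))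
    (h1 : IsUnit Φ.leadingCoeff) (h2 : Φ.natDegree.Coprime m) (hm : m ≠ 0) {c Φ₀ : k[X]}
    (hΦ : c.map C ∣ Φ - Φ₀.map C) (y' : integralClosure F[X] K) (hy' : y'.1 = y)
    (M : Ideal k[X][X]) [M.IsMaximal] (hc : C c ∈ M) (hM : X ^ m - C Φ₀ ∈ M) :
    ∃ P : Ideal (integralClosure F[X] K), P.IsPrime ∧
      (∀ z : k[X][X], aeval y' (z.map (mapRingHom ((algebraMap k[X] F).comp C))) ∈ P ↔ z ∈ M) ∧
      ∀ r : k[X][X], algebraMap F[X] _ (r.map (algebraMap k[X] F)) ∈ P ↔
        ∀ i, C ((swap r).coeff i) ∈ M := by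
  let := Ideal.Quotient.field M
  let θ := Ideal.Quotient.mk M
  let j := algebraMap (k[X][X] ⧸ M)[X] (RatFunc (k[X][X] ⧸ M))
  have hj : Function.Injective j := IsFractionRing.injective _ _
  let g := j.comp (mapRingHom (θ.comp (C.comp C)))
  have hg : Function.Injective g := hj.comp (map_injective _ (RingHom.injective _))
  let ev : F[X] →+* _ := eval₂RingHom (IsFractionRing.lift hg) (j (C (θ (C X))))
  let ev' : F[X][X] →+* _ := eval₂RingHom ev (j (C (θ X)))
  have e1 : ∀ r : k[X][X], ev (r.map (algebraMap k[X] F)) = j ((swap r).map (θ.comp C)) :=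
    fun r => DFunLike.congr_fun (show ev.comp (mapRingHom (algebraMap k[X] F)) =
      j.comp ((mapRingHom (θ.comp C)).comp swap.toAlgHom.toRingHom) by
        ext <;> simp [ev, g, swap_X, swap_Y, swap_C_C]) r
  have e2 : ∀ z : k[X][X], ev' (z.map (mapRingHom ((algebraMap k[X] F).comp C))) = j (C (θ z)) :=
    fun z => DFunLike.congr_fun (show ev'.comp (mapRingHom (mapRingHom
      ((algebraMap k[X] F).comp C))) = j.comp (C.comp θ) by ext <;> simp [ev', ev, g]) z
  let : Algebra F[X][X] (integralClosure F[X] K) := (aeval y').toRingHom.toAlgebra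
  have : IsScalarTower F[X] F[X][X] (integralClosure F[X] K) :=
    .of_algebraMap_eq fun a => (aeval_C y' a).symm
  have : Algebra.IsIntegral F[X][X] (integralClosure F[X] K) :=
    ⟨fun z => (Algebra.IsIntegral.isIntegral (R := F[X]) z).tower_top⟩
  have := RingHom.ker_isPrime ev'
  obtain ⟨P, -, h3, h4⟩ := Ideal.exists_ideal_over_prime_of_isIntegral (RingHom.ker ev')
    (⊥ : Ideal (integralClosure F[X] K)) fun q hq => by
      have h3 : minpoly (RatFunc F) y ∣ q.map (algebraMap F[X] (RatFunc F)) := minpoly.dvd _ _ (by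
        rw [aeval_map_algebraMap, ← hy']
        exact (aeval_algHom_apply (integralClosure F[X] K).val y' q).trans
          (congrArg Subtype.val hq))
      rw [minpoly_eq hy h1 h2 hm, map_dvd_map _ (IsFractionRing.injective _ _)
        (monic_X_pow_sub_C _ hm)] at h3
      refine Ideal.mem_of_dvd _ h3 ?_
      obtain ⟨b, hb⟩ := hΦ
      rw [RingHom.mem_ker, coe_eval₂RingHom, eval₂_sub, eval₂_X_pow, eval₂_C, e1,
        sub_eq_iff_eq_add.1 hb]
      simp only [map_add, map_mul, swap_map_C, Polynomial.map_add, Polynomial.map_mul, map_C,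
        RingHom.comp_apply]
      rw [Ideal.Quotient.eq_zero_iff_mem.2 hc, ← map_pow, ← map_pow, ← map_pow,
        Ideal.Quotient.eq.2 hM]
      simp [θ]
  have h5 : ∀ q, aeval y' q ∈ P ↔ ev' q = 0 := fun q => by
    rw [← RingHom.mem_ker, ← h4]
    rfl
  refine ⟨P, h3, fun z => ?_, fun r => ?_⟩
  · rw [h5, e2, map_eq_zero_iff _ hj, C_eq_zero, Ideal.Quotient.eq_zero_iff_mem]
  · rw [← aeval_C y', h5, show ev' (C _) = ev _ from eval₂_C _ _, e1, map_eq_zero_iff _ hj,
      Polynomial.ext_iff]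
    simp only [coeff_map, coeff_zero, RingHom.comp_apply, θ, Ideal.Quotient.eq_zero_iff_mem]

theorem rank_ge (hy : y ^ m = algebraMap F[X] K (Φ.map (algebraMap k[X] F)))
    (hK : Algebra.adjoin (RatFunc F) {y} = ⊤) (h1 : IsUnit Φ.leadingCoeff)
    (h2 : Φ.natDegree.Coprime m) (h3 : (swap Φ).natDegree.Coprime m) (hζ : IsPrimitiveRoot ζ m)
    (hm : m ≠ 0) {c Φ₀ : k[X]} (hc : c ≠ 0) (hΦ : c.map C ∣ Φ - Φ₀.map C) :
    Finite {M : Ideal k[X] // M.IsMaximal ∧ c ∈ M} ∧
    Finite {M : Ideal k[X][X] // M.IsMaximal ∧ C c ∈ M ∧ X ^ m - C Φ₀ ∈ M} ∧ ∃ ρ : ℕ,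
      ρ + Nat.card {M : Ideal k[X] // M.IsMaximal ∧ c ∈ M} =
        Nat.card {M : Ideal k[X][X] // M.IsMaximal ∧ C c ∈ M ∧ X ^ m - C Φ₀ ∈ M} ∧
      (ρ : Cardinal) ≤ Module.rank ℤ (Additive (ClassGroup (integralClosure F[X] K))) := by
  classical
  have hinj := FunctionField.algebraMap_injective F K
  have hmin := minpoly_eq hy h1 h2 hm
  have hint : IsIntegral (RatFunc F) y := minpoly.ne_zero_iff.1 (by
    rw [hmin]; exact ((monic_X_pow_sub_C _ hm).map _).ne_zero)
  have := (PowerBasis.ofAdjoinEqTop hint hK).finite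
  have : Algebra.IsSeparable (RatFunc F) K := by
    rw [← separableClosure.eq_top_iff, eq_top_iff]
    intro z _
    refine Algebra.adjoin_le (S := (separableClosure (RatFunc F) K).toSubalgebra) ?_
      (hK ▸ Algebra.mem_top : z ∈ Algebra.adjoin (RatFunc F) {y})
    rw [Set.singleton_subset_iff]
    refine mem_separableClosure_iff.2 ?_
    rw [IsSeparable, hmin, Polynomial.map_sub, Polynomial.map_pow, map_X, map_C]
    have : NeZero m := ⟨hm⟩
    have := (hζ.map_of_injective (f := (algebraMap F[X] (RatFunc F)).comp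
      (C.comp ((algebraMap k[X] F).comp C))) (RingHom.injective _)).neZero' (n := m)
    refine separable_X_pow_sub_C _ this.out ?_
    simpa [Polynomial.map_eq_zero_iff (IsFractionRing.injective k[X] F)] using
      leadingCoeff_ne_zero.1 h1.ne_zero
  have := IsIntegralClosure.isDedekindDomain F[X] (RatFunc F) K (integralClosure F[X] K)
  have := IsIntegralClosure.isFractionRing_of_finite_extension F[X] (RatFunc F) K
    (integralClosure F[X] K)
  have : FaithfulSMul F[X] (integralClosure F[X] K) := (faithfulSMul_iff_algebraMap_injective _ _).2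
    fun a b h => hinj (congrArg Subtype.val h)
  let y' : integralClosure F[X] K := ⟨y, .of_pow (by omega) (hy ▸ isIntegral_algebraMap)⟩
  choose P hP1 hP2 hP3 using fun M : {M : Ideal k[X][X] // M.IsMaximal ∧ C c ∈ M ∧
    X ^ m - C Φ₀ ∈ M} => @exists_prime k F K _ _ _ _ _ _ _ _ y m Φ hy h1 h2 hm c Φ₀ hΦ y' rfl M.1
      M.2.1 M.2.2.1 M.2.2.2
  have hi : Function.Injective P := fun M N h => Subtype.ext (Ideal.ext fun z => by
    rw [← hP2, ← hP2, h])
  have hc' : ∀ N, algebraMap F[X] (integralClosure F[X] K)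
      (((c ^ N).map C).map (algebraMap k[X] F)) ≠ 0 := fun N => by
    simp [Polynomial.map_eq_zero_iff (IsFractionRing.injective k[X] F),
      Polynomial.map_eq_zero_iff C_injective, hc]
  have hc1 := hc' 1
  rw [pow_one] at hc1
  have hP4 : ∀ M, algebraMap F[X] _ ((c.map C).map (algebraMap k[X] F)) ∈ P M := fun M =>
    (hP3 M _).2 fun i => by
      rw [swap_map_C, coeff_C]
      split_ifs
      exacts [M.2.2.1, by simp]
  let β : {M : Ideal k[X][X] // M.IsMaximal ∧ C c ∈ M ∧ X ^ m - C Φ₀ ∈ M} →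
      {M : Ideal k[X] // M.IsMaximal ∧ c ∈ M} := fun M => ⟨M.1.comap C,
    (M.2.1.isPrime.comap C).isMaximal fun e => hc (by
      simpa [← Ideal.mem_comap, e] using M.2.2.1), M.2.2.1⟩
  have hβ : Function.Surjective β := fun ⟨p, hp, hp'⟩ => by
    let := Ideal.Quotient.field p
    let g := (algebraMap _ (AlgebraicClosure (k[X] ⧸ p))).comp (Ideal.Quotient.mk p)
    obtain ⟨η, hη⟩ := IsAlgClosed.exists_pow_nat_eq (g Φ₀) (n := m) (by omega)
    obtain ⟨M, h4, h5⟩ := Ideal.exists_le_maximal _ (RingHom.ker_ne_top (eval₂RingHom g η))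
    have h6 : p ≤ M.comap C := fun a ha => h5 (by
      simp [RingHom.mem_ker, g, Ideal.Quotient.eq_zero_iff_mem.2 ha])
    exact ⟨⟨M, h4, h6 hp', h5 (by simp [RingHom.mem_ker, hη])⟩,
      Subtype.ext (hp.eq_of_le (Ideal.comap_ne_top _ h4.ne_top) h6).symm⟩
  have hfin : Finite {M : Ideal k[X][X] // M.IsMaximal ∧ C c ∈ M ∧ X ^ m - C Φ₀ ∈ M} := by
    have := (Ideal.finite_factors (Ideal.span_singleton_eq_bot.not.2 hc1)).to_subtype
    exact .of_injective (fun M => (⟨⟨P M, hP1 M, fun e => hc1 (by simpa [e] using hP4 M)⟩,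
      Ideal.dvd_span_singleton.2 (hP4 M)⟩ : {v : IsDedekindDomain.HeightOneSpectrum _ |
        v.asIdeal ∣ Ideal.span {_}})) fun M N h => hi (congrArg (·.1.asIdeal) h)
  have h4 := indep_classes (A := F[X]) (m := m) hc1 (fun N x z hx hz h4 h5 => ?_) P
    (fun M => ⟨hP1 M, hP4 M⟩) hm hi (fun M => Function.surjInv hβ (β M)) (fun M r hr => ?_)
    fun M => by rw [Function.surjInv_eq hβ]
  · refine ⟨.of_surjective β hβ, hfin, _, ?_, (Nat.cast_card ..).trans_le h4⟩
    rw [← Nat.card_congr (Equiv.sumCompl fun M => Function.surjInv hβ (β M) = M), Nat.card_sum,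
      add_comm]
    congr 1
    refine (Nat.card_congr (.ofBijective (fun M => β M.1) ⟨fun M N h => Subtype.ext ?_, fun p =>
      ⟨⟨Function.surjInv hβ p, by rw [Function.surjInv_eq hβ]⟩, Function.surjInv_eq hβ p⟩⟩)).symm
    rw [← M.2, ← N.2, show β M.1 = β N.1 from h]
  · obtain ⟨a, ha⟩ := h4
    obtain ⟨b, hb⟩ := h5
    have hx' : (x : K) ≠ 0 := fun e => hx (Subtype.ext e)
    have hz' : (z : K) ≠ 0 := fun e => hz (Subtype.ext e)
    rw [← map_pow, ← Polynomial.map_pow, ← Polynomial.map_pow] at ha hb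
    have ha' : algebraMap F[X] K _ * z = x * a := congrArg Subtype.val ha
    have hb' : algebraMap F[X] K _ * x = z * b := congrArg Subtype.val hb
    obtain ⟨r, s, hs, h⟩ := key_ring hy hK h1 h2 h3 hζ hm (pow_ne_zero N hc)
      (div_ne_zero hz' hx') ⟨by
        rw [← mul_div_assoc, ha', mul_div_cancel_left₀ _ hx']
        exact a.2, by
        rw [inv_div, ← mul_div_assoc, hb', mul_div_cancel_left₀ _ hz']
        exact b.2⟩
    refine ⟨r, s, hs, Subtype.ext ?_⟩
    rw [div_pow, ← mul_div_assoc, div_eq_iff (pow_ne_zero _ hx')] at h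
    exact h
  · obtain ⟨d, r', hd, h⟩ := exists_denom (k := k) r
    have h5 : IsUnit (algebraMap F[X] (integralClosure F[X] K) (C (algebraMap k[X] F d))) :=
      (isUnit_C.2 (Ne.isUnit (by simpa))).map _
    rw [← Ideal.unit_mul_mem_iff_mem _ h5, ← map_mul, ← h, hP3] at hr ⊢
    intro i
    have h6 := congrArg Subtype.val (Function.surjInv_eq hβ (β M))
    exact Ideal.mem_comap.1 (h6.ge (hr i))

end Pool.Agent.Work.MP_60d5ce_nt
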