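import Pool.Agent.Work.MP_60d5ce_nt.H9Plane

/-!
Divisibility of character sums passes to Artin-Schreier covers.
-/

namespace Pool.Agent.Work.MP_60d5ce_nt

open Finset Pool.Agent.Lib.Dwork

variable {E : Type*} [Field E] [Fintype E] {K : Type*} [NormedField K] [IsUltrametricDist K]

/-- The Mellin coefficients of `w` of small digit sum are divisible by `p ^ k`. -/
def Sp (ω : E →*₀ K) (p s : ℕ) {n : ℕ} (w : (Fin n → E) → K) (c k : ℕ) : Prop :=
  ∀ ε : Fin n → ℕ, ∑ i, wt p s (ε i) ≤ c * (p ^ s - 1) →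
    ‖∑ v, w v * ∏ i, ω (v i) ^ ε i‖ ≤ ‖(p : K)‖ ^ k

variable {p : ℕ} [hp : Fact p.Prime] [CharP E p] {ω : E →*₀ K} {Ψ : AddChar E K} {s : ℕ}

omit [IsUltrametricDist K] in
theorem norm_pow_le (ω : E →*₀ K) (x : E) (n : ℕ) : ‖ω x ^ n‖ ≤ 1 := by
  rw [← map_pow]
  exact norm_teich_le _ _

omit [IsUltrametricDist K] in
theorem norm_prod_le (ω : E →*₀ K) {ι : Type*} [Fintype ι] (x : ι → E) (n : ι → ℕ) :
    ‖∏ i, ω (x i) ^ n i‖ ≤ 1 := by
  rw [norm_prod]
  exact prod_le_one (fun _ _ => norm_nonneg _) fun _ _ => norm_pow_le _ _ _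

theorem Sp.step [DecidableEq E] (h : Std p ω Ψ) (hs : Fintype.card E = p ^ s) {n D c k : ℕ}
    (μ : MvPolynomial (Fin n) E) (hD : μ.totalDegree ≤ D) {w : (Fin n → E) → K}
    (hw : ∀ v, ‖w v‖ ≤ 1) (H : Sp ω p s w (c + (k + c) * D) (k + c)) :
    Sp ω p s (fun v : Fin (n + 1) → E => if v (Fin.last n) ^ p - v (Fin.last n) =
      MvPolynomial.eval (Fin.init v) μ then w (Fin.init v) else 0) c k := by
  intro ε hε
  have hN := pred_pos hs
  obtain ⟨hp0, hp1⟩ := h.norm_p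
  obtain ⟨ϱ, h0, hϱ⟩ : ∃ ϱ : ℝ, 0 < ϱ ∧ ϱ ^ (p ^ s - 1) = ‖(p : K)‖ :=
    ⟨‖(p : K)‖ ^ ((p ^ s - 1 : ℕ) : ℝ)⁻¹, by positivity, Real.rpow_inv_natCast_pow hp0.le hN.ne'⟩
  have h1 : ϱ ≤ 1 := (pow_le_one_iff_of_nonneg h0.le hN.ne').1 (hϱ ▸ hp1.le)
  obtain ⟨a, -, ha2, ha3⟩ := h.multinomial hs hϱ h0 (Option (Option μ.support)) (p ^ s - 1)
  rw [Fin.sum_univ_castSucc] at hε
  have e1 : ∀ (y : E) (v : Fin n → E), (if y ^ p - y = MvPolynomial.eval v μ then w v else 0) =
      w v * (1 - ω (∑ u : Option (Option μ.support), u.elim (y ^ p)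
        (·.elim (-y) fun M => -μ.coeff M * ∏ i, v i ^ M.1 i)) ^ (p ^ s - 1)) := fun y v => by
    rw [Fintype.sum_option, Fintype.sum_option, MvPolynomial.eval_eq']
    simp only [Option.elim, neg_mul, sum_neg_distrib]
    rw [← add_assoc, ← sub_eq_add_neg, ← sub_eq_add_neg,
      sum_coe_sort _ fun M => μ.coeff M * ∏ i, v i ^ M i]
    split_ifs with e
    · simp [e, hN.ne']
    · rw [← map_pow, ← hs, FiniteField.pow_card_sub_one_eq_one _ (sub_ne_zero.2 e), map_one, sub_self, mul_zero]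
  have e2 : ∑ y : E, ∑ v : Fin n → E, (if y ^ p - y = MvPolynomial.eval v μ then w v else 0) *
      ((∏ i : Fin n, ω (v i) ^ ε i.castSucc) * ω y ^ ε (Fin.last n)) =
      (∑ y, ω y ^ ε (Fin.last n)) * (∑ v, w v * ∏ i : Fin n, ω (v i) ^ ε i.castSucc) -
      ∑ b : Option (Option μ.support) → Fin (p ^ s),
        a b * (∑ y, ω y ^ (ε (Fin.last n) + b none * p + b (some none))) *
        (∑ v, w v * ∏ i : Fin n, ω (v i) ^ (ε i.castSucc + ∑ M, b (some (some M)) * M.1 i)) *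
        (ω (-1) ^ (b (some none)).1 * ∏ M, ω (-μ.coeff M.1) ^ (b (some (some M))).1) := by
    simp only [e1, ha3, mul_sub, sub_mul, sum_sub_distrib, mul_one, sum_mul_sum]
    congr 1
    · exact sum_congr rfl fun y _ => sum_congr rfl fun v _ => by ring
    simp only [mul_assoc _ (∑ _, _), sum_mul_sum]
    simp only [mul_sum, sum_mul]
    rw [eq_comm, sum_comm]
    refine sum_congr rfl fun y _ => sum_comm.trans (sum_congr rfl fun v _ =>
      sum_congr rfl fun b _ => ?_)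
    rw [Fintype.prod_option, Fintype.prod_option]
    simp only [Option.elim]
    rw [← neg_one_mul y]
    simp only [map_mul, map_pow, map_prod, mul_pow, pow_add, prod_mul_distrib,
      ← prod_pow, ← prod_pow_eq_pow_sum, pow_mul']
    rw [prod_comm]
    ring
  rw [← (Fin.snocEquiv fun _ => E).sum_comp, Fintype.sum_prod_type]
  simp only [Fin.snocEquiv, Equiv.coe_fn_mk, Fin.prod_univ_castSucc, Fin.snoc_last,
    Fin.snoc_castSucc, Fin.init_snoc]
  rw [e2, sub_eq_add_neg]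
  have h2 : ∀ U, ‖∑ y, ω y ^ U‖ ≤ 1 := fun U =>
    IsUltrametricDist.norm_sum_le_of_forall_le_of_nonneg zero_le_one fun _ _ => norm_pow_le _ _ _
  refine (IsUltrametricDist.norm_add_le_max _ _).trans (max_le ?_ ?_)
  · rw [norm_mul]
    refine (mul_le_of_le_one_left (norm_nonneg _) (h2 _)).trans ((H _ ?_).trans
      (pow_le_pow_of_le_one hp0.le hp1.le (by omega)))
    rw [add_mul]
    omega
  rw [norm_neg]
  refine IsUltrametricDist.norm_sum_le_of_forall_le_of_nonneg (by positivity) fun b _ => ?_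
  rw [norm_mul]
  refine (mul_le_of_le_one_right (norm_nonneg _) (by
    rw [norm_mul]
    exact mul_le_one₀ (norm_pow_le _ _ _) (norm_nonneg _) (norm_prod_le _ _ _))).trans ?_
  have h3 : ‖a b * ∑ y, ω y ^ (ε (Fin.last n) + b none * p + b (some none))‖ * ‖(p : K)‖ ^ c ≤
      ϱ ^ ∑ M, wt p s (b (some (some M))) := by
    have h4 := ha2 b
    have h5 := norm_sum_pow h hs (ε (Fin.last n) + b none * p + b (some none))
    rw [Fintype.sum_option, Fintype.sum_option, ← add_assoc,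
      wt_of_dvd hp.out.ne_zero hN dvd_rfl hN.ne'] at h4
    rw [norm_mul]
    split_ifs at h5 with hd hU
    · rw [mul_one, ← hϱ, ← pow_mul] at h5
      exact (mul_le_of_le_one_right (by positivity) (pow_le_one₀ hp0.le hp1.le)).trans
        ((mul_le_mul_of_nonneg_left h5 (norm_nonneg _)).trans
        (h4.trans (pow_le_pow_of_le_one h0.le h1 (by omega))))
    · have h6 := wt_add_le p s (ε (Fin.last n) + b none * p) (b (some none))
      have h7 := wt_add_le p s (ε (Fin.last n)) (b none * p)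
      rw [wt_of_dvd hp.out.ne_zero hN hd hU] at h6
      rw [wt_mul_self hp.out.ne_zero] at h7
      refine le_of_mul_le_mul_left ?_ (pow_pos h0 (wt p s (b none) + wt p s (b (some none))))
      rw [← pow_add, ← hϱ, ← pow_mul, mul_left_comm, ← pow_add]
      refine le_trans (mul_le_mul (mul_le_of_le_one_right (norm_nonneg _) (h2 _))
        (pow_le_pow_of_le_one h0.le h1 ?_) (by positivity) (norm_nonneg _)) h4
      rw [mul_comm c] at hε
      omega
    · rw [norm_le_zero_iff.1 h5]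
      simp only [norm_zero, mul_zero, zero_mul]
      positivity
  refine le_of_mul_le_mul_right ?_ (pow_pos hp0 c)
  rw [norm_mul, mul_right_comm, ← pow_add]
  by_cases hX : (p ^ s - 1) * (k + c) ≤ ∑ M, wt p s (b (some (some M)))
  · refine (mul_le_of_le_one_right (by positivity)
      (IsUltrametricDist.norm_sum_le_of_forall_le_of_nonneg zero_le_one fun v _ => ?_)).trans
      (h3.trans ?_)
    · rw [norm_mul]
      exact mul_le_one₀ (hw v) (norm_nonneg _) (norm_prod_le _ _ _)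
    · rw [← hϱ, ← pow_mul]
      exact pow_le_pow_of_le_one h0.le h1 hX
  refine (mul_le_of_le_one_left (norm_nonneg _) (h3.trans (pow_le_one₀ h0.le h1))).trans (H _ ?_)
  calc _ ≤ ∑ i : Fin n, (wt p s (ε i.castSucc) + ∑ M, wt p s (b (some (some M))) * M.1 i) :=
        sum_le_sum fun i _ => (wt_add_le _ _ _ _).trans (Nat.add_le_add_left
          ((wt_sum_le _ _ _ _).trans (sum_le_sum fun M _ => wt_mul_le _ _ _ _)) _)
    _ ≤ c * (p ^ s - 1) + (∑ M, wt p s (b (some (some M)))) * D := by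
        rw [sum_add_distrib, sum_comm, sum_mul]
        refine add_le_add (by omega) (sum_le_sum fun M _ => ?_)
        rw [← mul_sum]
        refine Nat.mul_le_mul_left _ (le_trans (le_of_eq ?_)
          ((MvPolynomial.le_totalDegree M.2).trans hD))
        rw [Finsupp.sum_fintype _ _ fun _ => rfl]
    _ ≤ _ := by
        rw [add_mul, mul_right_comm, mul_comm (k + c)]
        exact Nat.add_le_add_left (Nat.mul_le_mul_right _ (by omega)) _

omit [CharP E p] in
theorem kummer_sum [DecidableEq E] (h : Std p ω Ψ) (hs : Fintype.card E = p ^ s) {d : ℕ}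
    (hd : d ≠ 0) (ε : ℕ) : ∃ Γ : Finset ℕ, (∀ γ ∈ Γ, d * γ ≡ ε [MOD p ^ s - 1] ∧ (ε ≠ 0 → γ ≠ 0) ∧
      (ε = 0 → γ < p ^ s - 1)) ∧
      ∀ y, ∑ r, (if r ^ d = y then ω r ^ ε else 0) = ∑ γ ∈ Γ, ω y ^ γ := by
  have hN := pred_pos hs
  have h2 : ((p ^ s - 1 : ℕ) : K) ≠ 0 := norm_ne_zero_iff.1 (h.norm_pred hs ▸ one_ne_zero)
  obtain ⟨a, ha0, ha1⟩ : ∃ a, (ε = 0 → a = 0) ∧ (ε ≠ 0 → a = 1) :=
    ⟨if ε = 0 then 0 else 1, fun e => if_pos e, fun e => if_neg e⟩
  refine ⟨(Ico a (a + (p ^ s - 1))).filter fun γ => ε ≡ d * γ [MOD p ^ s - 1], fun γ hγ => ?_,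
    fun y => ?_⟩
  · rw [mem_filter, mem_Ico] at hγ
    exact ⟨hγ.2.symm, by omega, by omega⟩
  rcases eq_or_ne y 0 with rfl | hy
  · simp only [pow_eq_zero_iff hd, sum_ite_eq', mem_univ, if_true, map_zero]
    rcases eq_or_ne ε 0 with rfl | e
    · rw [sum_eq_single 0 (fun _ _ h => zero_pow h) (by simp [ha0, hN, Nat.ModEq])]
    · refine (zero_pow e).trans (sum_eq_zero fun γ hγ => zero_pow ?_).symm
      rw [mem_filter, mem_Ico] at hγ
      omega
  have e1 : ∀ r, ((p ^ s - 1 : ℕ) : K) * (if r ^ d = y then ω r ^ ε else 0) =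
      ∑ γ ∈ Ico a (a + (p ^ s - 1)), ω y ^ γ * (((tchar ω)⁻¹ ^ (d * γ)) r * ω r ^ ε) := by
    intro r
    rcases eq_or_ne r 0 with rfl | hr
    · simp only [zero_pow hd, hy.symm, if_false, MulChar.map_zero, zero_mul, mul_zero,
        sum_const_zero]
    have e2 : ∀ γ, ω y ^ γ * ((tchar ω)⁻¹ ^ (d * γ)) r = ω (y / r ^ d) ^ γ := fun γ => by
      lift r to Eˣ using hr.isUnit
      rw [MulChar.pow_apply_coe, MulChar.inv_apply', pow_mul, ← mul_pow, div_eq_mul_inv, map_mul,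
        ← inv_pow, map_pow]
      rfl
    simp only [← mul_assoc, e2, ← sum_mul]
    split_ifs with e
    · simp [← e, hr]
    have e3 := geom_sum_mul (ω (y / r ^ d)) (p ^ s - 1)
    rw [← map_pow ω _ (p ^ s - 1), ← hs, FiniteField.pow_card_sub_one_eq_one _ (by positivity),
      map_one, sub_self, mul_eq_zero, sub_eq_zero, ← map_one ω, h.1.injective.eq_iff,
      div_eq_one_iff_eq (by positivity), hs] at e3
    rw [sum_Ico_eq_sum_range, Nat.add_sub_cancel_left]
    simp only [pow_add, ← mul_sum, e3.resolve_right (Ne.symm e), mul_zero, zero_mul]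
  refine mul_left_cancel₀ h2 ?_
  simp only [mul_sum, e1]
  rw [sum_comm, sum_filter]
  refine sum_congr rfl fun γ _ => ?_
  rw [← mul_sum, sum_char_pow h.1.injective, hs]
  split_ifs <;> simp [mul_comm]

omit [CharP E p] in
theorem window {N d γ ε : ℕ} (hN : N = p ^ s - 1) (h0 : 0 < N) (hd : d ≠ 0)
    (h : d * γ ≡ ε [MOD N] ∧ (ε ≠ 0 → γ ≠ 0) ∧ (ε = 0 → γ < N)) (i : ℕ) :
    ∃ l < d, ∀ j, (∀ j' < j, p * rs N (p ^ (i + j') * ε) ≤ N) →
      d * rs N (p ^ (i + j) * γ) = rs N (p ^ (i + j) * ε) + p ^ j * l % d * N := by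
  have hp0 := hp.out.ne_zero
  have hs : s ≠ 0 := by
    rintro rfl
    simp [hN] at h0
  have h1 : ∀ j, ∃ l < d, d * rs N (p ^ j * γ) = rs N (p ^ j * ε) + l * N := fun j => by
    have e1 : d * rs N (p ^ j * γ) ≡ p ^ j * ε [MOD N] :=
      ((rs_modEq _ _).mul_left d).trans (mul_left_comm d _ _ ▸ h.1.mul_left _)
    have e2 := rs_le_of e1 fun e => mul_ne_zero hd (rs_ne_zero
      (mul_ne_zero (pow_ne_zero _ hp0) (h.2.1 (right_ne_zero_of_mul e))))
    obtain ⟨l, hl⟩ := (Nat.modEq_iff_dvd' e2).1 ((rs_modEq _ _).trans e1.symm)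
    refine ⟨l, Nat.lt_of_mul_lt_mul_left (a := N) ?_, by rw [mul_comm l, ← hl]; omega⟩
    rw [← hl, mul_comm N]
    rcases eq_or_ne ε 0 with rfl | e
    · rcases eq_or_ne γ 0 with rfl | e'
      · simp only [mul_zero, rs_zero, Nat.sub_zero]
        positivity
      rw [rs_of_not_dvd (not_dvd_pow_mul (hN ▸ dvd_rfl) hs
        (Nat.not_dvd_of_pos_of_lt (by omega) (h.2.2 rfl)) j)]
      exact (Nat.sub_le _ _).trans_lt (Nat.mul_lt_mul_of_pos_left (Nat.mod_lt _ h0) (by omega))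
    · have := Nat.mul_le_mul_left d (rs_le h0 (p ^ j * γ))
      have := rs_ne_zero (N := N) (mul_ne_zero (pow_ne_zero j hp0) e)
      omega
  choose l hl1 hl2 using h1
  refine ⟨l i, hl1 i, fun j hj => ?_⟩
  rw [hl2]
  congr 2
  induction j with
  | zero => simp [Nat.mod_eq_of_lt (hl1 i)]
  | succ j ih =>
    have e1 : rs N (p ^ (i + j + 1) * ε) = p * rs N (p ^ (i + j) * ε) := by
      have e2 : p * rs N (p ^ (i + j) * ε) ≡ p ^ (i + j + 1) * ε [MOD N] := by
        rw [pow_succ', mul_assoc]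
        exact (rs_modEq _ _).mul_left _
      rcases eq_or_ne ε 0 with rfl | e
      · simp [rs_zero]
      have e3 := rs_ne_zero (N := N) (mul_ne_zero (pow_ne_zero (i + j) hp0) e)
      have e4 := rs_ne_zero (N := N) (mul_ne_zero (pow_ne_zero (i + j + 1) hp0) e)
      have e5 := rs_le h0 (p ^ (i + j + 1) * ε)
      have e6 := hj j j.lt_succ_self
      have e7 := mul_ne_zero hp0 e3
      refine Nat.ModEq.eq_of_abs_lt ((rs_modEq _ _).trans e2.symm) (abs_lt.2 ?_)
      omega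
    have e2 : p * rs N (p ^ (i + j) * γ) ≡ rs N (p ^ (i + j + 1) * γ) [MOD N] := by
      refine .trans ?_ (rs_modEq _ _).symm
      rw [pow_succ', mul_assoc]
      exact (rs_modEq _ _).mul_left _
    have e3 := e2.mul_left' (c := d)
    rw [mul_left_comm, hl2, hl2, e1, mul_add, ← mul_assoc] at e3
    have e4 := Nat.ModEq.mul_right_cancel' h0.ne' (Nat.ModEq.add_left_cancel' _ e3)
    rw [ih fun j' h => hj j' (by omega)] at e4
    rw [pow_succ', mul_assoc, ← Nat.mul_mod_mod, e4, Nat.mod_eq_of_lt (hl1 _), add_assoc]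

theorem sum_range_mul_block (g : ℕ → ℕ) (P R : ℕ) :
    ∑ j ∈ range (R * P), g j = ∑ r ∈ range R, ∑ j ∈ range P, g (P * r + j) := by
  induction R with
  | zero => simp
  | succ R ih => rw [Nat.succ_mul, sum_range_add, ih, sum_range_succ, mul_comm R]

theorem sp_base [DecidableEq E] (h : Std p ω Ψ) (hs : Fintype.card E = p ^ s) (f ν : Polynomial E)
    {e D H L' M P R c d k β : ℕ} {A B₀ : ℕ → ℕ} {φ : E × E → K} (hφ : Ex ω p s e D A B₀ φ)
    (hD : 0 < D) (hf : f.natDegree ≤ H) (hν : ν.natDegree ≤ L') (hβ : β ≠ 0) (hd : d ≠ 0)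
    (hA : ∀ j < s, A j < p ^ s - 1) (hβ' : ∀ j, p ^ s - 1 ≤ M * rs (p ^ s - 1) (p ^ j * β))
    (hG : ∀ r, ∀ l < d, ∃ j < P, M * (D * (d * (H * rs (p ^ s - 1) (p ^ (P * r + j) * β) +
      B₀ (P * r + j)) + L' * (p ^ j * l % d) * (p ^ s - 1))) + (p ^ s - 1) ≤ M * d * (p ^ s - 1))
    (hR : P * R ≤ s) (hk : (M * D * (d + L') + p) * c + k ≤ R) :
    Sp ω p s (fun v : Fin 3 → E => if v 1 * f.eval (v 0) = 1 ∧ v 2 ^ d = ν.eval (v 0) then
      ((p : K) ^ s)⁻¹ * ∑ x, ω (f.eval (v 0)) ^ β * φ (x, v 0) else 0) c k := by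
  intro ε hε
  have hN := pred_pos hs
  obtain ⟨hp0, hp1⟩ := h.norm_p
  obtain ⟨Γ, hΓ, hΓ'⟩ := kummer_sum h hs hd (ε 2)
  have e1 : ∀ t, ∑ z, ∑ r, (if z * f.eval t = 1 ∧ r ^ d = ν.eval t then ((p : K) ^ s)⁻¹ *
      ∑ x, ω (f.eval t) ^ β * φ (x, t) else 0) *
      (ω t ^ ε 0 * ω z ^ ε 1 * ω r ^ ε 2) = ∑ γ' ∈ Γ, ((p : K) ^ s)⁻¹ * ∑ x, ω t ^ ε 0 *
      ω (f.eval t) ^ (β + (p ^ s - 2) * ε 1) * ω (ν.eval t) ^ γ' * φ (x, t) := fun t => by
    rcases eq_or_ne (f.eval t) 0 with e | e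
    · simp [e, hβ]
    have e2 : ω (f.eval t)⁻¹ = ω (f.eval t) ^ (p ^ s - 2) := by
      rw [← map_pow, inv_eq_of_mul_eq_one_right]
      rw [← pow_succ', show p ^ s - 2 + 1 = Fintype.card E - 1 by omega,
        FiniteField.pow_card_sub_one_eq_one _ e]
    rw [sum_comm]
    simp only [mul_eq_one_iff_eq_inv₀ e, ite_and, ite_mul, zero_mul, sum_ite_eq', mem_univ, if_true,
      e2, ← mul_sum, ← sum_mul, pow_add, pow_mul, ← hΓ', ← mul_assoc]
    simp only [← mul_ite_zero, ← mul_sum]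
    ring
  rw [← (Fin.consEquiv fun _ => E).sum_comp, Fintype.sum_prod_type]
  simp only [← (finTwoArrowEquiv E).symm.sum_comp, Fintype.sum_prod_type]
  refine (congrArg norm (sum_congr rfl fun t _ => Eq.trans (by
    simp only [Fin.prod_univ_three]; rfl) (e1 t))).trans_le ?_
  rw [sum_comm]
  refine IsUltrametricDist.norm_sum_le_of_forall_le_of_nonneg (by positivity) fun γ' hγ' => ?_
  have h1 := (((ex_vert h hs hD Polynomial.X Polynomial.natDegree_X_le (ε 0)).mul
    (ex_vert h hs hD f hf (β + (p ^ s - 2) * ε 1))).mul (ex_vert h hs hD ν hν γ')).mul hφ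
  generalize hB : (fun j => 1 * rs (p ^ s - 1) (p ^ j * ε 0)) + _ + _ + _ = B at h1
  have h2 := h1.norm_sum h hs (fun j => D * B j < p ^ s - 1) (fun _ => False)
    (fun j hj h3 => ⟨by simpa using hA j hj, h3⟩) fun j hj _ => .inl (by simpa using hA j hj)
  rw [← mul_sum, sum_comm, norm_mul, norm_inv, norm_pow, inv_mul_le_iff₀ (by positivity), ← pow_add]
  simp only [if_false, sum_const_zero, pow_zero, mul_one, Fintype.sum_prod_type, Pi.mul_apply,
    Polynomial.eval_X] at h2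
  refine h2.trans (pow_le_pow_of_le_one hp0.le hp1.le (Nat.add_le_add_left ?_ _))
  refine Nat.le_of_add_le_add_left (a := (M * D * (d + L') + p) * c)
    (hk.trans (Nat.le_of_mul_le_mul_left ?_ hN))
  simp only [wt] at hε
  rw [sum_comm] at hε
  rw [mul_add, mul_left_comm, mul_comm _ c]
  refine le_trans ?_ (Nat.add_le_add_right (Nat.mul_le_mul_left _ hε) _)
  rw [mul_sum, mul_sum, ← sum_add_distrib]
  refine le_trans ?_ (sum_le_sum_of_subset (range_subset_range.2 hR))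
  rw [mul_comm P, sum_range_mul_block, mul_comm, ← smul_eq_mul, ← card_range R, ← sum_const,
    card_range]
  refine sum_le_sum fun r _ => ?_
  by_contra! hc
  have h3 := fun j hj => (single_le_sum (f := fun j => _) (fun _ _ => Nat.zero_le _)
    (mem_range.2 hj : j ∈ range P)).trans_lt hc
  simp only [Fin.sum_univ_three] at h3
  obtain ⟨l, hl, hl'⟩ := window rfl hN hd (hΓ γ' hγ') (P * r)
  obtain ⟨j, hj, h6⟩ := hG r l hl
  have h4 := hl' j fun j' hj' => by
    have := h3 j' (by omega)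
    simp only [add_mul, mul_add] at this
    omega
  have h5 := h3 j hj
  have h7 : rs (p ^ s - 1) (p ^ (P * r + j) * ε 1) < rs (p ^ s - 1) (p ^ (P * r + j) * β) := by
    refine Nat.lt_of_mul_lt_mul_left (a := M) (lt_of_lt_of_le ?_ (hβ' _))
    have := Nat.mul_le_mul_right (rs (p ^ s - 1) (p ^ (P * r + j) * ε 1))
      ((Nat.le_mul_of_pos_right M hD).trans (Nat.le_mul_of_pos_right _ (Nat.pos_of_ne_zero hd)))
    simp only [add_mul, mul_add] at h5
    omega
  have h8 : rs (p ^ s - 1) (p ^ (P * r + j) * (β + (p ^ s - 2) * ε 1)) ≤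
      rs (p ^ s - 1) (p ^ (P * r + j) * β) - rs (p ^ s - 1) (p ^ (P * r + j) * ε 1) := by
    refine rs_le_of (Nat.ModEq.add_right_cancel (rs_modEq (p ^ s - 1) (p ^ (P * r + j) * ε 1)) ?_)
      fun _ => by omega
    rw [Nat.sub_add_cancel h7.le, mul_add, add_assoc, mul_left_comm, ← Nat.succ_mul,
      show (p ^ s - 2).succ = p ^ s - 1 by omega]
    exact (rs_modEq _ _).trans ((Nat.modEq_iff_dvd' (by omega)).2 (by simp))
  have h9 := Nat.mul_le_mul_left (M * D * d * H) (h8.trans (Nat.sub_le _ _))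
  rw [if_pos] at h5
  · omega
  rw [← hB]
  simp only [Pi.add_apply, one_mul]
  refine Nat.lt_of_mul_lt_mul_left (a := M * d) ?_
  have h10 := congrArg (M * D * L' * ·) h4
  have h11 := (Nat.le_add_right _ _).trans_lt h5
  generalize rs (p ^ s - 1) (p ^ (P * r + j) * ε 0) = x at *
  generalize rs (p ^ s - 1) (p ^ (P * r + j) * ε 1) = y at *
  generalize rs (p ^ s - 1) (p ^ (P * r + j) * ε 2) = z at *
  have h12 : M * D * d * x + M * D * L' * z ≤ (M * D * (d + L') + p) * (x + y + z) :=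
    Nat.le.intro (k := M * D * d * (y + z) + M * D * L' * (x + y) + p * (x + y + z)) (by ring)
  linarith

end Pool.Agent.Work.MP_60d5ce_nt
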