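import Pool.Agent.Work.MP_60d5ce_nt.Arith

/-!
# The Legendre curve over `F(v)`, `t = g(v)^d`
-/

namespace Pool.Agent.ShaFF

open Polynomial

universe u

theorem root_isSquare {F : Type u} [Field F] {p : ℕ} [Fact p.Prime] [CharP F p] (hp : p ≠ 2)
    {f : ℕ} (hf : 0 < f) {ζ₀ : F} (hζ₀ : IsPrimitiveRoot ζ₀ (p ^ f + 1)) {ζ : F}
    (hζ : ζ ^ (p ^ f + 1) = 1) : IsSquare ζ := by
  have hpp : p.Prime := Fact.out
  have hodd : Odd (p ^ f) := (hpp.odd_of_ne_two hp).pow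
  obtain ⟨k, hk⟩ := hodd
  have key : ∀ η : F, η ^ (p ^ f + 1) = 1 → η ≠ -1 → IsSquare η := by
    intro η hη h1
    have h2 : 1 + η ≠ 0 := fun H => h1 (by linear_combination H)
    have h3 : (1 + η) ^ (p ^ f) = 1 + η ^ (p ^ f) := by rw [add_pow_char_pow, one_pow]
    have h4 : η * (1 + η) ^ (2 * k + 1) = 1 + η := by
      rw [← hk, h3]; linear_combination hη
    refine ⟨((1 + η) ^ k)⁻¹, ?_⟩
    field_simp
    apply mul_right_cancel₀ h2
    linear_combination h4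
  by_cases h1 : ζ = -1
  · have h3 : 3 ≤ p ^ f := by
      have : 3 ≤ p := by
        have := hpp.two_le
        omega
      exact this.trans (Nat.le_self_pow hf.ne' p)
    have h0 : ζ₀ ≠ 0 := hζ₀.ne_zero (by omega)
    have n1 : ζ₀ ≠ -1 := by
      intro H
      have := hζ₀.dvd_of_pow_eq_one 2 (by rw [H]; ring)
      have := Nat.le_of_dvd two_pos this
      omega
    have n2 : -ζ₀⁻¹ ≠ -1 := by
      intro H
      have h5 : ζ₀ = 1 := by simpa using H
      have := hζ₀.dvd_of_pow_eq_one 1 (by rw [h5]; ring)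
      have := Nat.le_of_dvd one_pos this
      omega
    have s1 := key ζ₀ hζ₀.pow_eq_one n1
    have s2 := key (-ζ₀⁻¹) (by
      rw [Even.neg_pow ⟨k + 1, by omega⟩, inv_pow, hζ₀.pow_eq_one, inv_one]) n2
    have := s1.mul s2
    rwa [mul_neg, mul_inv_cancel₀ h0, ← h1] at this
  · exact key ζ hζ h1

theorem legendre_sha {F : Type u} [Field F] {p : ℕ} [Fact p.Prime] [CharP F p] (hp : p ≠ 2)
    {f : ℕ} (hf : 0 < f) {ζ₀ : F} (hζ₀ : IsPrimitiveRoot ζ₀ (p ^ f + 1))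
    (g : F[X]) (hodd : Odd g.natDegree) (hg : Irreducible g)
    (hgζ : ∀ ζ : F, ζ ^ (p ^ f + 1) = 1 → Irreducible (g - C ζ))
    (t : RatFunc F) (ht : t = algebraMap F[X] (RatFunc F) g ^ (p ^ f + 1))
    (E : WeierstrassCurve (RatFunc F)) (hE : E = ⟨0, 1 + t, 0, t, 0⟩)
    (Ω : Type u) [Field Ω] [Algebra (RatFunc F) Ω] [IsSepClosure (RatFunc F) Ω] [DecidableEq Ω] :
    ∀ c : (Ω ≃ₐ[RatFunc F] Ω) → Pts E Ω, InSha E c → ∀ n : ℕ,
      IsCoboundary E (2 ^ n • c) → IsCoboundary E c := by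
  subst hE
  classical
  have hpp : p.Prime := Fact.out
  obtain ⟨k, hk⟩ : Odd (p ^ f) := (hpp.odd_of_ne_two hp).pow
  have h3 : 3 ≤ p ^ f := by
    have : 3 ≤ p := by
      have := hpp.two_le
      omega
    exact this.trans (Nat.le_self_pow hf.ne' p)
  obtain ⟨k, rfl⟩ : ∃ j, k = j + 1 := ⟨k - 1, by omega⟩
  have hd : p ^ f + 1 = 2 * (k + 2) := by omega
  set ι := algebraMap F[X] (RatFunc F) with hι
  have hi : Function.Injective ι := IsFractionRing.injective F[X] (RatFunc F)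
  have h2F : (2 : F) ≠ 0 := by
    intro H
    have : (p : ℕ) ∣ 2 := (CharP.cast_eq_zero_iff F p 2).1 (by exact_mod_cast H)
    exact hp ((Nat.prime_dvd_prime_iff_eq hpp Nat.prime_two).1 this)
  have hnd : ∀ (c : F) (q : F[X]), c ≠ 0 → C c + g * q ≠ 0 := by
    intro c q hc H
    refine hg.not_isUnit (isUnit_of_dvd_unit ⟨-q, ?_⟩ (isUnit_C.2 hc.isUnit))
    linear_combination H
  have hg0 : ι g ≠ 0 := by simpa [hι] using hg.ne_zero
  have hnd' : ∀ (c : F) (q : F[X]), c ≠ 0 → ι (C c) + ι g * ι q ≠ 0 := by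
    intro c q hc
    rw [← map_mul, ← map_add]
    exact (map_ne_zero_iff ι hi).2 (hnd c q hc)
  have h2K : (2 : RatFunc F) ≠ 0 := by
    have := hnd' 2 0 h2F
    simpa [map_ofNat] using this
  have hS : Spl (⟨0, 1 + t, 0, t, 0⟩ : WeierstrassCurve (RatFunc F)).toAffine 0 (-1) (-t) := by
    refine ⟨rfl, rfl, by simp; ring, by simp, by simp, by simp, ?_, ?_, h2K⟩
    · rw [ht]; simpa using hg0
    · intro H
      apply hnd' 1 (-g ^ (p ^ f)) one_ne_zero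
      rw [ht] at H
      simp only [map_one, map_neg, map_pow]
      linear_combination -H
  set S := nthRootsFinset (p ^ f + 1) (1 : F) with hSdef
  have hmem : ∀ ζ, ζ ∈ S ↔ ζ ^ (p ^ f + 1) = 1 := fun ζ => mem_nthRootsFinset (by omega) 1
  have hne : ∀ ζ ∈ S, ζ ≠ 0 := by
    rintro ζ hζ rfl
    simpa using (hmem 0).1 hζ
  have hneg : ∀ ζ ∈ S, (-ζ) ^ (p ^ f + 1) = 1 := fun ζ hζ => by
    rw [Even.neg_pow ⟨k + 2, by omega⟩, (hmem ζ).1 hζ]
  have hsq : ∀ ζ ∈ S, ζ ≠ 0 ∧ IsSquare (-ζ) := fun ζ hζ =>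
    ⟨hne ζ hζ, root_isSquare hp hf hζ₀ (hneg ζ hζ)⟩
  have hprod : g ^ (2 * (k + 2)) - 1 = ∏ ζ ∈ S, (g - C ζ) := by
    have := congrArg (fun q => q.comp g) (X_pow_sub_one_eq_prod (by omega) hζ₀)
    simpa [Polynomial.prod_comp, hd, hSdef] using this
  have : CharP (RatFunc F) p := inferInstance
  let x : S → RatFunc F := fun ζ => ι (C (-ζ.1)⁻¹) * ι g
  let y : S → RatFunc F := fun ζ => x ζ * (x ζ + 1) ^ (k + 2)
  have hx0 : ∀ ζ, x ζ ≠ 0 := fun ζ =>
    mul_ne_zero (by simpa [hι] using hne ζ.1 ζ.2) hg0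
  have hx1 : ∀ ζ, x ζ + 1 ≠ 0 := fun ζ => by
    have := hnd' 1 (C (-ζ.1)⁻¹) one_ne_zero
    rw [map_one, map_one] at this
    intro H
    apply this
    rw [← H]; ring
  have hxd : ∀ ζ, x ζ ^ (p ^ f + 1) = t := fun ζ => by
    rw [mul_pow, ← map_pow, ← map_pow, inv_pow, hneg ζ.1 ζ.2, ht]; simp
  have hm1 : (-1 : F) ∈ S := (hmem _).2 (by rw [Even.neg_pow ⟨k + 2, by omega⟩, one_pow])
  have hxm : x ⟨-1, hm1⟩ = ι g := by simp [x]
  apply sha_of_descent
  refine descent hS x y (fun ζ => mul_ne_zero (hx0 ζ) (pow_ne_zero _ (hx1 ζ))) (fun ζ => ?_)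
    ⟨-1, hm1⟩ ?_ ?_ ?_ ?_
  · have e1 : (x ζ + 1) ^ (p ^ f) = x ζ ^ (p ^ f) + 1 := by rw [add_pow_char_pow, one_pow]
    have e2 : (x ζ + 1) ^ (2 * (k + 2)) = (x ζ ^ (p ^ f) + 1) * (x ζ + 1) := by
      rw [← hd, pow_succ, e1]
    rw [← hxd ζ]
    simp only [y]
    linear_combination (x ζ) ^ 2 * e2
  · rw [hxm, ht, hd]
    intro H
    apply mul_ne_zero (pow_ne_zero 2 hg0) (hnd' 1 (-g ^ (2 * k + 1)) one_ne_zero)
    simp only [map_one, map_neg, map_pow]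
    linear_combination H
  · rw [hxm, ht, hd]
    intro H
    apply mul_ne_zero hg0 (hnd' 2 (1 + g ^ (2 * k + 2)) h2F)
    simp only [map_one, map_add, map_pow, map_ofNat]
    linear_combination H
  · rw [hxm, ht, hd]
    intro H
    apply mul_ne_zero (pow_ne_zero 2 hg0) (hnd' 1 (g ^ (2 * k + 1) * (2 * g + 1)) one_ne_zero)
    simp only [map_one, map_add, map_mul, map_pow, map_ofNat]
    linear_combination H
  · intro b1 b2 b3 hb1 hb2 _ hw H
    rw [ht, hd] at H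
    obtain ⟨A, hAS, hA1, hA2⟩ := selmer g hg hodd (k + 2) (by omega) S
      ((hmem 1).2 (one_pow _)) (fun ζ hζ => hgζ ζ ((hmem ζ).1 hζ)) hsq hprod b1 b2 b3 hb1 hb2 hw H
    have hsq' : IsSquare (∏ ζ ∈ A, ι (C (-ζ)⁻¹)) :=
      Finset.prod_induction _ _ (fun a b => IsSquare.mul) IsSquare.one fun ζ hζ =>
        ((hsq ζ (hAS hζ)).2.inv.map C).map ι
    refine ⟨A.subtype (· ∈ S), ?_, ?_⟩
    · have := Finset.prod_subtype_of_mem (fun ζ : F => ι (C (-ζ)⁻¹) * ι g - 0) (s := A)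
        (p := (· ∈ S)) (fun ζ hζ => hAS hζ)
      rw [show ∏ j ∈ A.subtype (· ∈ S), (x j - 0) = _ from this]
      simp only [sub_zero]
      rw [Finset.prod_mul_distrib, Finset.prod_const, mul_left_comm]
      exact hsq'.mul hA1
    · have := Finset.prod_subtype_of_mem (fun ζ : F => ι (C (-ζ)⁻¹) * ι g - (-1)) (s := A)
        (p := (· ∈ S)) (fun ζ hζ => hAS hζ)
      rw [show ∏ j ∈ A.subtype (· ∈ S), (x j - (-1)) = _ from this,
        Finset.prod_congr rfl (g := fun ζ => ι (C (-ζ)⁻¹) * ι (g - C ζ)) (fun ζ hζ => by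
          have h0 := hne ζ (hAS hζ)
          have : ι (C (-ζ)⁻¹) * ι (C ζ) = -1 := by
            rw [← map_mul, ← map_mul, inv_neg, neg_mul, inv_mul_cancel₀ h0]; simp
          rw [map_sub, mul_sub, this]),
        Finset.prod_mul_distrib, mul_left_comm]
      exact hsq'.mul hA2

end Pool.Agent.ShaFF
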