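import Pool.Agent.Work.MP_60d5ce_nt.Descent

/-!
# Local lemmas for the 2-descent
-/

namespace Pool.Agent.ShaFF

open WithZero

universe u

variable {K : Type u} [Field K]

section gen

variable {Γ : Type*} [LinearOrderedCommGroupWithZero Γ] {ν : Valuation K Γ}

/-- first-order agreement for a valuation -/
def VA (ν : Valuation K Γ) (a b : K) : Prop := ν (a - b) < ν a

theorem VA.val_eq {a b : K} (h : VA ν a b) : ν a = ν b := by
  have h' : ν (b - a) < ν a := by rw [ν.map_sub_swap]; exact h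
  exact (ν.map_eq_of_sub_lt h').symm

theorem VA.ne_zero {a b : K} (h : VA ν a b) : a ≠ 0 := by
  rintro rfl
  simp [VA] at h

theorem VA.symm {a b : K} (h : VA ν a b) : VA ν b a := by
  have := h.val_eq
  unfold VA at *
  rw [ν.map_sub_swap, ← this]; exact h

theorem VA.trans {a b c : K} (h : VA ν a b) (h' : VA ν b c) : VA ν a c := by
  have := h.val_eq
  unfold VA at *
  rw [show a - c = (a - b) + (b - c) by ring]
  exact ν.map_add_lt h (this ▸ h')

theorem VA.refl {a : K} (h : a ≠ 0) : VA ν a a := by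
  simp [VA, zero_lt_iff, h]

theorem VA.mul_right {a b : K} (h : VA ν a b) {c : K} (hc : c ≠ 0) : VA ν (a * c) (b * c) := by
  unfold VA at *
  rw [← sub_mul, map_mul, map_mul]
  exact mul_lt_mul_of_pos_right h (by simp [zero_lt_iff, hc])

theorem VA.mul {a b c d : K} (h : VA ν a b) (h' : VA ν c d) : VA ν (a * c) (b * d) := by
  refine (h.mul_right h'.ne_zero).trans ?_
  rw [mul_comm b c, mul_comm b d]
  exact h'.mul_right h.symm.ne_zero

theorem VA.prod {J : Type*} (A : Finset J) (a b : J → K) (h : ∀ j ∈ A, VA ν (a j) (b j)) :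
    VA ν (∏ j ∈ A, a j) (∏ j ∈ A, b j) := by
  classical
  induction A using Finset.induction_on with
  | empty => simpa using VA.refl one_ne_zero
  | insert i s hi ih =>
    rw [Finset.prod_insert hi, Finset.prod_insert hi]
    exact (h i (Finset.mem_insert_self _ _)).mul
      (ih fun j hj => h j (Finset.mem_insert_of_mem hj))

theorem VA.pow {a b : K} (h : VA ν a b) (n : ℕ) : VA ν (a ^ n) (b ^ n) := by
  induction n with
  | zero => simpa using VA.refl one_ne_zero
  | succ n ih => rw [pow_succ, pow_succ]; exact ih.mul h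

variable {e1 e2 e3 b1 b2 b3 X z1 z2 z3 w : K}

/-- at a place where `e1` is distinct from `e2`, `e3` (and these are at distance one),
`b1` has even valuation -/
theorem local_unram (h1 : VA ν b1 ((X - e1) * z1 ^ 2)) (h2 : VA ν b2 ((X - e2) * z2 ^ 2))
    (h3 : VA ν b3 ((X - e3) * z3 ^ 2)) (hw : b1 * b2 * b3 = w * w)
    (d2 : ν (e1 - e2) = 1) (d3 : ν (e1 - e3) = 1) : ∃ k : K, ν b1 = ν k ^ 2 := by
  have k1 := h1.val_eq
  have k2 := h2.val_eq
  have k3 := h3.val_eq
  have n1 := h1.symm.ne_zero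
  have n2 := h2.symm.ne_zero
  have n3 := h3.symm.ne_zero
  have hz2 : z2 ≠ 0 := by rintro rfl; simp at n2
  have hz3 : z3 ≠ 0 := by rintro rfl; simp at n3
  have hz1 : z1 ≠ 0 := by rintro rfl; simp at n1
  have hX1 : X - e1 ≠ 0 := left_ne_zero_of_mul n1
  have hw' := congrArg ν hw
  simp only [map_mul, map_pow] at k1 k2 k3 hw'
  have vz2 : ν z2 ≠ 0 := by simpa using hz2
  have vz3 : ν z3 ≠ 0 := by simpa using hz3
  have vX : ν (X - e1) ≠ 0 := by simpa using hX1
  rcases lt_trichotomy (ν (X - e1)) 1 with h | h | h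
  · have m2 : ν (X - e2) = 1 := by
      rw [show X - e2 = (e1 - e2) + (X - e1) by ring, ν.map_add_eq_of_lt_left (d2 ▸ h), d2]
    have m3 : ν (X - e3) = 1 := by
      rw [show X - e3 = (e1 - e3) + (X - e1) by ring, ν.map_add_eq_of_lt_left (d3 ▸ h), d3]
    refine ⟨w / (z2 * z3), ?_⟩
    rw [map_div₀, map_mul, div_pow, sq (ν w), ← hw', k2, k3, m2, m3]
    field_simp
  · exact ⟨z1, by rw [k1, h, one_mul]⟩
  · have m2 : ν (X - e2) = ν (X - e1) := by
      rw [show X - e2 = (X - e1) + (e1 - e2) by ring, ν.map_add_eq_of_lt_left (d2 ▸ h)]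
    have m3 : ν (X - e3) = ν (X - e1) := by
      rw [show X - e3 = (X - e1) + (e1 - e3) by ring, ν.map_add_eq_of_lt_left (d3 ▸ h)]
    refine ⟨w / ((X - e1) * z2 * z3), ?_⟩
    rw [map_div₀, map_mul, map_mul, div_pow, sq (ν w), ← hw', k2, k3, m2, m3]
    field_simp

/-- at a place of split multiplicative type where `e2`, `e3` collide, `b1` is a local square -/
theorem local_split (h1 : VA ν b1 ((X - e1) * z1 ^ 2)) (h2 : VA ν b2 ((X - e2) * z2 ^ 2))
    (h3 : VA ν b3 ((X - e3) * z3 ^ 2)) (hw : b1 * b2 * b3 = w * w)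
    (d : ν (e2 - e3) < ν (e2 - e1)) {s : K} (hs : e2 - e1 = s ^ 2) : ∃ k : K, VA ν b1 (k ^ 2) := by
  have n1 := h1.symm.ne_zero
  have n2 := h2.symm.ne_zero
  have n3 := h3.symm.ne_zero
  have hz2 : z2 ≠ 0 := by rintro rfl; simp at n2
  have hz3 : z3 ≠ 0 := by rintro rfl; simp at n3
  have hz1 : z1 ≠ 0 := by rintro rfl; simp at n1
  have hX2 : X - e2 ≠ 0 := left_ne_zero_of_mul n2
  rcases lt_or_ge (ν (e2 - e3)) (ν (X - e2)) with h | h
  · have m : VA ν (X - e2) (X - e3) := by
      unfold VA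
      rw [show X - e2 - (X - e3) = e3 - e2 by ring, ν.map_sub_swap]; exact h
    have m2 : VA ν ((X - e2) * z2 ^ 2 * ((X - e2) * z3 ^ 2)) (b2 * b3) :=
      h2.symm.mul ((m.mul_right (pow_ne_zero 2 hz3)).trans h3.symm)
    have m3 := ((VA.refl h1.ne_zero).mul m2).mul_right
      (c := (((X - e2) * z2 * z3) ^ 2)⁻¹) (by simp [hX2, hz2, hz3])
    refine ⟨w / ((X - e2) * z2 * z3), ?_⟩
    convert m3 using 1
    · field_simp
    · rw [← mul_assoc, hw]; field_simp
  · have m : VA ν (e2 - e1) (X - e1) := by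
      unfold VA
      rw [show e2 - e1 - (X - e1) = e2 - X by ring, ν.map_sub_swap]; exact h.trans_lt d
    refine ⟨s * z1, h1.trans ?_⟩
    rw [mul_pow, ← hs]
    exact m.symm.mul_right (pow_ne_zero 2 hz1)

end gen

/-- the real absolute value attached to a discrete valuation -/
noncomputable def absOf (ν : Valuation K ℤᵐ⁰) : AbsoluteValue K ℝ where
  toFun x := (WithZeroMulInt.toNNReal (e := 2) two_ne_zero (ν x) : ℝ)
  map_mul' x y := by simp
  nonneg' x := NNReal.coe_nonneg _
  eq_zero' x := by simp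
  add_le' x y := by
    have hm := (WithZeroMulInt.toNNReal_strictMono (e := 2) one_lt_two).monotone
    rcases le_max_iff.1 (ν.map_add x y) with h | h
    · have := NNReal.coe_le_coe.2 (hm h)
      exact this.trans (le_add_of_nonneg_right (NNReal.coe_nonneg _))
    · have := NNReal.coe_le_coe.2 (hm h)
      exact this.trans (le_add_of_nonneg_left (NNReal.coe_nonneg _))

theorem absOf_lt (ν : Valuation K ℤᵐ⁰) (a b : K) : absOf ν a < absOf ν b ↔ ν a < ν b := by
  have hm := (WithZeroMulInt.toNNReal_strictMono (e := 2) one_lt_two)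
  exact NNReal.coe_lt_coe.trans hm.lt_iff_lt

theorem apx_iff (ν : Valuation K ℤᵐ⁰) (a b : K) : Apx (absOf ν) a b ↔ VA ν a b := absOf_lt ν _ _

theorem absOf_nontrivial (ν : Valuation K ℤᵐ⁰) {a : K} (ha : a ≠ 0) (h : ν a < 1) :
    (absOf ν).IsNontrivial := by
  refine ⟨a, ha, ne_of_lt ?_⟩
  have := (absOf_lt ν a 1).2 (by simpa using h)
  simpa using this

end Pool.Agent.ShaFF
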